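import Pool.Agent.Helper8.Frac

/-! # Expansions of `P / ∏ (X+j)^a` -/

namespace Pool.Agent.Helper8

open Finset PowerSeries

/-- The Taylor series of a polynomial at `x`. -/
noncomputable def atp (x : ℚ) : Polynomial ℚ →+* ℚ⟦X⟧ :=
  Polynomial.eval₂RingHom (C : ℚ →+* ℚ⟦X⟧) (C x + X)

@[simp] theorem atp_C (x c : ℚ) : atp x (Polynomial.C c) = C c := by simp [atp]

@[simp] theorem atp_X (x : ℚ) : atp x (Polynomial.X) = C x + X := by simp [atp]

theorem atp_eq_taylor (x : ℚ) (P : Polynomial ℚ) :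
    atp x P = ((Polynomial.taylor x P : Polynomial ℚ) : ℚ⟦X⟧) := by
  have h : (atp x) = (Polynomial.coeToPowerSeries.ringHom (R := ℚ)).comp
      ((Polynomial.taylorAlgHom x : Polynomial ℚ →ₐ[ℚ] Polynomial ℚ) :
        Polynomial ℚ →+* Polynomial ℚ) := by
    apply Polynomial.ringHom_ext
    · intro a; simp
    · simp [add_comm]
  rw [h]; simp

theorem pow_dvd_of_X_pow_dvd_atp {x : ℚ} {P : Polynomial ℚ} {k : ℕ} (h : X ^ k ∣ atp x P) :
    (Polynomial.X - Polynomial.C x) ^ k ∣ P := by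
  rw [atp_eq_taylor, PowerSeries.X_pow_dvd_iff] at h
  have h1 : (Polynomial.X : Polynomial ℚ) ^ k ∣ Polynomial.taylor x P := by
    rw [Polynomial.X_pow_dvd_iff]
    intro d hd
    have := h d hd
    rwa [Polynomial.coeff_coe] at this
  obtain ⟨Q, hQ⟩ := h1
  refine ⟨Polynomial.taylor (-x) Q, ?_⟩
  have h2 : P = Polynomial.taylor (-x) (Polynomial.taylor x P) := by
    rw [Polynomial.taylor_taylor]; simp
  rw [h2, hQ, Polynomial.taylor_mul]
  congr 1
  rw [Polynomial.taylor_pow, Polynomial.taylor_X]; simp [sub_eq_add_neg]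

theorem X_pow_dvd_atp_of_pow_dvd {x : ℚ} {P : Polynomial ℚ} {k : ℕ}
    (h : (Polynomial.X - Polynomial.C x) ^ k ∣ P) : X ^ k ∣ atp x P := by
  obtain ⟨Q, hQ⟩ := h
  refine ⟨atp x Q, ?_⟩
  rw [hQ, map_mul, map_pow, map_sub, atp_X, atp_C]; ring

/-- `∏_{j' ≠ j} 1/(j' - j + X)` -/
noncomputable def ivp (n j : ℕ) : ℚ⟦X⟧ := ∏ j' ∈ (range (n + 1)).erase j, iv ((j' : ℚ) - j)

/-- the series of `P(t) (t+j)^a / ∏ (t+j')^a` at `t = -j` -/
noncomputable def cser (a n : ℕ) (P : Polynomial ℚ) (j : ℕ) : ℚ⟦X⟧ :=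
  atp (-(j : ℚ)) P * ivp n j ^ a

/-- coefficient of `1/(t+j)^(e+1)` -/
noncomputable def cc (a n : ℕ) (P : Polynomial ℚ) (e j : ℕ) : ℚ := coeff (a - 1 - e) (cser a n P j)

/-- `∏_{j' ≠ j} (X + j')` -/
noncomputable def Mj (n j : ℕ) : Polynomial ℚ :=
  ∏ j' ∈ (range (n + 1)).erase j, (Polynomial.X + Polynomial.C (j' : ℚ))

/-- `∏_{j ≤ n} (X + j)` -/
noncomputable def MM (n : ℕ) : Polynomial ℚ :=
  ∏ j' ∈ range (n + 1), (Polynomial.X + Polynomial.C (j' : ℚ))

theorem MM_eq {n j : ℕ} (hj : j ∈ range (n + 1)) :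
    MM n = (Polynomial.X + Polynomial.C (j : ℚ)) * Mj n j := by
  rw [MM, Mj, ← mul_prod_erase _ _ hj]

theorem atp_Mj_mul_ivp (n j : ℕ) : atp (-(j : ℚ)) (Mj n j) * ivp n j = 1 := by
  rw [Mj, ivp, map_prod, ← prod_mul_distrib]
  refine prod_eq_one fun x hx => ?_
  rw [mem_erase] at hx
  have h : (atp (-(j : ℚ))) (Polynomial.X + Polynomial.C (x : ℚ)) = C ((x : ℚ) - j) + X := by
    rw [map_add, atp_X, atp_C, map_sub, map_neg]; ring
  rw [h, lin_mul_iv]
  rw [sub_ne_zero]; exact_mod_cast hx.1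

theorem atp_eq_cser (a n : ℕ) (P : Polynomial ℚ) (j : ℕ) :
    atp (-(j : ℚ)) P = cser a n P j * atp (-(j : ℚ)) (Mj n j) ^ a := by
  rw [cser, mul_assoc, ← mul_pow, mul_comm (ivp n j), atp_Mj_mul_ivp, one_pow, mul_one]

/-- The expansion into simple fractions (cleared of denominators). -/
noncomputable def pfsum (a n : ℕ) (P : Polynomial ℚ) : Polynomial ℚ :=
  ∑ j ∈ range (n + 1), ∑ e ∈ range a,
    Polynomial.C (cc a n P e j) * (Polynomial.X + Polynomial.C (j : ℚ)) ^ (a - 1 - e) * Mj n j ^ a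

theorem natDegree_Mj_le {n j : ℕ} (hj : j ∈ range (n + 1)) : (Mj n j).natDegree ≤ n := by
  refine (Polynomial.natDegree_prod_le _ _).trans ?_
  have : ∀ x ∈ (range (n + 1)).erase j,
      (Polynomial.X + Polynomial.C (x : ℚ)).natDegree ≤ 1 := fun x _ => by
    rw [Polynomial.natDegree_X_add_C]
  refine (sum_le_sum this).trans ?_
  rw [sum_const, card_erase_of_mem hj, card_range]; simp

theorem degree_pfsum_lt {a n : ℕ} (ha : 0 < a) (P : Polynomial ℚ) :
    (pfsum a n P).natDegree < a * (n + 1) := by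
  have h : (pfsum a n P).natDegree ≤ a * (n + 1) - 1 := by
    refine Polynomial.natDegree_sum_le_of_forall_le _ _ fun j hj => ?_
    refine Polynomial.natDegree_sum_le_of_forall_le _ _ fun e he => ?_
    have h1 := natDegree_Mj_le hj
    have he' := mem_range.1 he
    refine (Polynomial.natDegree_mul_le).trans ?_
    have h2 : (Mj n j ^ a).natDegree ≤ a * n :=
      (Polynomial.natDegree_pow_le).trans (Nat.mul_le_mul_left a h1)
    have h3 : (Polynomial.C (cc a n P e j) *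
        (Polynomial.X + Polynomial.C (j : ℚ)) ^ (a - 1 - e)).natDegree ≤ a - 1 := by
      refine (Polynomial.natDegree_C_mul_le _ _).trans ?_
      refine (Polynomial.natDegree_pow_le).trans ?_
      rw [Polynomial.natDegree_X_add_C]; omega
    have : a * (n + 1) = a * n + a := by ring
    omega
  have : 0 < a * (n + 1) := by positivity
  omega

theorem X_pow_dvd_sub_sum (f : ℚ⟦X⟧) (a : ℕ) :
    X ^ a ∣ f - ∑ e ∈ range a, C (coeff (a - 1 - e) f) * X ^ (a - 1 - e) := by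
  rw [PowerSeries.X_pow_dvd_iff]
  intro d hd
  rw [map_sub, map_sum, sub_eq_zero]
  have : ∀ e ∈ range a, coeff d (C (coeff (a - 1 - e) f) * X ^ (a - 1 - e) : ℚ⟦X⟧) =
      if e = a - 1 - d then coeff d f else 0 := by
    intro e he
    have he' := mem_range.1 he
    rw [coeff_C_mul, coeff_X_pow]
    by_cases h : e = a - 1 - d
    · rw [if_pos h, if_pos (by omega)]; rw [show a - 1 - e = d by omega]; ring
    · rw [if_neg h, if_neg (by omega)]; ring
  rw [sum_congr rfl this, sum_ite_eq']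
  rw [if_pos (mem_range.2 (by omega))]

theorem dvd_sub_pfsum {a n j : ℕ} (P : Polynomial ℚ) (hj : j ∈ range (n + 1)) :
    (Polynomial.X + Polynomial.C (j : ℚ)) ^ a ∣ P - pfsum a n P := by
  have h0 : (Polynomial.X + Polynomial.C (j : ℚ) : Polynomial ℚ) =
      Polynomial.X - Polynomial.C (-(j : ℚ)) := by simp
  rw [h0]
  apply pow_dvd_of_X_pow_dvd_atp
  rw [map_sub, pfsum, map_sum, ← add_sum_erase _ _ hj, ← sub_sub]
  refine dvd_sub ?_ ?_
  · rw [map_sum]
    have h1 : ∀ e ∈ range a, atp (-(j : ℚ)) (Polynomial.C (cc a n P e j) *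
        (Polynomial.X + Polynomial.C (j : ℚ)) ^ (a - 1 - e) * Mj n j ^ a) =
        C (coeff (a - 1 - e) (cser a n P j)) * X ^ (a - 1 - e) * atp (-(j : ℚ)) (Mj n j) ^ a := by
      intro e _
      rw [map_mul, map_mul, map_pow, map_pow, map_add, atp_C, atp_X, atp_C, cc, map_neg]
      ring
    rw [sum_congr rfl h1, ← sum_mul, atp_eq_cser a n P j, ← sub_mul]
    exact (X_pow_dvd_sub_sum _ _).mul_right _
  · refine dvd_sum fun i hi => ?_
    rw [map_sum]
    refine dvd_sum fun e _ => ?_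
    rw [map_mul, map_pow]
    refine Dvd.dvd.mul_left ?_ _
    refine pow_dvd_pow_of_dvd ?_ a
    rw [mem_erase] at hi
    rw [Mj, map_prod]
    have hmem : j ∈ (range (n + 1)).erase i := mem_erase.2 ⟨fun h => hi.1 h.symm, hj⟩
    have h2 := dvd_prod_of_mem
      (fun x : ℕ => atp (-(j : ℚ)) (Polynomial.X + Polynomial.C (x : ℚ))) hmem
    refine dvd_trans ?_ h2
    simp

/-- The expansion into simple fractions, cleared of denominators. -/
theorem eq_pfsum {a n : ℕ} (ha : 0 < a) {P : Polynomial ℚ} (hP : P.natDegree < a * (n + 1)) :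
    P = pfsum a n P := by
  have h1 : ∏ j ∈ range (n + 1), (Polynomial.X + Polynomial.C (j : ℚ)) ^ a ∣ P - pfsum a n P := by
    refine prod_dvd_of_coprime ?_ fun j hj => dvd_sub_pfsum P hj
    intro i _ j _ hij
    refine IsCoprime.pow ?_
    have h := Polynomial.isCoprime_X_sub_C_of_isUnit_sub (R := ℚ) (a := -(i : ℚ)) (b := -(j : ℚ))
      (by
        rw [isUnit_iff_ne_zero]
        intro h0
        apply hij
        have : (i : ℚ) = j := by linarith
        exact_mod_cast this)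
    simpa using h
  have h2 : (∏ j ∈ range (n + 1), (Polynomial.X + Polynomial.C (j : ℚ)) ^ a).natDegree
      = a * (n + 1) := by
    rw [Polynomial.natDegree_prod_of_monic]
    · rw [sum_congr rfl (fun i _ => show ((Polynomial.X + Polynomial.C (i : ℚ)) ^ a).natDegree = a by
        rw [Polynomial.natDegree_pow, Polynomial.natDegree_X_add_C, mul_one])]
      simp [mul_comm]
    · intro i _; exact (Polynomial.monic_X_add_C _).pow _
  have h3 : (P - pfsum a n P).natDegree < a * (n + 1) := by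
    refine (Polynomial.natDegree_sub_le _ _).trans_lt ?_
    exact max_lt hP (degree_pfsum_lt ha P)
  have h4 : P - pfsum a n P = 0 := by
    by_contra h
    have := Polynomial.natDegree_le_of_dvd h1 h
    omega
  exact sub_eq_zero.1 h4

/-- the series of `P(t)/∏ (t+j)^a` at a regular point `x` -/
noncomputable def gser (a n : ℕ) (P : Polynomial ℚ) (x : ℚ) : ℚ⟦X⟧ :=
  atp x P * (∏ j ∈ range (n + 1), iv (x + j)) ^ a

theorem gser_eq {a n : ℕ} (ha : 0 < a) {P : Polynomial ℚ} (hP : P.natDegree < a * (n + 1)) {x : ℚ}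
    (hx : ∀ j ∈ range (n + 1), x + (j : ℚ) ≠ 0) :
    gser a n P x = ∑ j ∈ range (n + 1), ∑ e ∈ range a, C (cc a n P e j) * iv (x + j) ^ (e + 1) := by
  rw [gser]
  nth_rw 1 [eq_pfsum ha hP]
  rw [pfsum, map_sum, sum_mul]
  refine sum_congr rfl fun j hj => ?_
  rw [map_sum, sum_mul]
  refine sum_congr rfl fun e he => ?_
  have he' := mem_range.1 he
  rw [map_mul, map_mul, map_pow, map_pow, map_add, atp_C, atp_X, atp_C]
  rw [← mul_prod_erase _ _ hj, mul_pow]
  have h1 : atp x (Mj n j) * ∏ i ∈ (range (n + 1)).erase j, iv (x + (i : ℚ)) = 1 := by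
    rw [Mj, map_prod, ← prod_mul_distrib]
    refine prod_eq_one fun i hi => ?_
    rw [map_add, atp_X, atp_C]
    have : (C x + X + C (i : ℚ) : ℚ⟦X⟧) = C (x + i) + X := by rw [map_add]; ring
    rw [this, lin_mul_iv (hx i (mem_of_mem_erase hi))]
  have h2 : (C x + X + C (j : ℚ) : ℚ⟦X⟧) * iv (x + j) = 1 := by
    have : (C x + X + C (j : ℚ) : ℚ⟦X⟧) = C (x + j) + X := by rw [map_add]; ring
    rw [this, lin_mul_iv (hx j hj)]
  have h3 : a = (a - 1 - e) + (e + 1) := by omega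
  have h4 : (iv (x + (j : ℚ)) : ℚ⟦X⟧) ^ a = iv (x + j) ^ (a - 1 - e) * iv (x + j) ^ (e + 1) := by
    rw [← pow_add, ← h3]
  rw [h4]
  calc C (cc a n P e j) * (C x + X + C (j : ℚ)) ^ (a - 1 - e) * atp x (Mj n j) ^ a *
        (iv (x + j) ^ (a - 1 - e) * iv (x + j) ^ (e + 1) *
          (∏ i ∈ (range (n + 1)).erase j, iv (x + (i : ℚ))) ^ a)
      = C (cc a n P e j) * ((C x + X + C (j : ℚ)) * iv (x + j)) ^ (a - 1 - e) *
        (atp x (Mj n j) * ∏ i ∈ (range (n + 1)).erase j, iv (x + (i : ℚ))) ^ a *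
          iv (x + j) ^ (e + 1) := by rw [mul_pow, mul_pow]; ring
    _ = _ := by rw [h1, h2, one_pow, one_pow]; ring

theorem coeff_iv_pow {K : Type*} [Field K] {y : K} (e k : ℕ) :
    coeff k ((iv y : K⟦X⟧) ^ (e + 1)) = (-1) ^ k * ((e + k).choose e : K) / y ^ (e + 1 + k) := by
  have h : (iv y : K⟦X⟧) = C (1 / y) * rescale (-1 / y) (PowerSeries.mk 1) := by
    ext m
    rw [coeff_iv, coeff_C_mul, coeff_rescale, coeff_mk]
    simp only [Pi.one_apply, mul_one]
    rw [div_pow, pow_succ, div_mul_div_comm, one_mul, mul_comm (y ^ m) y]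
  rw [h, mul_pow, ← map_pow, ← map_pow, mk_one_pow_eq_mk_choose_add, coeff_C_mul,
    coeff_rescale, coeff_mk, div_pow, div_pow, pow_add y, one_pow]
  by_cases hy : y = 0
  · simp [hy]
  · field_simp
    ring

/-- The `(b-1)`-st Taylor coefficient of `P/∏(t+j)^a` at `x`. -/
noncomputable def gval (a b n : ℕ) (P : Polynomial ℚ) (x : ℚ) : ℚ := coeff (b - 1) (gser a n P x)

/-- contribution of the pole `-j` to `gval` -/
noncomputable def gj (a b n : ℕ) (P : Polynomial ℚ) (j : ℕ) (x : ℚ) : ℚ :=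
  ∑ e ∈ range a, cc a n P e j * ((-1) ^ (b - 1) * ((e + (b - 1)).choose e : ℚ) / (x + j) ^ (e + 1 + (b - 1)))

theorem gval_eq {a b n : ℕ} (ha : 0 < a) {P : Polynomial ℚ}
    (hP : P.natDegree < a * (n + 1)) {x : ℚ} (hx : ∀ j ∈ range (n + 1), x + (j : ℚ) ≠ 0) :
    gval a b n P x = ∑ j ∈ range (n + 1), gj a b n P j x := by
  rw [gval, gser_eq ha hP hx, map_sum]
  refine sum_congr rfl fun j _ => ?_
  rw [map_sum, gj]
  refine sum_congr rfl fun e _ => ?_
  rw [coeff_C_mul, coeff_iv_pow]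

theorem gval_eq_zero {a b n : ℕ} (hb : 0 < b) {P : Polynomial ℚ} {x : ℚ}
    (h : (Polynomial.X - Polynomial.C x) ^ b ∣ P) : gval a b n P x = 0 := by
  obtain ⟨f, hf⟩ := X_pow_dvd_atp_of_pow_dvd h
  rw [gval, gser, hf, mul_assoc]
  exact PowerSeries.X_pow_dvd_iff.1 (dvd_mul_right _ _) _ (by omega)

end Pool.Agent.Helper8
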