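import Pool.Agent.Helper8.NV7

/-! # The linear forms in zeta values -/

namespace Pool.Agent.Helper8

open Finset

/-- `∑ 1/(k+1)^s` -/
noncomputable def zt (s : ℕ) : ℝ := ∑' k : ℕ, 1 / ((k : ℝ) + 1) ^ s

theorem summable_zt {s : ℕ} (hs : 2 ≤ s) : Summable fun k : ℕ => 1 / ((k : ℝ) + 1) ^ s := by
  have h := (summable_nat_add_iff 1).2 (Real.summable_one_div_nat_pow.2 (show 1 < s by omega))
  simpa using h

theorem hasSum_zt_shift {s : ℕ} (hs : 2 ≤ s) (N : ℕ) :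
    HasSum (fun k : ℕ => 1 / ((k : ℝ) + 1 + N) ^ s)
      (zt s - ∑ q ∈ range N, 1 / ((q : ℝ) + 1) ^ s) := by
  have h := (hasSum_nat_add_iff' N).2 (summable_zt hs).hasSum
  refine h.congr_fun fun k => ?_
  push_cast; ring

/-- the sum over `t = (k+1)/d` -/
noncomputable def Sd (a b n : ℕ) (P : Polynomial ℚ) (d : ℕ) : ℝ :=
  ∑' k : ℕ, ((gval a b n P (((k + 1 : ℕ) : ℚ) / d) : ℚ) : ℝ)

theorem hasSum_gj {a b n : ℕ} (hb : 2 ≤ b) (P : Polynomial ℚ) {d : ℕ} (hd : 0 < d) (j : ℕ) :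
    HasSum (fun k : ℕ => ((gj a b n P j (((k + 1 : ℕ) : ℚ) / d) : ℚ) : ℝ))
      (∑ e ∈ range a, (cc a n P e j : ℝ) * ((-1) ^ (b - 1) * ((e + (b - 1)).choose e : ℝ)) *
        ((d : ℝ) ^ (e + b) * zt (e + b)) -
        ∑ q ∈ range (d * j), ((gj a b n P j (((q + 1 : ℕ) : ℚ) / d - j) : ℚ) : ℝ)) := by
  have h1 : ∀ e ∈ range a, HasSum (fun k : ℕ =>
      (cc a n P e j : ℝ) * ((-1) ^ (b - 1) * ((e + (b - 1)).choose e : ℝ)) * (d : ℝ) ^ (e + b) *
        (1 / ((k : ℝ) + 1 + (d * j : ℕ)) ^ (e + b)))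
      ((cc a n P e j : ℝ) * ((-1) ^ (b - 1) * ((e + (b - 1)).choose e : ℝ)) * (d : ℝ) ^ (e + b) *
        (zt (e + b) - ∑ q ∈ range (d * j), 1 / ((q : ℝ) + 1) ^ (e + b))) :=
    fun e _ => (hasSum_zt_shift (by omega) _).mul_left _
  have h2 := hasSum_sum h1
  have hd' : (d : ℝ) ≠ 0 := by exact_mod_cast hd.ne'
  have e1 : (fun k : ℕ => ((gj a b n P j (((k + 1 : ℕ) : ℚ) / d) : ℚ) : ℝ)) =
      fun k : ℕ => ∑ e ∈ range a,
      (cc a n P e j : ℝ) * ((-1) ^ (b - 1) * ((e + (b - 1)).choose e : ℝ)) * (d : ℝ) ^ (e + b) *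
        (1 / ((k : ℝ) + 1 + (d * j : ℕ)) ^ (e + b)) := by
    funext k
    rw [gj, Rat.cast_sum]
    refine sum_congr rfl fun e _ => ?_
    push_cast
    rw [show e + 1 + (b - 1) = e + b by omega]
    have h3 : ((k : ℝ) + 1) / d + j = ((k : ℝ) + 1 + d * j) / d := by field_simp
    rw [h3, div_pow]
    have h4 : ((k : ℝ) + 1 + d * j) ≠ 0 := by positivity
    field_simp
  have e2 : ∑ q ∈ range (d * j), ((gj a b n P j (((q + 1 : ℕ) : ℚ) / d - j) : ℚ) : ℝ) =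
      ∑ e ∈ range a, (cc a n P e j : ℝ) * ((-1) ^ (b - 1) * ((e + (b - 1)).choose e : ℝ)) *
        (d : ℝ) ^ (e + b) * ∑ q ∈ range (d * j), 1 / ((q : ℝ) + 1) ^ (e + b) := by
    simp only [gj, Rat.cast_sum]
    rw [sum_comm]
    refine sum_congr rfl fun e _ => ?_
    rw [mul_sum]
    refine sum_congr rfl fun q _ => ?_
    push_cast
    rw [show e + 1 + (b - 1) = e + b by omega, sub_add_cancel, div_pow]
    have h4 : ((q : ℝ) + 1) ≠ 0 := by positivity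
    field_simp
  rw [e1, e2, ← sum_sub_distrib]
  convert h2 using 1
  refine sum_congr rfl fun e _ => ?_
  ring

theorem hasSum_Sd {a b n : ℕ} (ha : 0 < a) (hb : 2 ≤ b) {P : Polynomial ℚ}
    (hP : P.natDegree < a * (n + 1)) {d : ℕ} (hd : 0 < d) :
    HasSum (fun k : ℕ => ((gval a b n P (((k + 1 : ℕ) : ℚ) / d) : ℚ) : ℝ))
      (∑ e ∈ range a, (rho a b n P e : ℝ) * ((d : ℝ) ^ (e + b) * zt (e + b)) +
        (rho0 a b n P d : ℝ)) := by
  have h1 := hasSum_sum (s := range (n + 1)) fun j _ => hasSum_gj (a := a) (n := n) hb P hd j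
  have e1 : (fun k : ℕ => ((gval a b n P (((k + 1 : ℕ) : ℚ) / d) : ℚ) : ℝ)) =
      fun k : ℕ => ∑ j ∈ range (n + 1), ((gj a b n P j (((k + 1 : ℕ) : ℚ) / d) : ℚ) : ℝ) := by
    funext k
    rw [gval_eq ha hP, Rat.cast_sum]
    intro j _
    have : (0 : ℚ) < ((k + 1 : ℕ) : ℚ) / d := by positivity
    positivity
  rw [e1]
  convert h1 using 1
  rw [sum_sub_distrib, sub_eq_add_neg]
  congr 1
  · rw [sum_comm]
    refine sum_congr rfl fun e _ => ?_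
    rw [rho, ← sum_mul, ← sum_mul]
    push_cast; ring
  · rw [rho0]; push_cast; rfl

theorem Sd_eq {a b n : ℕ} (ha : 0 < a) (hb : 2 ≤ b) {P : Polynomial ℚ}
    (hP : P.natDegree < a * (n + 1)) {d : ℕ} (hd : 0 < d) :
    Sd a b n P d = ∑ e ∈ range a, (rho a b n P e : ℝ) * ((d : ℝ) ^ (e + b) * zt (e + b)) +
        (rho0 a b n P d : ℝ) := (hasSum_Sd ha hb hP hd).tsum_eq

theorem zt_two_le : zt 2 ≤ 2 := by
  have h : zt 2 = Real.pi ^ 2 / 6 := by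
    have h1 := hasSum_zeta_two
    have h2 := (hasSum_nat_add_iff' 1).2 h1
    simp only [range_one, sum_singleton] at h2
    rw [zt]
    have h3 := h2.tsum_eq
    simpa using h3
  rw [h]
  have := Real.pi_lt_d2
  have h0 := Real.pi_pos
  nlinarith

/-- upper bound for `Sd` from a pointwise bound -/
theorem abs_Sd_le {a b n : ℕ} {P : Polynomial ℚ} {d : ℕ} (hd : 0 < d) {U : ℝ} (hU : 0 ≤ U)
    (h : ∀ k : ℕ, |((gval a b n P (((k + 1 : ℕ) : ℚ) / d) : ℚ) : ℝ)| ≤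
      U / (((k : ℝ) + 1) / d) ^ 2) : |Sd a b n P d| ≤ 2 * U * d ^ 2 := by
  have hs : HasSum (fun k : ℕ => U * d ^ 2 * (1 / ((k : ℝ) + 1) ^ 2)) (U * d ^ 2 * zt 2) :=
    (summable_zt le_rfl).hasSum.mul_left _
  have hle : ∀ k : ℕ, |((gval a b n P (((k + 1 : ℕ) : ℚ) / d) : ℚ) : ℝ)| ≤
      U * d ^ 2 * (1 / ((k : ℝ) + 1) ^ 2) := by
    intro k
    refine (h k).trans (le_of_eq ?_)
    have hd' : (d : ℝ) ≠ 0 := by exact_mod_cast hd.ne'
    have : ((k : ℝ) + 1) ≠ 0 := by positivity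
    field_simp
  have hsum : Summable fun k : ℕ => |((gval a b n P (((k + 1 : ℕ) : ℚ) / d) : ℚ) : ℝ)| :=
    Summable.of_nonneg_of_le (fun _ => abs_nonneg _) hle hs.summable
  have h1 : |Sd a b n P d| ≤ ∑' k : ℕ, |((gval a b n P (((k + 1 : ℕ) : ℚ) / d) : ℚ) : ℝ)| := by
    have hf : Summable fun k : ℕ => ‖((gval a b n P (((k + 1 : ℕ) : ℚ) / d) : ℚ) : ℝ)‖ := by
      simp only [Real.norm_eq_abs]
      exact hsum
    have := norm_tsum_le_tsum_norm hf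
    simp only [Real.norm_eq_abs] at this
    exact this
  have h2 := hsum.tsum_le_tsum hle hs.summable
  rw [hs.tsum_eq] at h2
  have h3 : U * d ^ 2 * zt 2 ≤ U * d ^ 2 * 2 := mul_le_mul_of_nonneg_left zt_two_le (by positivity)
  linarith

end Pool.Agent.Helper8
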