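import Pool.Agent.Helper8.Ana1

/-! # Majorants for the size of the coefficients -/

namespace Pool.Agent.Helper8

open Finset PowerSeries

/-- the geometric series `1/(1 - m X)` -/
noncomputable def gI (m : ℕ) : ℚ⟦X⟧ := PowerSeries.mk fun k => (m : ℚ) ^ k

theorem coeff_gI (m k : ℕ) : coeff k (gI m) = (m : ℚ) ^ k := by rw [gI, coeff_mk]

theorem coeff_gI_pow_nonneg (m N k : ℕ) : 0 ≤ coeff k (gI m ^ N) := by
  induction N generalizing k with
  | zero => rw [pow_zero, coeff_one]; split_ifs <;> norm_num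
  | succ N ih =>
    rw [pow_succ, coeff_mul]
    refine sum_nonneg fun p _ => mul_nonneg (ih _) ?_
    rw [coeff_gI]; positivity

theorem coeff_gI_pow_le (m N k : ℕ) : coeff k (gI m ^ N) ≤ ((m : ℚ) * (N + k)) ^ k := by
  have h : gI m = rescale (m : ℚ) (PowerSeries.mk 1) := by
    ext j; rw [coeff_gI, coeff_rescale, coeff_mk]; simp
  rcases N with _ | N
  · rw [pow_zero, coeff_one]
    rcases k with _ | k
    · simp
    · rw [if_neg (by omega)]; positivity
  · rw [h, ← map_pow, coeff_rescale, mk_one_pow_eq_mk_choose_add, coeff_mk, mul_pow]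
    refine mul_le_mul_of_nonneg_left ?_ (by positivity)
    have h1 : (N + k).choose N ≤ (N + k) ^ k := by
      rw [Nat.choose_symm_add]
      exact Nat.choose_le_pow _ _
    have h2 : (((N + k).choose N : ℕ) : ℚ) ≤ ((N + k : ℕ) : ℚ) ^ k := by exact_mod_cast h1
    refine h2.trans ?_
    refine pow_le_pow_left₀ (by positivity) ?_ _
    push_cast; linarith

/-- `f` is bounded coefficientwise by `c/(1 - mX)^N`. -/
def MB (m : ℕ) (c : ℚ) (N : ℕ) (f : ℚ⟦X⟧) : Prop := ∀ k, |coeff k f| ≤ c * coeff k (gI m ^ N)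

theorem MB.coeff_le {m N : ℕ} {c : ℚ} {f : ℚ⟦X⟧} (h : MB m c N f) (hc : 0 ≤ c) (k : ℕ) :
    |coeff k f| ≤ c * ((m : ℚ) * (N + k)) ^ k :=
  (h k).trans (mul_le_mul_of_nonneg_left (coeff_gI_pow_le m N k) hc)

theorem MB.mul {m N N' : ℕ} {c c' : ℚ} {f g : ℚ⟦X⟧} (hc : 0 ≤ c) (h : MB m c N f)
    (h' : MB m c' N' g) : MB m (c * c') (N + N') (f * g) := by
  intro k
  rw [coeff_mul, pow_add, coeff_mul, mul_sum]
  refine (abs_sum_le_sum_abs _ _).trans (sum_le_sum fun p _ => ?_)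
  rw [abs_mul]
  calc |coeff p.1 f| * |coeff p.2 g| ≤ (c * coeff p.1 (gI m ^ N)) * (c' * coeff p.2 (gI m ^ N')) :=
        mul_le_mul (h _) (h' _) (abs_nonneg _) (mul_nonneg hc (coeff_gI_pow_nonneg _ _ _))
    _ = _ := by ring

theorem MB.one (m : ℕ) : MB m 1 0 1 := by
  intro k
  rw [pow_zero, one_mul, coeff_one]
  split_ifs <;> simp

theorem MB.mono {m N : ℕ} {c c' : ℚ} {f : ℚ⟦X⟧} (h : MB m c N f) (hc : c ≤ c') :
    MB m c' N f := fun k =>
  (h k).trans (mul_le_mul_of_nonneg_right hc (coeff_gI_pow_nonneg _ _ _))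

theorem MB.const (m : ℕ) {c c' : ℚ} (h : |c| ≤ c') : MB m c' 0 (C c) := by
  intro k
  rw [pow_zero, coeff_C, coeff_one]
  split_ifs
  · simpa using h
  · simp

theorem MB.prod {ι : Type*} {m : ℕ} (s : Finset ι) {c : ι → ℚ} {N : ι → ℕ} {f : ι → ℚ⟦X⟧}
    (hc : ∀ i ∈ s, 0 ≤ c i) (h : ∀ i ∈ s, MB m (c i) (N i) (f i)) :
    MB m (∏ i ∈ s, c i) (∑ i ∈ s, N i) (∏ i ∈ s, f i) := by
  classical
  induction s using Finset.induction_on with
  | empty => simpa using MB.one m
  | insert i s hi ih =>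
    rw [prod_insert hi, sum_insert hi, prod_insert hi]
    exact MB.mul (hc i (mem_insert_self _ _)) (h i (mem_insert_self _ _))
      (ih (fun j hj => hc j (mem_insert_of_mem hj)) fun j hj => h j (mem_insert_of_mem hj))

theorem MB.prod_const {ι : Type*} {m N : ℕ} (s : Finset ι) {c : ℚ} {f : ι → ℚ⟦X⟧}
    (hc : 0 ≤ c) (h : ∀ i ∈ s, MB m c N (f i)) :
    MB m (c ^ s.card) (N * s.card) (∏ i ∈ s, f i) := by
  have := MB.prod s (c := fun _ => c) (N := fun _ => N) (fun _ _ => hc) h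
  rw [Finset.prod_const, sum_const, smul_eq_mul, mul_comm] at this
  exact this

theorem MB.pow {m N : ℕ} {c : ℚ} {f : ℚ⟦X⟧} (hc : 0 ≤ c) (h : MB m c N f) (k : ℕ) :
    MB m (c ^ k) (N * k) (f ^ k) := by
  have := MB.prod_const (range k) hc fun _ _ => h
  rwa [card_range, Finset.prod_const, card_range] at this

theorem MB.lin {m : ℕ} {y u Y : ℚ} (h : |y| ≤ Y) (h' : |u| ≤ Y * m) :
    MB m Y 1 (C y + C u * X) := by
  intro k
  rw [pow_one, coeff_gI, map_add, coeff_C, coeff_C_mul, coeff_X]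
  rcases k with _ | k
  · simpa using h
  · rcases k with _ | k
    · simpa using h'
    · have : 0 ≤ Y := (abs_nonneg _).trans h
      simp only [Nat.add_eq_zero_iff, one_ne_zero, and_false, if_false]
      rw [if_neg (by omega)]
      simp
      positivity

theorem MB.lin1 {m : ℕ} {y Y : ℚ} (h : |y| ≤ Y) (h' : 1 ≤ Y * m) :
    MB m Y 1 (C y + X) := by
  have := MB.lin (m := m) (u := 1) h (by rwa [abs_one])
  rwa [map_one, one_mul] at this

theorem MB.iv {m : ℕ} {y : ℚ} (h : 1 ≤ |y| * m) : MB m (1 / |y|) 1 (iv y) := by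
  intro k
  have hy : 0 < |y| := by
    rcases (abs_nonneg y).eq_or_lt with h0 | h0
    · rw [← h0] at h; norm_num at h
    · exact h0
  rw [pow_one, coeff_gI, coeff_iv, abs_div, abs_pow, abs_neg, abs_one, one_pow, abs_pow, pow_succ]
  rw [div_le_iff₀ (by positivity)]
  have h1 : 1 ≤ (|y| * m) ^ k := one_le_pow₀ h
  calc (1 : ℚ) ≤ (|y| * m) ^ k := h1
    _ = _ := by rw [mul_pow]; field_simp

theorem MB.bin {m n : ℕ} {y Y : ℚ} (hY : 1 ≤ Y * m) (h : ∀ k < n, |y - k| ≤ Y) :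
    MB m (Y ^ n / n.factorial) n (bin y n) := by
  have hY0 : 0 ≤ Y := by
    by_contra hneg
    rw [not_le] at hneg
    have : Y * m ≤ 0 := mul_nonpos_of_nonpos_of_nonneg hneg.le (by positivity)
    linarith
  have h1 : MB m (Y ^ n) n (∏ k ∈ range n, (C (y - k) + X)) := by
    have := MB.prod_const (m := m) (N := 1) (range n) hY0
      (f := fun k : ℕ => C (y - k) + X) fun k hk => MB.lin1 (h k (mem_range.1 hk)) hY
    rwa [card_range, one_mul] at this
  have h2 : MB m (1 / (n.factorial : ℚ)) 0 (C (1 / (n.factorial : ℚ))) :=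
    MB.const m (by rw [abs_of_nonneg (by positivity)])
  have h3 := MB.mul (by positivity) h2 h1
  rw [zero_add] at h3
  rw [Pool.Agent.Helper8.bin]
  convert h3 using 1
  ring

/-- common bound for the linear factors -/
theorem abs_shift_le {x c Y N : ℚ} (hx : |x| + N ≤ Y) (h1 : c ≤ N) (h2 : -N ≤ c) :
    |x + c| ≤ Y := by
  have h3 : |c| ≤ N := abs_le.2 ⟨h2, h1⟩
  exact (abs_add_le _ _).trans (by linarith)

theorem MB_base {m r n : ℕ} {T : Finset ℚ} {x Y : ℚ} (hT : ∀ θ ∈ T, 0 < θ ∧ θ < 1)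
    (hm : ∀ θ ∈ T, θ.den ≤ m) (hY : 1 ≤ Y * m) (hr : 1 ≤ r)
    (hx : |x| + (r + 1) * n ≤ Y) :
    MB m ((Y ^ n / n.factorial) ^ (2 * r + T.card * (2 * r + 1)) *
      ((m : ℚ) ^ (2 * n)) ^ (T.card * (2 * r + 1))) (n * (2 * r + T.card * (2 * r + 1)))
      (atp x (base r n T)) := by
  have hY0 : 0 ≤ Y := by
    have : (0 : ℚ) ≤ (r + 1) * n := by positivity
    have := abs_nonneg x
    linarith
  have hn0 : (0 : ℚ) ≤ n := by positivity
  have hr1 : (1 : ℚ) ≤ r := by exact_mod_cast hr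
  set B := Y ^ n / (n.factorial : ℚ) with hB
  have hB0 : 0 ≤ B := by positivity
  have h1 : MB m ((B * B) ^ r) ((n + n) * r)
      (∏ l ∈ range r, (bin (x + (-1 - l * n)) n * bin (x + ((l + 2) * n)) n)) := by
    have := MB.prod_const (m := m) (N := n + n) (range r) (c := B * B) (by positivity)
      (f := fun l : ℕ => bin (x + (-1 - l * n)) n * bin (x + ((l + 2) * n)) n) fun l hl => ?_
    · rwa [card_range] at this
    · have hl' := mem_range.1 hl
      have hlr : (l : ℚ) + 1 ≤ r := by exact_mod_cast hl'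
      have hl0 : (0 : ℚ) ≤ l := by positivity
      have hln : ((l : ℚ) + 1) * n ≤ r * n := mul_le_mul_of_nonneg_right hlr hn0
      have hln0 : (0 : ℚ) ≤ (l : ℚ) * n := by positivity
      refine MB.mul hB0 (MB.bin hY fun k hk => ?_) (MB.bin hY fun k hk => ?_)
      · have hkn : (k : ℚ) + 1 ≤ n := by exact_mod_cast hk
        have hk0 : (0 : ℚ) ≤ k := by positivity
        rw [add_sub_assoc]
        refine abs_shift_le hx ?_ ?_ <;> nlinarith
      · have hkn : (k : ℚ) + 1 ≤ n := by exact_mod_cast hk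
        have hk0 : (0 : ℚ) ≤ k := by positivity
        rw [add_sub_assoc]
        refine abs_shift_le hx ?_ ?_ <;> nlinarith
  have h2 : MB m (((((m : ℚ) ^ (2 * n)) * B) ^ (2 * r + 1)) ^ T.card) (((0 + n) * (2 * r + 1)) * T.card)
      (∏ θ ∈ T, ∏ l ∈ range (2 * r + 1),
        (C ((θ.den : ℚ) ^ (2 * n)) * bin (x + (((r : ℚ) + 1 - l) * n - θ)) n)) := by
    refine MB.prod_const T (by positivity) fun θ hθ => ?_
    have := MB.prod_const (m := m) (N := 0 + n) (range (2 * r + 1)) (c := ((m : ℚ) ^ (2 * n)) * B)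
      (by positivity) (f := fun l : ℕ => C ((θ.den : ℚ) ^ (2 * n)) *
        bin (x + (((r : ℚ) + 1 - l) * n - θ)) n) fun l hl => ?_
    · rwa [card_range] at this
    · have hl' := mem_range.1 hl
      have hlr : (l : ℚ) ≤ 2 * r := by exact_mod_cast (by omega : l ≤ 2 * r)
      have hl0 : (0 : ℚ) ≤ l := by positivity
      have hln : (l : ℚ) * n ≤ (2 * r) * n := mul_le_mul_of_nonneg_right hlr hn0
      have hln0 : (0 : ℚ) ≤ (l : ℚ) * n := by positivity
      obtain ⟨hθ0, hθ1⟩ := hT θ hθ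
      refine MB.mul (by positivity) (MB.const m ?_) (MB.bin hY fun k hk => ?_)
      · rw [abs_of_nonneg (by positivity)]
        exact pow_le_pow_left₀ (by positivity) (by exact_mod_cast hm θ hθ) _
      · have hkn : (k : ℚ) + 1 ≤ n := by exact_mod_cast hk
        have hk0 : (0 : ℚ) ≤ k := by positivity
        rw [add_sub_assoc]
        refine abs_shift_le hx ?_ ?_ <;> nlinarith
  have h3 := MB.mul (by positivity) h1 h2
  have h4 : atp x (base r n T) =
      (∏ l ∈ range r, (bin (x + (-1 - l * n)) n * bin (x + ((l + 2) * n)) n)) *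
      (∏ θ ∈ T, ∏ l ∈ range (2 * r + 1),
        (C ((θ.den : ℚ) ^ (2 * n)) * bin (x + (((r : ℚ) + 1 - l) * n - θ)) n)) := by
    rw [base, map_mul, map_prod, map_prod]
    congr 1
    · refine prod_congr rfl fun l _ => ?_
      rw [map_mul, atp_blk, atp_blk]
    · refine prod_congr rfl fun θ _ => ?_
      rw [map_prod]
      refine prod_congr rfl fun l _ => ?_
      rw [map_mul, atp_C, atp_blk]
  rw [h4]
  convert h3 using 1
  · generalize (m : ℚ) ^ (2 * n) = M
    generalize 2 * r + 1 = L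
    rw [mul_pow M B L, mul_pow (M ^ L) (B ^ L), ← pow_mul, ← pow_mul, pow_add, mul_comm L T.card,
      ← pow_two, ← pow_mul]
    ring
  · ring

theorem atp_UU (x : ℚ) (n : ℕ) : atp x (UU n) = C (2 * x + n) + C 2 * X := by
  rw [UU, map_add, map_mul, atp_C, atp_X, atp_C, map_add, map_mul]; ring

theorem MB_PP {m r n a b i : ℕ} {T : Finset ℚ} {x Y Y' : ℚ} (hT : ∀ θ ∈ T, 0 < θ ∧ θ < 1)
    (hm : ∀ θ ∈ T, θ.den ≤ m) (hY : 1 ≤ Y * m) (hr : 1 ≤ r)
    (hx : |x| + (r + 1) * n ≤ Y) (hY' : |2 * x + n| ≤ Y') (hY'' : 2 ≤ Y' * m) :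
    MB m ((n.factorial : ℚ) ^ a * ((Y ^ n / n.factorial) ^ (2 * r + T.card * (2 * r + 1)) *
      ((m : ℚ) ^ (2 * n)) ^ (T.card * (2 * r + 1))) ^ b * Y' ^ i)
      (n * (2 * r + T.card * (2 * r + 1)) * b + i)
      (atp x (PP a b r n T * UU n ^ i)) := by
  have hY0 : 0 ≤ Y := by
    have : (0 : ℚ) ≤ (r + 1) * n := by positivity
    have := abs_nonneg x
    linarith
  have hY0' : 0 ≤ Y' := (abs_nonneg _).trans hY'
  have h0 : atp x (PP a b r n T * UU n ^ i) = C ((n.factorial : ℚ) ^ a) *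
      atp x (base r n T) ^ b * (C (2 * x + n) + C 2 * X) ^ i := by
    rw [PP, num, map_mul, map_mul, atp_C, map_pow (atp x) (base r n T), map_pow (atp x) (UU n),
      atp_UU]
  rw [h0]
  have h1 := MB.pow (by positivity) (MB_base hT hm hY hr hx) b
  have h2 := MB.pow hY0' (MB.lin (m := m) (u := 2) hY' (by rw [abs_of_nonneg (by norm_num)]; exact hY'')) i
  have h3 : MB m ((n.factorial : ℚ) ^ a) 0 (C ((n.factorial : ℚ) ^ a)) :=
    MB.const m (by rw [abs_of_nonneg (by positivity)])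
  have h4 := MB.mul (by positivity) (MB.mul (by positivity) h3 h1) h2
  convert h4 using 1
  ring

end Pool.Agent.Helper8
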