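import Pool.Agent.Helper8.Ana2

/-! # Size of the values and of the coefficients -/

namespace Pool.Agent.Helper8

open Finset PowerSeries

/-- total exponent of the blocks -/
def EE (r t : ℕ) : ℕ := 2 * r + t * (2 * r + 1)

theorem MB_prod_iv {m n : ℕ} {x : ℚ} (hx : 0 < x) (hxm : 1 ≤ x * m) :
    MB m (1 / x ^ (n + 1)) (n + 1) (∏ j ∈ range (n + 1), iv (x + j)) := by
  have h := MB.prod_const (m := m) (N := 1) (range (n + 1)) (c := 1 / x) (by positivity)
    (f := fun j : ℕ => iv (x + j)) fun j _ => ?_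
  · rw [card_range, one_mul] at h
    rw [one_div_pow] at h
    exact h
  · have hj : (0 : ℚ) ≤ j := by positivity
    have h1 : |x + (j : ℚ)| = x + j := abs_of_nonneg (by linarith)
    refine MB.mono (MB.iv ?_) ?_
    · rw [h1]
      have hm0 : (0 : ℚ) ≤ m := by positivity
      nlinarith [mul_nonneg hj hm0]
    · rw [h1]
      exact one_div_le_one_div_of_le hx (by linarith)

theorem MB_gser {m r n a b i : ℕ} {T : Finset ℚ} {x : ℚ} (hT : ∀ θ ∈ T, 0 < θ ∧ θ < 1)
    (hm : ∀ θ ∈ T, θ.den ≤ m) (hm0 : 1 ≤ m) (hr : 1 ≤ r) (hn : 1 ≤ n) (hx : (r : ℚ) * n ≤ x) :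
    MB m ((n.factorial : ℚ) ^ a * (((3 * x) ^ n / n.factorial) ^ EE r T.card *
      ((m : ℚ) ^ (2 * n)) ^ (T.card * (2 * r + 1))) ^ b * (3 * x) ^ i * (1 / x ^ (n + 1)) ^ a)
      (n * EE r T.card * b + i + (n + 1) * a)
      (gser a n (PP a b r n T * UU n ^ i) x) := by
  have hr1 : (1 : ℚ) ≤ r := by exact_mod_cast hr
  have hn1 : (1 : ℚ) ≤ n := by exact_mod_cast hn
  have hm1 : (1 : ℚ) ≤ m := by exact_mod_cast hm0
  have hnx : (n : ℚ) ≤ x := by nlinarith
  have hx0 : 0 < x := by linarith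
  have hxm : 1 ≤ x * m := by nlinarith
  have h1 := MB_PP (m := m) (r := r) (n := n) (a := a) (b := b) (i := i) (T := T) (x := x)
    (Y := 3 * x) (Y' := 3 * x) hT hm (by nlinarith) hr
    (by rw [abs_of_pos hx0]; nlinarith) (by rw [abs_of_pos (by linarith)]; linarith) (by nlinarith)
  have h2 := MB.pow (by positivity) (MB_prod_iv (n := n) hx0 hxm) a
  exact MB.mul (by positivity) h1 h2

theorem pow_le_three_pow_mul_factorial (n : ℕ) : (n : ℚ) ^ n ≤ 3 ^ n * n.factorial := by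
  have h1 := Real.pow_div_factorial_le_exp (n : ℝ) (by positivity) n
  have h2 : Real.exp (n : ℝ) ≤ 3 ^ n := by
    have h3 : Real.exp (n : ℝ) = Real.exp 1 ^ n := by
      rw [← Real.exp_nat_mul, mul_one]
    rw [h3]
    exact pow_le_pow_left₀ (Real.exp_pos _).le (by have := Real.exp_one_lt_d9; linarith) _
  have h4 : (n : ℝ) ^ n / n.factorial ≤ 3 ^ n := h1.trans h2
  have h5 : (0 : ℝ) < n.factorial := by positivity
  rw [div_le_iff₀ h5] at h4
  exact_mod_cast h4

theorem MB_cser {m r n a b i j : ℕ} {T : Finset ℚ} (hT : ∀ θ ∈ T, 0 < θ ∧ θ < 1)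
    (hm : ∀ θ ∈ T, θ.den ≤ m) (hm0 : 1 ≤ m) (hr : 1 ≤ r) (hn : 1 ≤ n) (hj : j ≤ n) :
    MB m (((2 : ℚ) ^ n) ^ a * (((3 * ((r : ℚ) + 2)) ^ n) ^ EE r T.card *
      ((m : ℚ) ^ (2 * n)) ^ (T.card * (2 * r + 1))) ^ b * (2 * n) ^ i)
      (n * EE r T.card * b + i + n * a) (cser a n (PP a b r n T * UU n ^ i) j) := by
  have hr1 : (1 : ℚ) ≤ r := by exact_mod_cast hr
  have hn1 : (1 : ℚ) ≤ n := by exact_mod_cast hn
  have hm1 : (1 : ℚ) ≤ m := by exact_mod_cast hm0
  have hjn : (j : ℚ) ≤ n := by exact_mod_cast hj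
  have hj0 : (0 : ℚ) ≤ j := by positivity
  have h1 := MB_PP (m := m) (r := r) (n := n) (a := a) (b := b) (i := i) (T := T) (x := -(j : ℚ))
    (Y := (r + 2) * n) (Y' := 2 * n) hT hm (by nlinarith [mul_pos (by linarith : (0:ℚ) < r + 2) (by linarith : (0:ℚ) < n)]) hr
    (by rw [abs_neg, abs_of_nonneg hj0]; linarith)
    (by rw [abs_le]; constructor <;> linarith) (by nlinarith)
  have h2 : MB m (1 / ((j.factorial : ℚ) * (n - j).factorial)) n (ivp n j) := by
    have h3 := MB.prod (m := m) ((range (n + 1)).erase j) (c := fun j' : ℕ => 1 / |(j' : ℚ) - j|)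
      (N := fun _ => 1) (f := fun j' : ℕ => iv ((j' : ℚ) - j)) (fun _ _ => by positivity)
      fun j' hj' => MB.iv ?_
    · have h4 : ∏ j' ∈ (range (n + 1)).erase j, 1 / |(j' : ℚ) - j| =
          1 / ((j.factorial : ℚ) * (n - j).factorial) := by
        rw [prod_div_distrib, prod_const_one, ← abs_prod, prod_erase_sub hj, abs_mul, abs_mul,
          abs_pow, abs_neg, abs_one, one_pow, one_mul]
        rw [abs_of_nonneg (by positivity), abs_of_nonneg (by positivity)]
      rw [h4, sum_const, card_erase_of_mem (mem_range.2 (by omega)), card_range] at h3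
      rw [ivp]; simpa using h3
    · rw [mem_erase] at hj'
      have h5 : (1 : ℚ) ≤ |(j' : ℚ) - j| := by
        have : ((j' : ℤ) - j) ≠ 0 := sub_ne_zero.2 (by exact_mod_cast hj'.1)
        have := Int.one_le_abs this
        exact_mod_cast this
      nlinarith
  have h3 := MB.mul (by positivity) h1 (MB.pow (by positivity) h2 a)
  refine MB.mono h3 ?_
  have h6 : (n.factorial : ℚ) * (1 / ((j.factorial : ℚ) * (n - j).factorial)) ≤ 2 ^ n := by
    have h7 : (n.factorial : ℚ) * (1 / ((j.factorial : ℚ) * (n - j).factorial)) = (n.choose j : ℚ) := by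
      rw [Nat.cast_choose ℚ hj]; ring
    rw [h7]
    exact_mod_cast Nat.choose_le_two_pow n j
  have h8 : (((r : ℚ) + 2) * n) ^ n / n.factorial ≤ (3 * ((r : ℚ) + 2)) ^ n := by
    have h9 : (0 : ℚ) < n.factorial := by positivity
    rw [div_le_iff₀ h9, mul_pow, mul_pow]
    have := pow_le_three_pow_mul_factorial n
    have h10 : (0 : ℚ) ≤ ((r : ℚ) + 2) ^ n := by positivity
    nlinarith [mul_le_mul_of_nonneg_left this h10]
  calc (n.factorial : ℚ) ^ a * (((((r : ℚ) + 2) * n) ^ n / n.factorial) ^ (2 * r + T.card * (2 * r + 1)) *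
      ((m : ℚ) ^ (2 * n)) ^ (T.card * (2 * r + 1))) ^ b * (2 * n) ^ i *
        (1 / ((j.factorial : ℚ) * (n - j).factorial)) ^ a
      = ((n.factorial : ℚ) * (1 / ((j.factorial : ℚ) * (n - j).factorial))) ^ a *
        (((((r : ℚ) + 2) * n) ^ n / n.factorial) ^ (2 * r + T.card * (2 * r + 1)) *
      ((m : ℚ) ^ (2 * n)) ^ (T.card * (2 * r + 1))) ^ b * (2 * n) ^ i := by rw [mul_pow]; ring
    _ ≤ _ := by
      rw [EE]
      gcongr

end Pool.Agent.Helper8
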