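import Pool.Agent.Helper8.Ana3

/-! # Final bounds for fixed parameters -/

namespace Pool.Agent.Helper8

open Finset PowerSeries

theorem size_aux {fac X r n : ℚ} {A i s : ℕ} (hfac : 0 ≤ fac)
    (hr : 1 ≤ r) (hn : 1 ≤ n) {N : ℕ} (hfacn : fac ≤ n ^ N) (hX : r * n ≤ X)
    (hi : i + 2 ≤ A * N) :
    fac ^ A * X ^ i * r ^ (A * N) * X ^ 2 ≤ (r * n) ^ (i + 2) * (X ^ (A * N) * X ^ s) := by
  have hrn : 1 ≤ r * n := by nlinarith
  have hX1 : 1 ≤ X := hrn.trans hX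
  have h1 : fac ^ A ≤ n ^ (A * N) := by
    rw [mul_comm A N, pow_mul]; exact pow_le_pow_left₀ hfac hfacn A
  have h2 : fac ^ A * r ^ (A * N) ≤ (r * n) ^ (A * N) := by
    rw [mul_pow, mul_comm (r ^ (A * N))]
    exact mul_le_mul_of_nonneg_right h1 (by positivity)
  have h3 : (r * n) ^ (A * N) ≤ (r * n) ^ (i + 2) * X ^ (A * N - (i + 2)) := by
    calc (r * n) ^ (A * N) = (r * n) ^ (i + 2) * (r * n) ^ (A * N - (i + 2)) := by
          rw [← pow_add]; congr 1; omega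
      _ ≤ _ := mul_le_mul_of_nonneg_left (pow_le_pow_left₀ (by linarith) hX _) (by positivity)
  have h4 : X ^ (A * N - (i + 2)) * X ^ (i + 2) = X ^ (A * N) := by
    rw [← pow_add]; congr 1; omega
  have h5 : (1 : ℚ) ≤ X ^ s := one_le_pow₀ hX1
  calc fac ^ A * X ^ i * r ^ (A * N) * X ^ 2 = (fac ^ A * r ^ (A * N)) * X ^ (i + 2) := by
        rw [pow_add]; ring
    _ ≤ ((r * n) ^ (i + 2) * X ^ (A * N - (i + 2))) * X ^ (i + 2) :=
        mul_le_mul_of_nonneg_right (h2.trans h3) (by positivity)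
    _ = (r * n) ^ (i + 2) * X ^ (A * N) := by rw [mul_assoc, h4]
    _ ≤ (r * n) ^ (i + 2) * X ^ (A * N) * X ^ s := le_mul_of_one_le_right (by positivity) h5
    _ = _ := by ring

theorem c_bound {x : ℚ} {r n A b E m t i : ℕ} (hr : 1 ≤ r) (hn : 1 ≤ n)
    (hx : (r : ℚ) * n ≤ x) (hi : i + 2 ≤ A * n) :
    (n.factorial : ℚ) ^ (A + b * E) * (((3 * x) ^ n / n.factorial) ^ E *
      ((m : ℚ) ^ (2 * n)) ^ t) ^ b * (3 * x) ^ i * (1 / x ^ (n + 1)) ^ (A + b * E) ≤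
    (3 ^ (b * E) * (m : ℚ) ^ (2 * t * b) / (r : ℚ) ^ A) ^ n * (((r : ℚ) * n) ^ (i + 2) * 3 ^ i) / x ^ 2 := by
  have hr1 : (1 : ℚ) ≤ r := by exact_mod_cast hr
  have hn1 : (1 : ℚ) ≤ n := by exact_mod_cast hn
  have hrn : (1 : ℚ) ≤ r * n := by nlinarith
  have hx0 : 0 < x := by linarith
  have hf : (0 : ℚ) < n.factorial := by positivity
  have key := size_aux (fac := n.factorial) (X := x) (r := r) (n := n) (A := A) (i := i) (N := n)
    (s := A + b * E) hf.le hr1 hn1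
    (by exact_mod_cast Nat.factorial_le_pow n) hx hi
  set M : ℚ := 3 ^ (b * E * n) * (m : ℚ) ^ (2 * n * t * b) * 3 ^ i with hM
  have hM0 : 0 ≤ M := by positivity
  have hL : (n.factorial : ℚ) ^ (A + b * E) * (((3 * x) ^ n / n.factorial) ^ E *
      ((m : ℚ) ^ (2 * n)) ^ t) ^ b * (3 * x) ^ i * (1 / x ^ (n + 1)) ^ (A + b * E) =
      M * ((n.factorial : ℚ) ^ A * x ^ i / (x ^ (A * n) * x ^ (A + b * E))) := by
    have e1 : (x ^ (n + 1)) ^ (A + b * E) = x ^ (A * n) * x ^ (b * E * n) * x ^ (A + b * E) := by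
      rw [← pow_mul, ← pow_add, ← pow_add]; congr 1; ring
    have e2 : (((3 * x) ^ n / (n.factorial : ℚ)) ^ E * ((m : ℚ) ^ (2 * n)) ^ t) ^ b =
        3 ^ (b * E * n) * x ^ (b * E * n) / (n.factorial : ℚ) ^ (b * E) *
          (m : ℚ) ^ (2 * n * t * b) := by
      rw [mul_pow, div_pow, div_pow, ← pow_mul, ← pow_mul, ← pow_mul, ← pow_mul, ← pow_mul, mul_pow,
        mul_comm E b, show n * (b * E) = b * E * n by ring,
        show 2 * n * (t * b) = 2 * n * t * b by ring]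
    rw [one_div_pow, e1, e2, hM, mul_pow 3 x i, pow_add (n.factorial : ℚ)]
    have hxp : x ^ (b * E * n) ≠ 0 := by positivity
    have hfp : (n.factorial : ℚ) ^ (b * E) ≠ 0 := by positivity
    field_simp
  have hR : (3 ^ (b * E) * (m : ℚ) ^ (2 * t * b) / (r : ℚ) ^ A) ^ n *
      (((r : ℚ) * n) ^ (i + 2) * 3 ^ i) / x ^ 2 =
      M * (((r : ℚ) * n) ^ (i + 2) / ((r : ℚ) ^ (A * n) * x ^ 2)) := by
    rw [div_pow, mul_pow, ← pow_mul, ← pow_mul, ← pow_mul, hM,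
      show 2 * t * b * n = 2 * n * t * b by ring]
    field_simp
  rw [hL, hR]
  refine mul_le_mul_of_nonneg_left ?_ hM0
  rw [div_le_div_iff₀ (by positivity) (by positivity)]
  calc (n.factorial : ℚ) ^ A * x ^ i * ((r : ℚ) ^ (A * n) * x ^ 2)
      = (n.factorial : ℚ) ^ A * x ^ i * (r : ℚ) ^ (A * n) * x ^ 2 := by ring
    _ ≤ _ := key

/-- the polynomial factor for the values -/
def polyG (m E a b r K n : ℕ) : ℕ := (r * n) ^ (K + 2) * 3 ^ K *
  (m * (n * E * b + K + (n + 1) * a + b)) ^ b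

theorem abs_gval_le {m r n A b i K : ℕ} {T : Finset ℚ} {x : ℚ} (hT : ∀ θ ∈ T, 0 < θ ∧ θ < 1)
    (hm : ∀ θ ∈ T, θ.den ≤ m) (hm0 : 1 ≤ m) (hr : 1 ≤ r) (hn : 1 ≤ n) (hb : 1 ≤ b)
    (hx : (r : ℚ) * n ≤ x) (hi : i ≤ K) (hK : K + 2 ≤ A * n) :
    |gval (A + b * EE r T.card) b n (PP (A + b * EE r T.card) b r n T * UU n ^ i) x| ≤
      (3 ^ (b * EE r T.card) * (m : ℚ) ^ (2 * (T.card * (2 * r + 1)) * b) / (r : ℚ) ^ A) ^ n *
        polyG m (EE r T.card) (A + b * EE r T.card) b r K n / x ^ 2 := by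
  have h1 := (MB_gser (a := A + b * EE r T.card) (b := b) (i := i) hT hm hm0 hr hn hx).coeff_le
    (by
      have hr1 : (1 : ℚ) ≤ r := by exact_mod_cast hr
      have hn1 : (1 : ℚ) ≤ n := by exact_mod_cast hn
      have : 0 ≤ x := by nlinarith
      positivity) (b - 1)
  have h2 := c_bound (x := x) (r := r) (n := n) (A := A) (b := b) (E := EE r T.card) (m := m)
    (t := T.card * (2 * r + 1)) (i := i) hr hn hx (by omega)
  have hrn : 1 ≤ r * n := Nat.mul_pos hr hn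
  set β := (3 ^ (b * EE r T.card) * (m : ℚ) ^ (2 * (T.card * (2 * r + 1)) * b) / (r : ℚ) ^ A) with hβ
  set a := A + b * EE r T.card with ha
  have h3 : ((r : ℚ) * n) ^ (i + 2) * 3 ^ i ≤ (((r * n) ^ (K + 2) * 3 ^ K : ℕ) : ℚ) := by
    have h4 : (r * n) ^ (i + 2) ≤ (r * n) ^ (K + 2) := Nat.pow_le_pow_right hrn (by omega)
    have h5 : 3 ^ i ≤ 3 ^ K := Nat.pow_le_pow_right (by norm_num) hi
    exact_mod_cast Nat.mul_le_mul h4 h5
  have h6 : ((m : ℚ) * ((n * EE r T.card * b + i + (n + 1) * a : ℕ) + (b - 1 : ℕ))) ^ (b - 1) ≤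
      (((m * (n * EE r T.card * b + K + (n + 1) * a + b)) ^ b : ℕ) : ℚ) := by
    have h7 : m * ((n * EE r T.card * b + i + (n + 1) * a) + (b - 1)) ≤
        m * (n * EE r T.card * b + K + (n + 1) * a + b) := Nat.mul_le_mul_left _ (by omega)
    have h8 : 1 ≤ m * (n * EE r T.card * b + K + (n + 1) * a + b) := Nat.mul_pos hm0 (by omega)
    have h9 : (m * ((n * EE r T.card * b + i + (n + 1) * a) + (b - 1))) ^ (b - 1) ≤
        (m * (n * EE r T.card * b + K + (n + 1) * a + b)) ^ b :=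
      (Nat.pow_le_pow_left h7 _).trans (Nat.pow_le_pow_right h8 (by omega))
    exact_mod_cast h9
  rw [gval]
  refine h1.trans ((mul_le_mul h2 h6 (by positivity) ?_).trans ?_)
  · have : (0 : ℚ) ≤ β := by positivity
    positivity
  · rw [polyG, Nat.cast_mul]
    have h10 : 0 ≤ β ^ n := by positivity
    have h11 : (0 : ℚ) ≤ (((m * (n * EE r T.card * b + K + (n + 1) * a + b)) ^ b : ℕ) : ℚ) := by
      positivity
    calc β ^ n * (((r : ℚ) * n) ^ (i + 2) * 3 ^ i) / x ^ 2 *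
          (((m * (n * EE r T.card * b + K + (n + 1) * a + b)) ^ b : ℕ) : ℚ)
        = (((r : ℚ) * n) ^ (i + 2) * 3 ^ i) * (β ^ n *
          (((m * (n * EE r T.card * b + K + (n + 1) * a + b)) ^ b : ℕ) : ℚ) / x ^ 2) := by ring
      _ ≤ (((r * n) ^ (K + 2) * 3 ^ K : ℕ) : ℚ) * (β ^ n *
          (((m * (n * EE r T.card * b + K + (n + 1) * a + b)) ^ b : ℕ) : ℚ) / x ^ 2) :=
        mul_le_mul_of_nonneg_right h3 (by positivity)
      _ = _ := by ring

end Pool.Agent.Helper8
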