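import Pool.Agent.Helper8.Ana4

/-! # Bounds for the linear forms and their coefficients -/

namespace Pool.Agent.Helper8

open Finset PowerSeries

/-- the rational number `q/d` as integer plus class -/
theorem div_split {d q : ℕ} (hd : 0 < d) :
    ((q : ℚ) / d) = ((q % d : ℕ) : ℚ) / d + ((q / d : ℕ) : ℤ) := by
  have h : (q : ℚ) = d * (q / d : ℕ) + (q % d : ℕ) := by exact_mod_cast (Nat.div_add_mod q d).symm
  have hd' : (d : ℚ) ≠ 0 := by exact_mod_cast hd.ne'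
  rw [Int.cast_natCast, div_add' _ _ _ hd']
  congr 1
  rw [add_comm, mul_comm]
  exact h

/-- the values at the zeros vanish -/
theorem gval_zero_frac {a b n h : ℕ} (hb : 0 < b) {F : Finset ℕ} {P0 Q : Polynomial ℚ}
    (hZ : ZeroPat b n h (TT F) P0) {d : ℕ} (hd : d ∈ F) (hd0 : 0 < d) {q : ℕ} (hq : ¬ d ∣ q) {j : ℕ}
    (h1 : j ≤ q / d + n + h) (h2 : q / d < h + j) :
    gval a b n (P0 * Q) ((q : ℚ) / d - j) = 0 := by
  refine gval_eq_zero hb (Dvd.dvd.mul_right ?_ _)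
  have hθ : ((q % d : ℕ) : ℚ) / d ∈ TT F :=
    mem_TT.2 ⟨d, hd, q % d, Nat.pos_of_ne_zero fun h0 => hq (Nat.dvd_of_mod_eq_zero h0),
      Nat.mod_lt _ hd0, rfl⟩
  have h3 := hZ.frac _ hθ (((q / d : ℕ) : ℤ) - j) (by omega) (by omega)
  have h4 : ((q : ℚ) / d - j) = ((q % d : ℕ) : ℚ) / d + ((((q / d : ℕ) : ℤ) - j : ℤ) : ℚ) := by
    rw [div_split hd0]; push_cast; ring
  rw [h4]; exact h3

theorem gval_zero_pos {a b n h : ℕ} (hb : 0 < b) {F : Finset ℕ} {P0 Q : Polynomial ℚ}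
    (hZ : ZeroPat b n h (TT F) P0) {d : ℕ} (hd : d ∈ F) (hd0 : 0 < d) {q : ℕ} (hq0 : 0 < q)
    (hq : q ≤ h * d) :
    gval a b n (P0 * Q) ((q : ℚ) / d) = 0 := by
  by_cases hdq : d ∣ q
  · obtain ⟨z, rfl⟩ := hdq
    have hd' : (d : ℚ) ≠ 0 := by exact_mod_cast hd0.ne'
    have h1 : (((d * z : ℕ) : ℚ) / d) = ((z : ℤ) : ℚ) := by push_cast; field_simp
    rw [h1]
    refine gval_eq_zero hb (Dvd.dvd.mul_right ?_ _)
    have hz1 : 1 ≤ z := Nat.pos_of_ne_zero fun h0 => by simp [h0] at hq0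
    have hz2 : z ≤ h := by
      rw [mul_comm] at hq
      exact Nat.le_of_mul_le_mul_right hq hd0
    exact hZ.pos z (by omega) (by omega)
  · have h2 : q / d < h := by
      rw [Nat.div_lt_iff_lt_mul hd0]
      rcases hq.lt_or_eq with h | h
      · exact h
      · exact absurd ⟨_, by rw [h, mul_comm]⟩ hdq
    have h3 := gval_zero_frac (a := a) (Q := Q) hb hZ hd hd0 hdq (j := 0) (Nat.zero_le _) (by omega)
    simpa using h3

/-- growth rate of the values -/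
noncomputable def betaV (m r A b t : ℕ) : ℝ :=
  3 ^ (b * EE r t) * (m : ℝ) ^ (2 * (t * (2 * r + 1)) * b) / (r : ℝ) ^ A

/-- growth rate of the coefficients -/
noncomputable def betaC (m r a b t : ℕ) : ℝ :=
  2 ^ a * (3 * ((r : ℝ) + 2)) ^ (b * EE r t) * (m : ℝ) ^ (2 * (t * (2 * r + 1)) * b)

theorem abs_Sd_PP_le {m r n A b i K : ℕ} {F : Finset ℕ}
    (hF : ∀ d ∈ F, 0 < d ∧ d ≤ m) (hm0 : 1 ≤ m) (hr : 1 ≤ r) (hn : 1 ≤ n) (hb : 1 ≤ b)
    (hi : i ≤ K) (hK : K + 2 ≤ A * n) {d : ℕ} (hd : d ∈ F) :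
    |Sd (A + b * EE r (TT F).card) b n
      (PP (A + b * EE r (TT F).card) b r n (TT F) * UU n ^ i) d| ≤
      2 * m ^ 2 * polyG m (EE r (TT F).card) (A + b * EE r (TT F).card) b r K n *
        betaV m r A b (TT F).card ^ n := by
  have hT : ∀ θ ∈ TT F, 0 < θ ∧ θ < 1 := fun θ hθ => TT_pos_lt hθ
  have hTm : ∀ θ ∈ TT F, θ.den ≤ m := fun θ hθ => den_le_of_mem_TT (fun d hd => (hF d hd).2) hθ
  set t := (TT F).card with ht
  set a := A + b * EE r t with ha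
  set G : ℝ := ((polyG m (EE r t) a b r K n : ℕ) : ℝ) with hG
  have hG0 : 0 ≤ G := by positivity
  have hβ0 : 0 ≤ betaV m r A b t := by rw [betaV]; positivity
  obtain ⟨hd0, hdm⟩ := hF d hd
  have hd0' : (0 : ℝ) < d := by exact_mod_cast hd0
  have key := abs_Sd_le (a := a) (b := b) (n := n) (P := PP a b r n (TT F) * UU n ^ i) hd0
    (U := betaV m r A b t ^ n * G) (by positivity) fun k => ?_
  · refine key.trans ?_
    have hdm' : (d : ℝ) ^ 2 ≤ (m : ℝ) ^ 2 :=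
      pow_le_pow_left₀ (by positivity) (by exact_mod_cast hdm) _
    have h0 : 0 ≤ betaV m r A b t ^ n * G := by positivity
    nlinarith [mul_le_mul_of_nonneg_left hdm' h0]
  · have hx0 : (0 : ℝ) < ((k : ℝ) + 1) / d := by positivity
    by_cases hk : k + 1 ≤ (r * n) * d
    · rw [gval_zero_pos (by omega) (zeroPat_PP a b r n hn F) hd hd0 (by omega) hk]
      rw [Rat.cast_zero, abs_zero]
      positivity
    · have hk' : ((r : ℚ) * n) ≤ (((k + 1 : ℕ) : ℚ) / d) := by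
        rw [le_div_iff₀ (by exact_mod_cast hd0)]
        have : (r * n) * d ≤ k + 1 := by omega
        exact_mod_cast this
      have h1 := abs_gval_le (m := m) (r := r) (n := n) (A := A) (b := b) (i := i) (K := K)
        (T := TT F) hT hTm hm0 hr hn hb hk' hi hK
      have h2 : ((|gval a b n (PP a b r n (TT F) * UU n ^ i) (((k + 1 : ℕ) : ℚ) / d)| : ℚ) : ℝ) ≤
          (((3 ^ (b * EE r t) * (m : ℚ) ^ (2 * (t * (2 * r + 1)) * b) / (r : ℚ) ^ A) ^ n *
            polyG m (EE r t) a b r K n / (((k + 1 : ℕ) : ℚ) / d) ^ 2 : ℚ) : ℝ) := by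
        exact_mod_cast h1
      rw [Rat.cast_abs] at h2
      refine h2.trans (le_of_eq ?_)
      rw [betaV, hG]
      push_cast
      rfl

/-- the polynomial factor for the coefficients -/
def polyH (m E a b K n : ℕ) : ℕ := (2 * n) ^ K * (m * (n * E * b + K + n * a + a)) ^ a

theorem abs_cc_le {m r n a b i j e K : ℕ} {T : Finset ℚ} (hT : ∀ θ ∈ T, 0 < θ ∧ θ < 1)
    (hm : ∀ θ ∈ T, θ.den ≤ m) (hm0 : 1 ≤ m) (hr : 1 ≤ r) (hn : 1 ≤ n) (ha : 1 ≤ a) (hj : j ≤ n)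
    (hi : i ≤ K) :
    |((cc a n (PP a b r n T * UU n ^ i) e j : ℚ) : ℝ)| ≤
      polyH m (EE r T.card) a b K n * betaC m r a b T.card ^ n := by
  have h1 := (MB_cser (a := a) (b := b) (i := i) hT hm hm0 hr hn hj).coeff_le (by positivity)
    (a - 1 - e)
  have h2 : (2 * (n : ℚ)) ^ i ≤ (((2 * n) ^ K : ℕ) : ℚ) := by
    have : (2 * n) ^ i ≤ (2 * n) ^ K := Nat.pow_le_pow_right (by omega) hi
    exact_mod_cast this
  have h6 : ((m : ℚ) * ((n * EE r T.card * b + i + n * a : ℕ) + (a - 1 - e : ℕ))) ^ (a - 1 - e) ≤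
      (((m * (n * EE r T.card * b + K + n * a + a)) ^ a : ℕ) : ℚ) := by
    have h7 : m * ((n * EE r T.card * b + i + n * a) + (a - 1 - e)) ≤
        m * (n * EE r T.card * b + K + n * a + a) := Nat.mul_le_mul_left _ (by omega)
    have h8 : 1 ≤ m * (n * EE r T.card * b + K + n * a + a) := Nat.mul_pos hm0 (by omega)
    have h9 : (m * ((n * EE r T.card * b + i + n * a) + (a - 1 - e))) ^ (a - 1 - e) ≤
        (m * (n * EE r T.card * b + K + n * a + a)) ^ a :=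
      (Nat.pow_le_pow_left h7 _).trans (Nat.pow_le_pow_right h8 (by omega))
    exact_mod_cast h9
  set W : ℚ := ((2 : ℚ) ^ n) ^ a * (((3 * ((r : ℚ) + 2)) ^ n) ^ EE r T.card *
      ((m : ℚ) ^ (2 * n)) ^ (T.card * (2 * r + 1))) ^ b with hW
  have hW0 : 0 ≤ W := by positivity
  have h10 : |cc a n (PP a b r n T * UU n ^ i) e j| ≤ W * (((2 * n) ^ K : ℕ) : ℚ) *
      (((m * (n * EE r T.card * b + K + n * a + a)) ^ a : ℕ) : ℚ) := by
    rw [cc]
    refine h1.trans ?_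
    exact mul_le_mul (mul_le_mul_of_nonneg_left h2 hW0) h6 (by positivity) (by positivity)
  have h11 : ((|cc a n (PP a b r n T * UU n ^ i) e j| : ℚ) : ℝ) ≤ ((W * (((2 * n) ^ K : ℕ) : ℚ) *
      (((m * (n * EE r T.card * b + K + n * a + a)) ^ a : ℕ) : ℚ) : ℚ) : ℝ) := by
    exact_mod_cast h10
  rw [Rat.cast_abs] at h11
  refine h11.trans (le_of_eq ?_)
  have h12 : ((W : ℚ) : ℝ) = betaC m r a b T.card ^ n := by
    rw [hW, betaC]
    push_cast
    simp only [mul_pow, ← pow_mul]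
    ring
  rw [Rat.cast_mul, Rat.cast_mul, h12, polyH, Nat.cast_mul, Rat.cast_natCast, Rat.cast_natCast]
  ring

end Pool.Agent.Helper8
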