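import Pool.Agent.Helper8.Ana5

/-! # Bounds for the coefficients of the forms, common multiples -/

namespace Pool.Agent.Helper8

open Finset

theorem abs_rho_le {a b n e : ℕ} {P : Polynomial ℚ} {Cc : ℝ} (hC : 0 ≤ Cc) (he : e < a)
    (h : ∀ j ≤ n, |((cc a n P e j : ℚ) : ℝ)| ≤ Cc) :
    |((rho a b n P e : ℚ) : ℝ)| ≤ 2 ^ (a + b) * ((n + 1) * Cc) := by
  rw [rho]
  push_cast
  rw [abs_mul, abs_mul, abs_pow, abs_neg, abs_one, one_pow, one_mul]
  have h1 : |(((e + (b - 1)).choose e : ℕ) : ℝ)| ≤ 2 ^ (a + b) := by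
    rw [abs_of_nonneg (by positivity)]
    have h2 : (e + (b - 1)).choose e ≤ 2 ^ (a + b) :=
      (Nat.choose_le_two_pow _ _).trans (Nat.pow_le_pow_right (by norm_num) (by omega))
    exact_mod_cast h2
  have h3 : |∑ j ∈ range (n + 1), ((cc a n P e j : ℚ) : ℝ)| ≤ (n + 1) * Cc := by
    refine (abs_sum_le_sum_abs _ _).trans ?_
    refine (sum_le_sum fun j hj => h j (by have := mem_range.1 hj; omega)).trans ?_
    rw [sum_const, card_range, nsmul_eq_mul]; push_cast; exact le_rfl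
  exact mul_le_mul h1 h3 (abs_nonneg _) (by positivity)

theorem abs_gj_le {a b n j q d m : ℕ} {P : Polynomial ℚ} {Cc : ℝ} (hC : 0 ≤ Cc) (hd : 0 < d)
    (hdm : d ≤ m) (h : ∀ e < a, |((cc a n P e j : ℚ) : ℝ)| ≤ Cc) :
    |((gj a b n P j (((q + 1 : ℕ) : ℚ) / d - j) : ℚ) : ℝ)| ≤ a * ((2 * m) ^ (a + b) * Cc) := by
  rw [gj]
  push_cast
  refine (abs_sum_le_sum_abs _ _).trans ?_
  have hm1 : 1 ≤ m := hd.trans_le hdm
  have hm1' : (1 : ℝ) ≤ m := by exact_mod_cast hm1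
  have hd' : (0 : ℝ) < d := by exact_mod_cast hd
  have key : ∀ e ∈ range a, |((cc a n P e j : ℚ) : ℝ) * ((-1) ^ (b - 1) *
      (((e + (b - 1)).choose e : ℕ) : ℝ) / (((q : ℝ) + 1) / d - j + j) ^ (e + 1 + (b - 1)))| ≤
      (2 * m) ^ (a + b) * Cc := by
    intro e he
    have he' := mem_range.1 he
    rw [abs_mul, abs_div, abs_mul, abs_pow, abs_neg, abs_one, one_pow, one_mul, sub_add_cancel]
    have h1 : |(((e + (b - 1)).choose e : ℕ) : ℝ)| ≤ 2 ^ (a + b) := by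
      rw [abs_of_nonneg (by positivity)]
      have h2 : (e + (b - 1)).choose e ≤ 2 ^ (a + b) :=
        (Nat.choose_le_two_pow _ _).trans (Nat.pow_le_pow_right (by norm_num) (by omega))
      exact_mod_cast h2
    have h2 : 1 / |(((q : ℝ) + 1) / d) ^ (e + 1 + (b - 1))| ≤ (m : ℝ) ^ (a + b) := by
      have hx : (0 : ℝ) < ((q : ℝ) + 1) / d := by positivity
      rw [abs_of_pos (by positivity), ← one_div_pow]
      have h3 : 1 / (((q : ℝ) + 1) / d) ≤ m := by
        rw [one_div_div, div_le_iff₀ (by positivity)]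
        have h4 : (d : ℝ) ≤ m := by exact_mod_cast hdm
        have h5 : (0 : ℝ) ≤ q := by positivity
        nlinarith [mul_nonneg (by positivity : (0 : ℝ) ≤ m) h5]
      refine (pow_le_pow_left₀ (by positivity) h3 _).trans ?_
      exact pow_le_pow_right₀ hm1' (by omega)
    have h3 := h e he'
    calc |((cc a n P e j : ℚ) : ℝ)| * (|(((e + (b - 1)).choose e : ℕ) : ℝ)| /
          |(((q : ℝ) + 1) / d) ^ (e + 1 + (b - 1))|)
        = |((cc a n P e j : ℚ) : ℝ)| * (|(((e + (b - 1)).choose e : ℕ) : ℝ)| *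
          (1 / |(((q : ℝ) + 1) / d) ^ (e + 1 + (b - 1))|)) := by ring
      _ ≤ Cc * (2 ^ (a + b) * (m : ℝ) ^ (a + b)) := by
          refine mul_le_mul h3 (mul_le_mul h1 h2 (by positivity) (by positivity))
            (by positivity) hC
      _ = _ := by rw [mul_pow]; ring
  refine (sum_le_sum key).trans ?_
  rw [sum_const, card_range, nsmul_eq_mul]

theorem abs_rho0_le {a b n d m : ℕ} {P : Polynomial ℚ} {Cc : ℝ} (hC : 0 ≤ Cc) (hd : 0 < d)
    (hdm : d ≤ m) (h : ∀ e < a, ∀ j ≤ n, |((cc a n P e j : ℚ) : ℝ)| ≤ Cc) :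
    |((rho0 a b n P d : ℚ) : ℝ)| ≤ (n + 1) * ((m * n) * (a * ((2 * m) ^ (a + b) * Cc))) := by
  rw [rho0]
  rw [Rat.cast_neg, abs_neg, Rat.cast_sum]
  refine (abs_sum_le_sum_abs _ _).trans ?_
  have hX : 0 ≤ (a : ℝ) * ((2 * m) ^ (a + b) * Cc) := by positivity
  have key : ∀ j ∈ range (n + 1), |(((∑ q ∈ range (d * j),
      gj a b n P j (((q + 1 : ℕ) : ℚ) / d - j)) : ℚ) : ℝ)| ≤
      (m * n) * (a * ((2 * m) ^ (a + b) * Cc)) := by
    intro j hj
    have hj' : j ≤ n := by have := mem_range.1 hj; omega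
    rw [Rat.cast_sum]
    refine (abs_sum_le_sum_abs _ _).trans ?_
    refine (sum_le_sum fun q _ => abs_gj_le hC hd hdm fun e he => h e he j hj').trans ?_
    rw [sum_const, card_range, nsmul_eq_mul]
    refine mul_le_mul_of_nonneg_right ?_ hX
    exact_mod_cast Nat.mul_le_mul hdm hj'
  refine (sum_le_sum key).trans ?_
  rw [sum_const, card_range, nsmul_eq_mul]; push_cast; exact le_rfl

theorem lcmUpto_le (n : ℕ) : (Nat.lcmUpto n : ℝ) ≤ 256 ^ n := by
  have h1 := Chebyshev.psi_le_const_mul_self (x := (n : ℝ)) (by positivity)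
  have h2 : Chebyshev.psi (n : ℝ) = Real.log (Nat.lcmUpto n) := by
    have := Chebyshev.psi_eq_log_lcmUpto n
    simpa using this
  rw [h2] at h1
  have h3 : (0 : ℝ) < Nat.lcmUpto n := by
    have := Nat.lcmUpto_ne_zero n
    positivity
  have h4 : (Nat.lcmUpto n : ℝ) ≤ Real.exp ((Real.log 4 + 4) * n) := by
    rw [← Real.log_le_iff_le_exp h3]; exact h1
  refine h4.trans ?_
  rw [mul_comm, Real.exp_nat_mul]
  refine pow_le_pow_left₀ (Real.exp_pos _).le ?_ _
  rw [Real.exp_add, Real.exp_log (by norm_num)]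
  have h5 : Real.exp 4 = Real.exp 1 ^ 4 := by rw [← Real.exp_nat_mul]; norm_num
  rw [h5]
  have h6 := Real.exp_one_lt_d9
  have h7 : Real.exp 1 ^ 4 ≤ (2.7182818286 : ℝ) ^ 4 :=
    pow_le_pow_left₀ (Real.exp_pos _).le h6.le _
  norm_num at h7 ⊢
  linarith

/-! ### polynomially bounded sequences -/

/-- polynomially bounded -/
def PB (f : ℕ → ℝ) : Prop := ∃ K : ℕ, ∀ n : ℕ, 1 ≤ n → |f n| ≤ K * (n : ℝ) ^ K

theorem PB.const (c : ℝ) : PB fun _ => c := by
  obtain ⟨K, hK⟩ := exists_nat_ge |c|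
  refine ⟨K, fun n hn => hK.trans ?_⟩
  have : (1 : ℝ) ≤ (n : ℝ) ^ K := one_le_pow₀ (by exact_mod_cast hn)
  nlinarith [Nat.cast_nonneg (α := ℝ) K]

theorem PB.id : PB fun n => (n : ℝ) := ⟨1, fun n _ => by simp⟩

theorem PB.mul {f g : ℕ → ℝ} (hf : PB f) (hg : PB g) : PB fun n => f n * g n := by
  obtain ⟨K, hK⟩ := hf
  obtain ⟨K', hK'⟩ := hg
  refine ⟨K * K' + (K + K'), fun n hn => ?_⟩
  have hn1 : (1 : ℝ) ≤ n := by exact_mod_cast hn
  rw [abs_mul]
  calc |f n| * |g n| ≤ (K * (n : ℝ) ^ K) * (K' * (n : ℝ) ^ K') :=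
        mul_le_mul (hK n hn) (hK' n hn) (abs_nonneg _) (by positivity)
    _ = (K * K') * (n : ℝ) ^ (K + K') := by rw [pow_add]; ring
    _ ≤ ((K * K' + (K + K') : ℕ) : ℝ) * (n : ℝ) ^ (K * K' + (K + K')) := by
        refine mul_le_mul ?_ (pow_le_pow_right₀ hn1 (by omega)) (by positivity) (by positivity)
        push_cast
        have : (0 : ℝ) ≤ K := by positivity
        have : (0 : ℝ) ≤ K' := by positivity
        linarith

theorem PB.add {f g : ℕ → ℝ} (hf : PB f) (hg : PB g) : PB fun n => f n + g n := by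
  obtain ⟨K, hK⟩ := hf
  obtain ⟨K', hK'⟩ := hg
  refine ⟨K + K', fun n hn => ?_⟩
  have hn1 : (1 : ℝ) ≤ n := by exact_mod_cast hn
  have h1 : (K : ℝ) * (n : ℝ) ^ K ≤ K * (n : ℝ) ^ (K + K') :=
    mul_le_mul_of_nonneg_left (pow_le_pow_right₀ hn1 (by omega)) (by positivity)
  have h2 : (K' : ℝ) * (n : ℝ) ^ K' ≤ K' * (n : ℝ) ^ (K + K') :=
    mul_le_mul_of_nonneg_left (pow_le_pow_right₀ hn1 (by omega)) (by positivity)
  have h3 := hK n hn
  have h4 := hK' n hn
  push_cast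
  refine (abs_add_le _ _).trans ?_
  linarith

theorem PB.pow {f : ℕ → ℝ} (hf : PB f) (k : ℕ) : PB fun n => f n ^ k := by
  induction k with
  | zero => simpa using PB.const 1
  | succ k ih => simpa [pow_succ] using ih.mul hf

theorem PB.tendsto {f : ℕ → ℝ} (hf : PB f) {θ : ℝ} (h0 : 0 ≤ θ) (h1 : θ < 1) :
    Filter.Tendsto (fun n => f n * θ ^ n) Filter.atTop (nhds 0) := by
  obtain ⟨K, hK⟩ := hf
  have h2 := (tendsto_pow_const_mul_const_pow_of_abs_lt_one K (r := θ)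
    (by rw [abs_of_nonneg h0]; exact h1)).const_mul (K : ℝ)
  rw [mul_zero] at h2
  refine squeeze_zero_norm' ?_ h2
  filter_upwards [Filter.eventually_ge_atTop 1] with n hn
  rw [Real.norm_eq_abs, abs_mul, abs_of_nonneg (pow_nonneg h0 n), ← mul_assoc]
  exact mul_le_mul_of_nonneg_right (hK n hn) (pow_nonneg h0 n)

theorem PB_polyG (m E a b r K : ℕ) : PB fun n => ((polyG m E a b r K n : ℕ) : ℝ) := by
  have h : (fun n : ℕ => ((polyG m E a b r K n : ℕ) : ℝ)) = fun n : ℕ =>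
      (((r : ℝ) * n) ^ (K + 2) * 3 ^ K) *
        ((m : ℝ) * ((((n : ℝ) * E * b + K) + ((n : ℝ) + 1) * a) + b)) ^ b := by
    funext n; rw [polyG]; push_cast; ring
  rw [h]
  exact ((((PB.const _).mul PB.id).pow _).mul (PB.const _)).mul (((PB.const _).mul
    (((((PB.id.mul (PB.const _)).mul (PB.const _)).add (PB.const _)).add
      ((PB.id.add (PB.const _)).mul (PB.const _))).add (PB.const _))).pow _)

theorem PB_polyH (m E a b K : ℕ) : PB fun n => ((polyH m E a b K n : ℕ) : ℝ) := by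
  have h : (fun n : ℕ => ((polyH m E a b K n : ℕ) : ℝ)) = fun n : ℕ =>
      ((2 : ℝ) * n) ^ K *
        ((m : ℝ) * ((((n : ℝ) * E * b + K) + (n : ℝ) * a) + a)) ^ a := by
    funext n; rw [polyH]; push_cast; ring
  rw [h]
  exact (((PB.const _).mul PB.id).pow _).mul (((PB.const _).mul
    (((((PB.id.mul (PB.const _)).mul (PB.const _)).add (PB.const _)).add
      (PB.id.mul (PB.const _))).add (PB.const _))).pow _)

end Pool.Agent.Helper8
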