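import Pool.Agent.Helper8.PF

/-! # Arithmetic of the constant term -/

namespace Pool.Agent.Helper8

open Finset PowerSeries

theorem mem_ZZ_of_padicNorm_le_one (y : ℚ) (h : ∀ p : ℕ, p.Prime → padicNorm p y ≤ 1) :
    y ∈ ZZ := by
  by_cases hden : y.den = 1
  · exact mem_ZZ.2 ⟨y.num, by conv_rhs => rw [← Rat.num_div_den y, hden]; simp⟩
  · exfalso
    obtain ⟨p, hp, hpd⟩ := Nat.exists_prime_and_dvd hden
    have : Fact p.Prime := ⟨hp⟩
    have h1 : padicNorm p (y.den : ℚ) < 1 := (padicNorm.nat_lt_one_iff _).2 hpd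
    have h2 : padicNorm p (y.num : ℚ) = 1 := by
      rw [padicNorm.int_eq_one_iff]
      intro h3
      have h4 : p ∣ y.num.natAbs := Int.natCast_dvd.1 h3
      have h5 := Nat.dvd_gcd h4 hpd
      rw [y.reduced] at h5
      exact hp.one_lt.ne' (Nat.dvd_one.1 h5)
    have h6 := h p hp
    rw [← Rat.num_div_den y, padicNorm.div, h2] at h6
    have h7 : 0 < padicNorm p (y.den : ℚ) := by
      refine lt_of_le_of_ne (padicNorm.nonneg _) (Ne.symm (padicNorm.nonzero ?_))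
      exact_mod_cast y.den_nz
    rw [div_le_one h7] at h6
    linarith

theorem padicNorm_le_one_of_mem_ZZ {y : ℚ} (h : y ∈ ZZ) (p : ℕ) [Fact p.Prime] :
    padicNorm p y ≤ 1 := by
  obtain ⟨z, rfl⟩ := mem_ZZ.1 h
  exact padicNorm.of_int z

/-- conditions on the common multiple `D` relative to `n` -/
structure GoodD (D n : ℕ) : Prop where
  ne : D ≠ 0
  dvd : ∀ e : ℕ, 1 ≤ e → e ≤ n → e ∣ D
  lt : ∀ p : ℕ, p.Prime → n < p ^ (padicValNat p D + 1)

variable {D n a b : ℕ} {P : Polynomial ℚ}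

/-- one term of `gj`, integrality under a size condition -/
theorem padic_term_le (p : ℕ) [Fact p.Prime] (hb : 0 < b)
    (hcc : ∀ e < a, ∀ j ≤ n, (D : ℚ) ^ (a - 1 - e) * cc a n P e j ∈ ZZ) {j : ℕ} (hj : j ≤ n)
    {y : ℚ} (hy : padicNorm p ((D : ℚ) / (y + j)) ≤ 1) :
    padicNorm p ((D : ℚ) ^ (a + b - 1) * gj a b n P j y) ≤ 1 := by
  rw [gj, mul_sum]
  refine padicNorm.sum_le' (fun e he => ?_) zero_le_one
  have he' := mem_range.1 he
  have h1 : (D : ℚ) ^ (a + b - 1) * (cc a n P e j * ((-1) ^ (b - 1) *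
      ((e + (b - 1)).choose e : ℚ) / (y + j) ^ (e + 1 + (b - 1)))) =
      ((D : ℚ) ^ (a - 1 - e) * cc a n P e j) * ((-1) ^ (b - 1) * ((e + (b - 1)).choose e : ℚ)) *
        ((D : ℚ) / (y + j)) ^ (e + 1 + (b - 1)) := by
    rw [show a + b - 1 = (a - 1 - e) + (e + 1 + (b - 1)) by omega, pow_add, div_pow]
    ring
  rw [h1, padicNorm.mul, padicNorm.mul]
  have h2 := padicNorm_le_one_of_mem_ZZ (hcc e he' j hj) p
  have h3 : padicNorm p ((-1) ^ (b - 1) * ((e + (b - 1)).choose e : ℚ)) ≤ 1 := by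
    have := padicNorm.of_int (p := p) ((-1) ^ (b - 1) * ((e + (b - 1)).choose e : ℤ))
    push_cast at this; exact this
  have h4 : padicNorm p (((D : ℚ) / (y + j)) ^ (e + 1 + (b - 1))) ≤ 1 := by
    have : ∀ k : ℕ, padicNorm p (((D : ℚ) / (y + j)) ^ k) ≤ 1 := by
      intro k
      induction k with
      | zero => simp
      | succ k ih =>
        rw [pow_succ, padicNorm.mul]
        exact mul_le_one₀ ih (padicNorm.nonneg _) hy
    exact this _
  exact mul_le_one₀ (mul_le_one₀ h2 (padicNorm.nonneg _) h3) (padicNorm.nonneg _) h4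

theorem gj_integral_int (hb : 0 < b)
    (hcc : ∀ e < a, ∀ j ≤ n, (D : ℚ) ^ (a - 1 - e) * cc a n P e j ∈ ZZ)
    {j : ℕ} (hj : j ≤ n) {q : ℕ} (hq : q ∣ D) {y : ℚ} (hy : y + j = q) :
    (D : ℚ) ^ (a + b - 1) * gj a b n P j y ∈ ZZ := by
  apply mem_ZZ_of_padicNorm_le_one
  intro p hp
  have : Fact p.Prime := ⟨hp⟩
  refine padic_term_le p hb hcc hj ?_
  obtain ⟨c, hc⟩ := hq
  rw [hy, hc]
  by_cases h0 : q = 0
  · simp [h0]
  · have : (q : ℚ) ≠ 0 := by exact_mod_cast h0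
    have h2 : (((q * c : ℕ) : ℚ)) / q = ((c : ℕ) : ℚ) := by push_cast; field_simp
    rw [h2]; exact padicNorm.of_nat c

theorem gj_integral_frac (ha : 0 < a) (hb : 0 < b) (hD : GoodD D n) (hP : P.natDegree < a * (n + 1))
    (hcc : ∀ e < a, ∀ j ≤ n, (D : ℚ) ^ (a - 1 - e) * cc a n P e j ∈ ZZ)
    {y : ℚ} (hy : ∀ j ∈ range (n + 1), y + (j : ℚ) ≠ 0) (h0 : gval a b n P y = 0)
    {j : ℕ} (hj : j ≤ n) :
    (D : ℚ) ^ (a + b - 1) * gj a b n P j y ∈ ZZ := by
  apply mem_ZZ_of_padicNorm_le_one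
  intro p hp
  have : Fact p.Prime := ⟨hp⟩
  by_cases hc : padicNorm p ((D : ℚ) / (y + j)) ≤ 1
  · exact padic_term_le p hb hcc hj hc
  · have hsum : (D : ℚ) ^ (a + b - 1) * gj a b n P j y =
        - ∑ j' ∈ (range (n + 1)).erase j, (D : ℚ) ^ (a + b - 1) * gj a b n P j' y := by
      rw [gval_eq ha hP hy, ← add_sum_erase _ _ (mem_range.2 (by omega : j < n + 1))] at h0
      rw [← mul_sum]
      linear_combination (D : ℚ) ^ (a + b - 1) * h0
    rw [hsum, padicNorm.neg]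
    refine padicNorm.sum_le' (fun j' hj' => ?_) zero_le_one
    rw [mem_erase, mem_range] at hj'
    refine padic_term_le p hb hcc (by omega) ?_
    by_contra hc'
    rw [not_le] at hc hc'
    -- both denominators are very divisible by `p`
    have hDq : (D : ℚ) ≠ 0 := by exact_mod_cast hD.ne
    have key : ∀ i : ℕ, i ≤ n → 1 < padicNorm p ((D : ℚ) / (y + i)) →
        padicNorm p (y + i) < padicNorm p (D : ℚ) := by
      intro i hi h
      rw [padicNorm.div] at h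
      have hpos : 0 < padicNorm p (y + i) := by
        refine lt_of_le_of_ne (padicNorm.nonneg _) (Ne.symm (padicNorm.nonzero ?_))
        exact hy i (mem_range.2 (by omega))
      rwa [one_lt_div hpos] at h
    have h1 := key j hj hc
    have h2 := key j' (by omega) hc'
    have h3 : padicNorm p (((j : ℤ) - j' : ℤ) : ℚ) < padicNorm p (D : ℚ) := by
      have h4 : (((j : ℤ) - j' : ℤ) : ℚ) = (y + j) - (y + j') := by push_cast; ring
      rw [h4]
      exact (padicNorm.sub).trans_lt (max_lt h1 h2)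
    have h5 : padicNorm p (D : ℚ) = (p : ℚ) ^ (-(padicValNat p D : ℤ)) := by
      rw [padicNorm.eq_zpow_of_nonzero hDq]
      simp
    have h6 : padicNorm p (((j : ℤ) - j' : ℤ) : ℚ) ≤ (p : ℚ) ^ (-((padicValNat p D + 1 : ℕ) : ℤ)) := by
      have h7 : (((j : ℤ) - j' : ℤ) : ℚ) ≠ 0 := by
        have : (j : ℤ) - j' ≠ 0 := by omega
        exact_mod_cast this
      rw [padicNorm.eq_zpow_of_nonzero h7]
      rw [h5, padicNorm.eq_zpow_of_nonzero h7] at h3
      have hp1 : (1 : ℚ) < p := by exact_mod_cast hp.one_lt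
      rw [zpow_lt_zpow_iff_right₀ hp1] at h3
      rw [zpow_le_zpow_iff_right₀ hp1, Nat.cast_add, Nat.cast_one]
      omega
    rw [← padicNorm.dvd_iff_norm_le] at h6
    have h8 := hD.lt p hp
    have h9 : ((p ^ (padicValNat p D + 1) : ℕ) : ℤ) ∣ (j : ℤ) - j' := h6
    have h10 : ((j : ℤ) - j') = 0 := by
      apply Int.eq_zero_of_abs_lt_dvd h9
      rw [abs_lt]
      constructor <;> omega
    omega

theorem goodD_lcmUpto (n : ℕ) : GoodD (Nat.lcmUpto n) n where
  ne := Nat.lcmUpto_ne_zero n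
  dvd e h1 h2 := Finset.dvd_lcm (f := id) (mem_Icc.2 ⟨h1, h2⟩)
  lt p hp := by
    have h := Nat.factorization_lcmUpto n hp
    rw [Nat.factorization_def _ hp] at h
    rw [h]
    exact Nat.lt_pow_succ_log_self hp.one_lt n

/-- sum of the coefficients, weighted -/
noncomputable def rho (a b n : ℕ) (P : Polynomial ℚ) (e : ℕ) : ℚ :=
  ((-1) ^ (b - 1) * ((e + (b - 1)).choose e : ℚ)) * ∑ j ∈ range (n + 1), cc a n P e j

/-- constant term attached to the denominator `d` -/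
noncomputable def rho0 (a b n : ℕ) (P : Polynomial ℚ) (d : ℕ) : ℚ :=
  - ∑ j ∈ range (n + 1), ∑ q ∈ range (d * j), gj a b n P j (((q + 1 : ℕ) : ℚ) / d - j)

theorem rho_integral (hcc : ∀ e < a, ∀ j ≤ n, (D : ℚ) ^ (a - 1 - e) * cc a n P e j ∈ ZZ)
    {e : ℕ} (he : e < a) : (D : ℚ) ^ (a + b - 1) * rho a b n P e ∈ ZZ := by
  have h : (D : ℚ) ^ (a + b - 1) * rho a b n P e = (D : ℚ) ^ (b + e) *
      (((-1) ^ (b - 1) * ((e + (b - 1)).choose e : ℤ) : ℤ) : ℚ) *
        ∑ j ∈ range (n + 1), (D : ℚ) ^ (a - 1 - e) * cc a n P e j := by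
    rw [rho, ← mul_sum, show a + b - 1 = (b + e) + (a - 1 - e) by omega, pow_add]
    push_cast; ring
  rw [h]
  refine mul_mem (mul_mem ?_ (int_mem_ZZ _)) (sum_mem fun j hj => ?_)
  · exact pow_mem (nat_mem_ZZ D) _
  · exact hcc e he j (by have := mem_range.1 hj; omega)

theorem rho0_integral (ha : 0 < a) (hb : 0 < b) (hD : GoodD D n)
    (hP : P.natDegree < a * (n + 1))
    (hcc : ∀ e < a, ∀ j ≤ n, (D : ℚ) ^ (a - 1 - e) * cc a n P e j ∈ ZZ) {d : ℕ} (hd : 0 < d)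
    (hz : ∀ j ≤ n, ∀ q : ℕ, 0 < q → q < d * j → ¬ d ∣ q → gval a b n P ((q : ℚ) / d - j) = 0) :
    (D : ℚ) ^ (a + b - 1) * rho0 a b n P d ∈ ZZ := by
  rw [rho0, mul_neg, mul_sum]
  refine neg_mem (sum_mem fun j hj => ?_)
  rw [mul_sum]
  refine sum_mem fun q hq => ?_
  have hj' : j ≤ n := by have := mem_range.1 hj; omega
  have hq' := mem_range.1 hq
  have hd' : (d : ℚ) ≠ 0 := by exact_mod_cast hd.ne'
  by_cases hdq : d ∣ q + 1
  · obtain ⟨c, hc⟩ := hdq
    have hcj : c ≤ j := by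
      have : d * c ≤ d * j := by omega
      exact Nat.le_of_mul_le_mul_left this hd
    have hc0 : 1 ≤ c := by
      rcases Nat.eq_zero_or_pos c with h | h
      · rw [h] at hc; omega
      · exact h
    refine gj_integral_int hb hcc hj' (q := c) (hD.dvd c hc0 (by omega)) ?_
    rw [hc]; push_cast; field_simp; ring
  · have hlt : q + 1 < d * j := by
      rcases Nat.lt_or_ge (q + 1) (d * j) with h | h
      · exact h
      · exfalso; apply hdq; exact ⟨j, by omega⟩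
    refine gj_integral_frac ha hb hD hP hcc ?_ (hz j hj' (q + 1) (by omega) hlt hdq) hj'
    intro i _ h0
    apply hdq
    have h1 : ((q + 1 : ℕ) : ℚ) = d * (j - i) := by
      have h2 : ((q + 1 : ℕ) : ℚ) / d = j - i := by linarith
      field_simp at h2; linarith
    have h3 : ((q + 1 : ℕ) : ℤ) = d * ((j : ℤ) - i) := by exact_mod_cast h1
    exact Int.natCast_dvd_natCast.1 ⟨_, h3⟩

theorem cc_integral (hD : ∀ e : ℕ, 1 ≤ e → e ≤ n → e ∣ D) {P' : Polynomial ℚ}
    (hP' : ∀ j ≤ n, atp (-(j : ℚ)) P' ∈ RD D)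
    (hP : P = Polynomial.C ((n.factorial : ℚ) ^ a) * P') {e j : ℕ} (hj : j ≤ n) :
    (D : ℚ) ^ (a - 1 - e) * cc a n P e j ∈ ZZ := by
  have h : cser a n P j ∈ RD D := by
    have h1 : cser a n P j = atp (-(j : ℚ)) P' * (C (n.factorial : ℚ) * ivp n j) ^ a := by
      rw [cser, hP, map_mul, atp_C, map_pow, mul_pow]; ring
    rw [h1]
    exact mul_mem (hP' j hj) (pow_mem (block1_mem_RD hj hD) _)
  exact h _

end Pool.Agent.Helper8
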