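import Pool.Agent.Helper8.NV6

/-! # The explicit numerator -/

namespace Pool.Agent.Helper8

open Finset PowerSeries

/-- the block `binom (X + y) n` -/
noncomputable def blk (y : ℚ) (n : ℕ) : Polynomial ℚ :=
  Polynomial.C (1 / (n.factorial : ℚ)) * ∏ k ∈ range n, (Polynomial.X + Polynomial.C (y - k))

theorem atp_blk (x y : ℚ) (n : ℕ) : atp x (blk y n) = bin (x + y) n := by
  rw [blk, bin, map_mul, atp_C, map_prod]
  congr 1
  refine prod_congr rfl fun k _ => ?_
  rw [map_add, atp_X, atp_C, add_sub_assoc, map_add]; ring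

theorem blk_ne_zero (y : ℚ) (n : ℕ) : blk y n ≠ 0 := by
  rw [blk]
  refine mul_ne_zero ?_ ?_
  · rw [Ne, Polynomial.C_eq_zero]; positivity
  · rw [prod_ne_zero_iff]; intro k _; exact Polynomial.X_add_C_ne_zero _

theorem natDegree_blk (y : ℚ) (n : ℕ) : (blk y n).natDegree = n := by
  rw [blk, Polynomial.natDegree_C_mul (by positivity),
    Polynomial.natDegree_prod_of_monic _ _ fun i _ => Polynomial.monic_X_add_C _]
  simp only [Polynomial.natDegree_X_add_C]
  simp

theorem dvd_blk {x y : ℚ} {n k : ℕ} (hk : k < n) (h : x + y = k) :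
    (Polynomial.X - Polynomial.C x) ∣ blk y n := by
  rw [blk]
  refine Dvd.dvd.mul_left ?_ _
  have : (Polynomial.X - Polynomial.C x : Polynomial ℚ) = Polynomial.X + Polynomial.C (y - k) := by
    rw [show y - (k : ℚ) = -x by linarith, Polynomial.C_neg, sub_eq_add_neg]
  rw [this]
  exact dvd_prod_of_mem (fun k : ℕ => Polynomial.X + Polynomial.C (y - (k : ℚ))) (mem_range.2 hk)

theorem blk_comp_refl (y : ℚ) {n : ℕ} (hn : Even n) :
    (blk y n).comp (refl n) = blk (2 * n - 1 - y) n := by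
  rw [blk, blk, Polynomial.mul_comp, Polynomial.C_comp, Polynomial.prod_comp]
  congr 1
  have h1 : ∀ k ∈ range n, (Polynomial.X + Polynomial.C (y - (k : ℚ))).comp (refl n) =
      -1 * (Polynomial.X + Polynomial.C ((n : ℚ) - y + k)) := by
    intro k _
    rw [refl]
    simp only [Polynomial.add_comp, Polynomial.X_comp, Polynomial.C_comp, map_add, map_sub,
      Polynomial.sub_comp]
    ring
  rw [prod_congr rfl h1, prod_mul_distrib, prod_const, card_range, hn.neg_one_pow, one_mul,
    ← prod_range_reflect]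
  refine prod_congr rfl fun k hk => ?_
  have := mem_range.1 hk
  congr 2
  rw [Nat.cast_sub (by omega), Nat.cast_sub (by omega)]
  push_cast; ring

/-- the fractional classes -/
def TT (F : Finset ℕ) : Finset ℚ := F.biUnion fun d => (Ioo 0 d).image fun q : ℕ => (q : ℚ) / d

theorem mem_TT {F : Finset ℕ} {θ : ℚ} :
    θ ∈ TT F ↔ ∃ d ∈ F, ∃ q : ℕ, 0 < q ∧ q < d ∧ θ = (q : ℚ) / d := by
  simp only [TT, mem_biUnion, mem_image, mem_Ioo]
  constructor
  · rintro ⟨d, hd, q, ⟨h1, h2⟩, h3⟩; exact ⟨d, hd, q, h1, h2, h3.symm⟩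
  · rintro ⟨d, hd, q, h1, h2, h3⟩; exact ⟨d, hd, q, ⟨h1, h2⟩, h3.symm⟩

theorem TT_pos_lt {F : Finset ℕ} {θ : ℚ} (h : θ ∈ TT F) : 0 < θ ∧ θ < 1 := by
  obtain ⟨d, hd, q, h1, h2, rfl⟩ := mem_TT.1 h
  have hd0 : (0 : ℚ) < d := by exact_mod_cast (by omega : 0 < d)
  have hq0 : (0 : ℚ) < q := by exact_mod_cast h1
  have hqd : (q : ℚ) < d := by exact_mod_cast h2
  exact ⟨by positivity, (div_lt_one hd0).2 hqd⟩

theorem TT_symm {F : Finset ℕ} {θ : ℚ} (h : θ ∈ TT F) : 1 - θ ∈ TT F := by
  obtain ⟨d, hd, q, h1, h2, rfl⟩ := mem_TT.1 h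
  refine mem_TT.2 ⟨d, hd, d - q, by omega, by omega, ?_⟩
  have hd0 : (d : ℚ) ≠ 0 := by exact_mod_cast (by omega : d ≠ 0)
  rw [Nat.cast_sub h2.le]; field_simp

theorem card_TT_le (F : Finset ℕ) : (TT F).card ≤ ∑ d ∈ F, d := by
  refine card_biUnion_le.trans (sum_le_sum fun d _ => ?_)
  refine card_image_le.trans ?_
  rw [Nat.card_Ioo]; omega

theorem den_le_of_mem_TT {F : Finset ℕ} {m : ℕ} (hF : ∀ d ∈ F, d ≤ m) {θ : ℚ} (h : θ ∈ TT F) :
    θ.den ≤ m := by
  obtain ⟨d, hd, q, h1, h2, rfl⟩ := mem_TT.1 h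
  have h3 : ((q : ℚ) / d).den ∣ d := by
    have := Rat.den_dvd (q : ℤ) (d : ℤ)
    have h4 : ((q : ℚ) / d) = (((q : ℤ) : ℚ) / ((d : ℤ) : ℚ)) := by push_cast; rfl
    rw [h4]
    rw [← Rat.divInt_eq_div]
    exact_mod_cast this
  exact (Nat.le_of_dvd (by omega) h3).trans (hF d hd)

theorem den_one_sub (θ : ℚ) : (1 - θ).den = θ.den := by
  have := Rat.add_intCast_den (-θ) 1
  rw [Rat.neg_den] at this
  rw [← this]; congr 1; push_cast; ring

theorem den_shift (θ : ℚ) (z : ℤ) : ((z : ℚ) - θ).den = θ.den := by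
  have := Rat.add_intCast_den (-θ) z
  rw [Rat.neg_den] at this
  rw [← this]; congr 1; ring

/-- the product of blocks, before taking the `b`-th power -/
noncomputable def base (r n : ℕ) (T : Finset ℚ) : Polynomial ℚ :=
  (∏ l ∈ range r, (blk (-1 - l * n) n * blk ((l + 2) * n) n)) *
    ∏ θ ∈ T, ∏ l ∈ range (2 * r + 1),
      (Polynomial.C ((θ.den : ℚ) ^ (2 * n)) * blk (((r : ℚ) + 1 - l) * n - θ) n)

/-- the numerator without the factor for the poles -/
noncomputable def num (b r n : ℕ) (T : Finset ℚ) : Polynomial ℚ := base r n T ^ b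

/-- the numerator -/
noncomputable def PP (a b r n : ℕ) (T : Finset ℚ) : Polynomial ℚ :=
  Polynomial.C ((n.factorial : ℚ) ^ a) * num b r n T

theorem base_ne_zero (r n : ℕ) (T : Finset ℚ) : base r n T ≠ 0 := by
  rw [base]
  refine mul_ne_zero (prod_ne_zero_iff.2 fun l _ => mul_ne_zero (blk_ne_zero _ _) (blk_ne_zero _ _))
    (prod_ne_zero_iff.2 fun θ _ => prod_ne_zero_iff.2 fun l _ =>
      mul_ne_zero ?_ (blk_ne_zero _ _))
  rw [Ne, Polynomial.C_eq_zero]
  have := θ.den_nz
  positivity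

theorem natDegree_base (r n : ℕ) (T : Finset ℚ) :
    (base r n T).natDegree = T.card * (2 * (r * n) + n) + 2 * (r * n) := by
  rw [base, Polynomial.natDegree_mul, Polynomial.natDegree_prod, Polynomial.natDegree_prod]
  · have h1 : ∀ l ∈ range r, (blk (-1 - (l : ℚ) * n) n * blk (((l : ℚ) + 2) * n) n).natDegree = 2 * n := by
      intro l _
      rw [Polynomial.natDegree_mul (blk_ne_zero _ _) (blk_ne_zero _ _), natDegree_blk,
        natDegree_blk]; ring
    have h2 : ∀ θ ∈ T, (∏ l ∈ range (2 * r + 1),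
        (Polynomial.C ((θ.den : ℚ) ^ (2 * n)) * blk (((r : ℚ) + 1 - l) * n - θ) n)).natDegree =
        (2 * r + 1) * n := by
      intro θ _
      rw [Polynomial.natDegree_prod]
      · have : ∀ l ∈ range (2 * r + 1), (Polynomial.C ((θ.den : ℚ) ^ (2 * n)) *
            blk (((r : ℚ) + 1 - l) * n - θ) n).natDegree = n := by
          intro l _
          have := θ.den_nz
          rw [Polynomial.natDegree_C_mul (by positivity), natDegree_blk]
        rw [sum_congr rfl this, sum_const, card_range, smul_eq_mul]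
      · intro l _
        refine mul_ne_zero ?_ (blk_ne_zero _ _)
        rw [Ne, Polynomial.C_eq_zero]
        have := θ.den_nz
        positivity
    rw [sum_congr rfl h1, sum_congr rfl h2, sum_const, sum_const, card_range, smul_eq_mul,
      smul_eq_mul]
    ring
  · intro θ _
    refine prod_ne_zero_iff.2 fun l _ => mul_ne_zero ?_ (blk_ne_zero _ _)
    rw [Ne, Polynomial.C_eq_zero]
    have := θ.den_nz
    positivity
  · intro l _; exact mul_ne_zero (blk_ne_zero _ _) (blk_ne_zero _ _)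
  · exact prod_ne_zero_iff.2 fun l _ => mul_ne_zero (blk_ne_zero _ _) (blk_ne_zero _ _)
  · refine prod_ne_zero_iff.2 fun θ _ => prod_ne_zero_iff.2 fun l _ =>
      mul_ne_zero ?_ (blk_ne_zero _ _)
    rw [Ne, Polynomial.C_eq_zero]
    have := θ.den_nz
    positivity

theorem base_symm {r n : ℕ} (hn : Even n) (F : Finset ℕ) :
    (base r n (TT F)).comp (refl n) = base r n (TT F) := by
  rw [base, Polynomial.mul_comp, Polynomial.prod_comp, Polynomial.prod_comp]
  congr 1
  · refine prod_congr rfl fun l _ => ?_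
    rw [Polynomial.mul_comp, blk_comp_refl _ hn, blk_comp_refl _ hn, mul_comm]
    congr 2 <;> ring
  · refine prod_bij (fun θ _ => 1 - θ) (fun θ hθ => TT_symm hθ) (fun θ _ θ' _ h => ?_)
      (fun θ hθ => ⟨1 - θ, TT_symm hθ, by ring⟩) (fun θ _ => ?_)
    · have h' : (1 : ℚ) - θ = 1 - θ' := h
      linarith
    · rw [Polynomial.prod_comp, ← prod_range_reflect]
      refine prod_congr rfl fun l hl => ?_
      have := mem_range.1 hl
      rw [Polynomial.mul_comp, Polynomial.C_comp, blk_comp_refl _ hn, den_one_sub]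
      congr 2
      rw [Nat.cast_sub (by omega), Nat.cast_sub (by omega)]
      push_cast; ring

theorem PP_symm {a b r n : ℕ} (hn : Even n) (F : Finset ℕ) :
    (PP a b r n (TT F)).comp (refl n) = PP a b r n (TT F) := by
  rw [PP, num, Polynomial.mul_comp, Polynomial.C_comp, Polynomial.pow_comp, base_symm hn]

theorem PP_ne_zero (a b r n : ℕ) (T : Finset ℚ) : PP a b r n T ≠ 0 := by
  rw [PP, num]
  refine mul_ne_zero ?_ (pow_ne_zero _ (base_ne_zero _ _ _))
  rw [Ne, Polynomial.C_eq_zero]; positivity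

theorem natDegree_PP (a b r n : ℕ) (T : Finset ℚ) :
    (PP a b r n T).natDegree = b * (T.card * (2 * (r * n) + n) + 2 * (r * n)) := by
  rw [PP, num, Polynomial.natDegree_C_mul (by positivity), Polynomial.natDegree_pow,
    natDegree_base]

theorem dvd_PP_of_dvd_base {a b r n : ℕ} {T : Finset ℚ} {x : ℚ}
    (h : (Polynomial.X - Polynomial.C x) ∣ base r n T) :
    (Polynomial.X - Polynomial.C x) ^ b ∣ PP a b r n T := by
  rw [PP, num]
  exact (pow_dvd_pow_of_dvd h b).mul_left _

theorem zeroPat_PP (a b r n : ℕ) (hn : 0 < n) (F : Finset ℕ) :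
    ZeroPat b n (r * n) (TT F) (PP a b r n (TT F)) where
  ne := PP_ne_zero _ _ _ _ _
  hT θ hθ := TT_pos_lt hθ
  deg := natDegree_PP _ _ _ _ _
  frac := by
    intro θ hθ k hk1 hk2
    apply dvd_PP_of_dvd_base
    rw [base]
    refine Dvd.dvd.mul_left ?_ _
    refine dvd_trans ?_ (dvd_prod_of_mem _ hθ)
    -- k + (r+1) n = l' n + i
    obtain ⟨K, hK⟩ := Int.eq_ofNat_of_zero_le (show 0 ≤ k + (n + (r * n : ℕ)) by omega)
    have hKlt : K < (2 * r + 1) * n := by
      have : (2 * r + 1) * n = 2 * (r * n) + n := by ring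
      omega
    have hdiv : K / n < 2 * r + 1 := Nat.div_lt_of_lt_mul (by rw [mul_comm]; exact hKlt)
    have hmod : K % n < n := Nat.mod_lt _ hn
    have hl : K / n ∈ range (2 * r + 1) := mem_range.2 hdiv
    refine dvd_trans ?_ (dvd_prod_of_mem _ hl)
    refine Dvd.dvd.mul_left ?_ _
    refine dvd_blk hmod ?_
    have h1 : (K : ℚ) = (K / n : ℕ) * n + (K % n : ℕ) := by
      have := Nat.div_add_mod K n
      rw [mul_comm] at this
      exact_mod_cast this.symm
    have h2 : (k : ℚ) = K - (n + r * n) := by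
      have : (k : ℤ) = K - (n + (r * n : ℕ)) := by omega
      have := congrArg (fun z : ℤ => (z : ℚ)) this
      push_cast at this; exact this
    rw [h2, h1]; ring
  pos := by
    intro z hz1 hz2
    apply dvd_PP_of_dvd_base
    rw [base]
    refine Dvd.dvd.mul_right ?_ _
    obtain ⟨K, hK⟩ := Int.eq_ofNat_of_zero_le (show 0 ≤ z - 1 by omega)
    have hdiv : K / n < r := Nat.div_lt_of_lt_mul (by rw [mul_comm]; omega)
    have hmod : K % n < n := Nat.mod_lt _ hn
    refine dvd_trans ?_ (dvd_prod_of_mem _ (mem_range.2 hdiv))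
    refine Dvd.dvd.mul_right ?_ _
    refine dvd_blk hmod ?_
    have h1 : (K : ℚ) = (K / n : ℕ) * n + (K % n : ℕ) := by
      have := Nat.div_add_mod K n
      rw [mul_comm] at this
      exact_mod_cast this.symm
    have h2 : (z : ℚ) = K + 1 := by
      have : z = K + 1 := by omega
      exact_mod_cast this
    rw [h2, h1]; ring
  neg := by
    intro z hz1 hz2
    apply dvd_PP_of_dvd_base
    rw [base]
    refine Dvd.dvd.mul_right ?_ _
    -- z = -(l+2) n + i, i < n
    obtain ⟨K, hK⟩ := Int.eq_ofNat_of_zero_le (show 0 ≤ -((n : ℤ) + 1) - z by omega)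
    have hdiv : K / n < r := Nat.div_lt_of_lt_mul (by rw [mul_comm]; omega)
    have hmod : K % n < n := Nat.mod_lt _ hn
    refine dvd_trans ?_ (dvd_prod_of_mem _ (mem_range.2 hdiv))
    refine Dvd.dvd.mul_left ?_ _
    refine dvd_blk (k := n - 1 - K % n) (by omega) ?_
    have h1 : (K : ℚ) = (K / n : ℕ) * n + (K % n : ℕ) := by
      have := Nat.div_add_mod K n
      rw [mul_comm] at this
      exact_mod_cast this.symm
    have h2 : (z : ℚ) = -(n + 1) - K := by
      have : z = -((n : ℤ) + 1) - K := by omega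
      exact_mod_cast this
    rw [h2, h1, Nat.cast_sub (by omega), Nat.cast_sub (by omega)]; push_cast; ring

theorem atp_num_mem_RD {b r n D : ℕ} (T : Finset ℚ)
    (hD : ∀ e : ℕ, 1 ≤ e → e ≤ n → e ∣ D) (j : ℕ) : atp (-(j : ℚ)) (num b r n T) ∈ RD D := by
  rw [num, map_pow]
  refine pow_mem ?_ _
  rw [base, map_mul, map_prod, map_prod]
  refine mul_mem (prod_mem fun l _ => ?_) (prod_mem fun θ _ => ?_)
  · rw [map_mul, atp_blk, atp_blk]
    refine mul_mem ?_ ?_
    · have := int_block_mem_RD (n := n) hD (-(j : ℤ) + (-1 - l * n))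
      push_cast at this; exact this
    · have := int_block_mem_RD (n := n) hD (-(j : ℤ) + (l + 2) * n)
      push_cast at this; exact this
  · rw [map_prod]
    refine prod_mem fun l _ => ?_
    rw [map_mul, atp_C, atp_blk]
    have h := frac_block_mem_RD (n := n) hD (-(j : ℚ) + (((r : ℚ) + 1 - l) * n - θ))
    have h2 : (-(j : ℚ) + (((r : ℚ) + 1 - l) * n - θ)).den = θ.den := by
      have := den_shift θ (-(j : ℤ) + ((r : ℤ) + 1 - l) * n)
      rw [← this]; congr 1; push_cast; ring
    rw [h2] at h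
    exact h

end Pool.Agent.Helper8
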