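import Pool.Agent.Helper8.PowSer

/-! # A linear independence criterion with determinants -/

namespace Pool.Agent.Helper8

open Finset Module Matrix

theorem mem_ZZ_det {k : ℕ} {A : Matrix (Fin k) (Fin k) ℚ} (h : ∀ i j, A i j ∈ ZZ) :
    A.det ∈ ZZ := by
  rw [Matrix.det_apply']
  refine sum_mem fun σ _ => mul_mem ?_ (prod_mem fun i _ => h _ _)
  exact int_mem_ZZ _

theorem one_le_abs_of_mem_ZZ {q : ℚ} (h : q ∈ ZZ) (h0 : q ≠ 0) : 1 ≤ |(q : ℝ)| := by
  obtain ⟨z, rfl⟩ := mem_ZZ.1 h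
  have hz : z ≠ 0 := by rintro rfl; simp at h0
  have := Int.one_le_abs hz
  rw [Rat.cast_intCast]
  exact_mod_cast this

theorem abs_det_updateCol_le {k : ℕ} {A : Matrix (Fin k) (Fin k) ℝ} {v : Fin k → ℝ} {M ε : ℝ}
    (hA : ∀ i j, |A i j| ≤ M) (hv : ∀ i, |v i| ≤ ε) (l : Fin k) :
    |(A.updateCol l v).det| ≤ k.factorial * (ε * M ^ (k - 1)) := by
  rw [Matrix.det_apply']
  refine (abs_sum_le_sum_abs _ _).trans ?_
  have hε : 0 ≤ ε := (abs_nonneg _).trans (hv l)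
  have key : ∀ σ ∈ (univ : Finset (Equiv.Perm (Fin k))),
      |((Equiv.Perm.sign σ : ℤ) : ℝ) * ∏ i, (A.updateCol l v) (σ i) i| ≤ ε * M ^ (k - 1) := by
    intro σ _
    rw [abs_mul]
    have h1 : |((Equiv.Perm.sign σ : ℤ) : ℝ)| = 1 := by
      rcases Int.units_eq_one_or (Equiv.Perm.sign σ) with h | h <;> rw [h] <;> simp
    rw [h1, one_mul, abs_prod, ← mul_prod_erase _ _ (mem_univ l)]
    refine mul_le_mul ?_ ?_ (prod_nonneg fun _ _ => abs_nonneg _) hε
    · rw [Matrix.updateCol_self]; exact hv _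
    · have h2 : ∀ i ∈ univ.erase l, |(A.updateCol l v) (σ i) i| ≤ M := by
        intro i hi
        rw [Matrix.updateCol_ne (ne_of_mem_erase hi)]
        exact hA _ _
      refine (prod_le_prod (fun _ _ => abs_nonneg _) h2).trans ?_
      rw [prod_const, card_erase_of_mem (mem_univ _), card_univ, Fintype.card_fin]
  refine (sum_le_sum key).trans ?_
  rw [sum_const, card_univ, Fintype.card_perm, Fintype.card_fin, nsmul_eq_mul]

/-- a common denominator -/
theorem exists_common_den {ι κ : Type*} (G : Finset ι) (L : Finset κ) (q : ι → κ → ℚ) :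
    ∃ N : ℕ, 1 ≤ N ∧ ∀ i ∈ G, ∀ l ∈ L, (N : ℚ) * q i l ∈ ZZ := by
  refine ⟨∏ i ∈ G, ∏ l ∈ L, (q i l).den, ?_, ?_⟩
  · exact Nat.one_le_iff_ne_zero.2 (prod_ne_zero_iff.2 fun i _ => prod_ne_zero_iff.2 fun l _ =>
      (q i l).den_nz)
  · intro i hi l hl
    have h1 : (q i l).den ∣ ∏ i ∈ G, ∏ l ∈ L, (q i l).den :=
      (dvd_prod_of_mem (fun l => (q i l).den) hl).trans
        (dvd_prod_of_mem (fun i => ∏ l ∈ L, (q i l).den) hi)
    obtain ⟨c, hc⟩ := h1
    rw [hc]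
    have : ((((q i l).den * c : ℕ) : ℚ)) * q i l = (((q i l).num * c : ℤ) : ℚ) := by
      have h2 : ((q i l).den : ℚ) * q i l = (q i l).num := by
        rw [mul_comm]; exact Rat.mul_den_eq_num _
      push_cast
      linear_combination (c : ℚ) * h2
    rw [this]; exact int_mem_ZZ _

/-- One step: a nonsingular system bounds the numbers from above. -/
theorem det_step {k : ℕ} {A : Matrix (Fin k) (Fin k) ℚ} (hA : A.det ≠ 0) {D : ℕ} (hD : 1 ≤ D)
    (hint : ∀ i j, (D : ℚ) * A i j ∈ ZZ) {M ε : ℝ} (hM : 1 ≤ M)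
    (hb : ∀ i j, |((A i j : ℚ) : ℝ)| ≤ M)
    {v : Fin k → ℝ} (hv : ∀ i, |∑ j, ((A i j : ℚ) : ℝ) * v j| ≤ ε) {κ : ℕ} (hk : k ≤ κ)
    (l : Fin k) :
    |v l| ≤ κ.factorial * ((D : ℝ) ^ κ * M ^ κ * ε) := by
  set B : Matrix (Fin k) (Fin k) ℝ := A.map (Rat.castHom ℝ) with hB
  have hdetB : B.det = ((A.det : ℚ) : ℝ) := by
    rw [hB]
    have := RingHom.map_det (Rat.castHom ℝ) A
    rw [RingHom.mapMatrix_apply] at this
    rw [← this]; rfl
  have h1 : (B.adjugate *ᵥ (B *ᵥ v)) l = B.det * v l := by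
    rw [Matrix.mulVec_mulVec, Matrix.adjugate_mul, Matrix.smul_mulVec, Matrix.one_mulVec]; rfl
  rw [← Matrix.cramer_eq_adjugate_mulVec, Matrix.cramer_apply] at h1
  have h2 : ∀ i, |(B *ᵥ v) i| ≤ ε := hv
  have h3 := abs_det_updateCol_le (A := B) (v := B *ᵥ v) (M := M) (ε := ε)
    (fun i j => hb i j) h2 l
  rw [h1, abs_mul, hdetB] at h3
  have hε : 0 ≤ ε := (abs_nonneg _).trans (h2 l)
  have h4 : (D : ℚ) ^ k * A.det ∈ ZZ := by
    have h5 : ((D : ℚ) • A).det = (D : ℚ) ^ k * A.det := by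
      rw [Matrix.det_smul, Fintype.card_fin]
    rw [← h5]
    exact mem_ZZ_det fun i j => by simpa using hint i j
  have hD0 : (D : ℚ) ≠ 0 := by positivity
  have h5 := one_le_abs_of_mem_ZZ h4 (mul_ne_zero (pow_ne_zero _ hD0) hA)
  rw [Rat.cast_mul, Rat.cast_pow, Rat.cast_natCast, abs_mul, abs_of_nonneg (by positivity)] at h5
  have hD1 : (1 : ℝ) ≤ D := by exact_mod_cast hD
  have h6 : (k.factorial : ℝ) * (ε * M ^ (k - 1)) ≤ κ.factorial * (ε * M ^ κ) := by
    have h7 : (k.factorial : ℝ) ≤ κ.factorial := by exact_mod_cast Nat.factorial_le hk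
    have h8 : M ^ (k - 1) ≤ M ^ κ := pow_le_pow_right₀ hM (by omega)
    have h9 : 0 ≤ M ^ (k - 1) := by positivity
    exact mul_le_mul h7 (mul_le_mul_of_nonneg_left h8 hε) (by positivity) (by positivity)
  have h7 : (D : ℝ) ^ k ≤ (D : ℝ) ^ κ := pow_le_pow_right₀ hD1 hk
  calc |v l| = 1 * |v l| := (one_mul _).symm
    _ ≤ ((D : ℝ) ^ k * |((A.det : ℚ) : ℝ)|) * |v l| :=
        mul_le_mul_of_nonneg_right h5 (abs_nonneg _)
    _ = (D : ℝ) ^ k * (|((A.det : ℚ) : ℝ)| * |v l|) := by ring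
    _ ≤ (D : ℝ) ^ κ * (κ.factorial * (ε * M ^ κ)) :=
        mul_le_mul h7 (h3.trans h6) (by positivity) (by positivity)
    _ = _ := by ring

/-- coordinates of generators in a finite-dimensional space -/
theorem exists_coords {ι : Type*} (G : Finset ι) (g : ι → ℝ) (V : Submodule ℚ ℝ)
    [FiniteDimensional ℚ V] {κ : ℕ} (hκ : finrank ℚ V ≤ κ) (hg : ∀ i ∈ G, g i ∈ V)
    (h0 : ∃ i ∈ G, g i ≠ 0) :
    ∃ k : ℕ, 0 < k ∧ k ≤ κ ∧ ∃ (v : Fin k → ℝ) (q : ι → Fin k → ℚ), (∀ l, v l ≠ 0) ∧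
      (∀ i ∈ G, g i = ∑ l, (q i l : ℝ) * v l) ∧
      ∀ μ : Fin k → ℚ, (∀ i ∈ G, ∑ l, q i l * μ l = 0) → μ = 0 := by
  classical
  set s : Set ℝ := g '' G with hs
  have hfin : s.Finite := (G.finite_toSet).image g
  have : FiniteDimensional ℚ (Submodule.span ℚ s) := FiniteDimensional.span_of_finite ℚ hfin
  have hle : Submodule.span ℚ s ≤ V := by
    rw [Submodule.span_le]
    rintro _ ⟨i, hi, rfl⟩
    exact hg i hi
  set W := Submodule.span ℚ s with hW
  have hgW : ∀ i ∈ G, g i ∈ W := fun i hi => Submodule.subset_span ⟨i, hi, rfl⟩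
  set bas := Module.finBasis ℚ W with hbas
  refine ⟨finrank ℚ W, ?_, (Submodule.finrank_mono hle).trans hκ, fun l => (bas l : ℝ),
    fun i l => if h : i ∈ G then bas.repr ⟨g i, hgW i h⟩ l else 0, ?_, ?_, ?_⟩
  · obtain ⟨i, hi, hi0⟩ := h0
    have : Nontrivial W := ⟨⟨⟨g i, hgW i hi⟩, 0, fun h => hi0 (congrArg Subtype.val h)⟩⟩
    exact Module.finrank_pos
  · intro l h
    have h1 : bas l = 0 := Subtype.ext h
    exact bas.ne_zero l h1
  · intro i hi
    have h1 := bas.sum_repr ⟨g i, hgW i hi⟩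
    have h2 : ((∑ l, (bas.repr ⟨g i, hgW i hi⟩) l • bas l : W) : ℝ) = g i := congrArg Subtype.val h1
    rw [AddSubmonoidClass.coe_finsetSum] at h2
    conv_lhs => rw [← h2]
    refine sum_congr rfl fun l _ => ?_
    simp only
    rw [dif_pos hi, Submodule.coe_smul, Rat.smul_def]
  · intro μ hμ
    set f : W →ₗ[ℚ] ℚ := bas.constr ℚ μ with hf
    have h1 : f = 0 := by
      refine LinearMap.ext_on (Submodule.span_span_coe_preimage (R := ℚ) (s := s)) ?_
      rintro ⟨x, hx⟩ hxs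
      obtain ⟨i, hi, rfl⟩ := hxs
      rw [LinearMap.zero_apply, hf, Module.Basis.constr_apply_fintype]
      rw [← hμ i hi]
      refine sum_congr rfl fun l _ => ?_
      simp only
      rw [dif_pos (show i ∈ G from hi), smul_eq_mul]
      rfl
    funext l
    have h2 : f (bas l) = μ l := by rw [hf, Module.Basis.constr_basis]
    rw [← h2, h1]; rfl

theorem lin_criterion {ι : Type*} (G : Finset ι) (g : ι → ℝ) (V : Submodule ℚ ℝ)
    [FiniteDimensional ℚ V] {κ : ℕ} (hκ : finrank ℚ V ≤ κ) (hg : ∀ i ∈ G, g i ∈ V)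
    (h0 : ∃ i ∈ G, g i ≠ 0) (S : Finset ℕ) (c : ℕ → ℕ → ι → ℚ) (D : ℕ → ℕ) (M ε : ℕ → ℝ)
    (hD : ∀ n, 1 ≤ D n) (hM : ∀ n, 1 ≤ M n)
    (h1 : ∀ᶠ n in Filter.atTop, ∀ s ∈ S, ∀ i ∈ G, (D n : ℚ) * c n s i ∈ ZZ)
    (h2 : ∀ᶠ n in Filter.atTop, ∀ s ∈ S, ∀ i ∈ G, |((c n s i : ℚ) : ℝ)| ≤ M n)
    (h3 : ∀ᶠ n in Filter.atTop, ∀ s ∈ S, |∑ i ∈ G, ((c n s i : ℚ) : ℝ) * g i| ≤ ε n)
    (h4 : ∀ᶠ n in Filter.atTop, ∀ μ : ι → ℚ, (∀ s ∈ S, ∑ i ∈ G, μ i * c n s i = 0) →
      ∀ i ∈ G, μ i = 0)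
    (h5 : Filter.Tendsto (fun n => (D n : ℝ) ^ κ * M n ^ κ * ε n) Filter.atTop (nhds 0)) :
    False := by
  classical
  obtain ⟨k, hk0, hkκ, v, q, hv0, hgq, hspan⟩ := exists_coords G g V hκ hg h0
  obtain ⟨N, hN1, hN⟩ := exists_common_den G (univ : Finset (Fin k)) q
  set C' : ℝ := 1 + ∑ i ∈ G, ∑ l, |(q i l : ℝ)| with hC'
  have hC1 : 1 ≤ C' := by
    have : 0 ≤ ∑ i ∈ G, ∑ l, |(q i l : ℝ)| := sum_nonneg fun i _ => sum_nonneg fun l _ => abs_nonneg _
    linarith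
  have key : ∀ᶠ n in Filter.atTop, |v ⟨0, hk0⟩| ≤ κ.factorial * (((N : ℝ) ^ κ * C' ^ κ) *
      ((D n : ℝ) ^ κ * M n ^ κ * ε n)) := by
    filter_upwards [h1, h2, h3, h4] with n a1 a2 a3 a4
    set row : ℕ → Fin k → ℚ := fun s l => ∑ i ∈ G, c n s i * q i l with hrow
    have hrs : Submodule.span ℚ (row '' S) = ⊤ := by
      by_contra hne
      obtain ⟨f, hf0, hf⟩ := Submodule.exists_le_ker_of_lt_top _ (lt_top_iff_ne_top.2 hne)
      apply hf0
      set μ : Fin k → ℚ := fun l => f (Pi.single l 1) with hμ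
      have hfx : ∀ x : Fin k → ℚ, f x = ∑ l, x l * μ l := by
        intro x
        conv_lhs => rw [LinearMap.pi_apply_eq_sum_univ f x]
        refine sum_congr rfl fun l _ => ?_
        rw [smul_eq_mul, hμ]
        congr 2
        funext j
        rw [Pi.single_apply]
        simp only [eq_comm]
      have hμ0 : μ = 0 := by
        refine hspan μ fun i hi => ?_
        refine a4 (fun i => ∑ l, q i l * μ l) (fun s hs => ?_) i hi
        have h6 : f (row s) = 0 := hf (Submodule.subset_span ⟨s, hs, rfl⟩)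
        rw [hfx] at h6
        rw [← h6]
        simp only [hrow, sum_mul]
        rw [sum_comm]
        refine sum_congr rfl fun l _ => sum_congr rfl fun i _ => ?_
        ring
      refine LinearMap.ext fun x => ?_
      rw [hfx, hμ0]; simp
    obtain ⟨f, hf1, -, hf3⟩ := Submodule.exists_fun_fin_finrank_span_eq ℚ (row '' S)
    have hfin : finrank ℚ (Submodule.span ℚ (row '' S)) = k := by
      rw [hrs, finrank_top, Module.finrank_fin_fun]
    set A : Matrix (Fin k) (Fin k) ℚ := fun i => f (Fin.cast hfin.symm i) with hA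
    have hAli : LinearIndependent ℚ A.row := hf3.comp _ (Fin.cast_injective _)
    have hdet : A.det ≠ 0 := by
      rw [Matrix.linearIndependent_rows_iff_isUnit, Matrix.isUnit_iff_isUnit_det] at hAli
      exact hAli.ne_zero
    have hArow : ∀ i, ∃ s ∈ S, ∀ j, A i j = ∑ i' ∈ G, c n s i' * q i' j := by
      intro i
      obtain ⟨s, hs, hs'⟩ := hf1 (Fin.cast hfin.symm i)
      exact ⟨s, hs, fun j => by rw [hA]; simp only; rw [← hs']⟩
    have h6 := det_step (A := A) hdet (D := N * D n) (Nat.mul_pos hN1 (hD n)) ?_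
      (M := C' * M n) (ε := ε n) (by nlinarith [hM n]) ?_ (v := v) ?_ hkκ ⟨0, hk0⟩
    · refine h6.trans (le_of_eq ?_)
      push_cast
      rw [mul_pow, mul_pow]; ring
    · intro i j
      obtain ⟨s, hs, hs'⟩ := hArow i
      rw [hs', mul_sum]
      refine sum_mem fun i' hi' => ?_
      have : ((N * D n : ℕ) : ℚ) * (c n s i' * q i' j) = ((D n : ℚ) * c n s i') * ((N : ℚ) * q i' j) := by
        push_cast; ring
      rw [this]
      exact mul_mem (a1 s hs i' hi') (hN i' hi' j (mem_univ _))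
    · intro i j
      obtain ⟨s, hs, hs'⟩ := hArow i
      rw [hs', Rat.cast_sum]
      refine (abs_sum_le_sum_abs _ _).trans ?_
      have h7 : ∀ i' ∈ G, |((c n s i' * q i' j : ℚ) : ℝ)| ≤ M n * ∑ l, |(q i' l : ℝ)| := by
        intro i' hi'
        rw [Rat.cast_mul, abs_mul]
        refine mul_le_mul (a2 s hs i' hi') ?_ (abs_nonneg _) (by linarith [hM n])
        exact single_le_sum (f := fun l => |(q i' l : ℝ)|) (fun _ _ => abs_nonneg _) (mem_univ j)
      refine (sum_le_sum h7).trans ?_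
      rw [← mul_sum, mul_comm]
      refine mul_le_mul_of_nonneg_right ?_ (by linarith [hM n])
      linarith
    · intro i
      obtain ⟨s, hs, hs'⟩ := hArow i
      have h7 : ∑ j, ((A i j : ℚ) : ℝ) * v j = ∑ i' ∈ G, ((c n s i' : ℚ) : ℝ) * g i' := by
        simp only [hs', Rat.cast_sum, Rat.cast_mul, sum_mul]
        rw [sum_comm]
        refine sum_congr rfl fun i' hi' => ?_
        rw [hgq i' hi', mul_sum]
        refine sum_congr rfl fun l _ => ?_
        ring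
      rw [h7]
      exact a3 s hs
  have h6 : Filter.Tendsto (fun n => (κ.factorial : ℝ) * (((N : ℝ) ^ κ * C' ^ κ) *
      ((D n : ℝ) ^ κ * M n ^ κ * ε n))) Filter.atTop (nhds 0) := by
    have := (h5.const_mul ((N : ℝ) ^ κ * C' ^ κ)).const_mul (κ.factorial : ℝ)
    simpa using this
  have h7 := ge_of_tendsto h6 key
  have h8 : |v ⟨0, hk0⟩| = 0 := le_antisymm h7 (abs_nonneg _)
  exact hv0 _ (abs_eq_zero.1 h8)

end Pool.Agent.Helper8
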