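import Pool.Agent.Helper8.Ana6
import Pool.Agent.Helper8.Lin

/-! # The main argument for fixed parameters -/

namespace Pool.Agent.Helper8

open Finset PowerSeries

/-- the polynomials used -/
noncomputable def PU (a b r n : ℕ) (T : Finset ℚ) (i : ℕ) : Polynomial ℚ :=
  PP a b r n T * UU n ^ i

theorem natDegree_UU_pow_le (n i : ℕ) : (UU n ^ i).natDegree ≤ i := by
  refine Polynomial.natDegree_pow_le.trans ?_
  have : (UU n).natDegree ≤ 1 := by
    rw [UU]
    refine (Polynomial.natDegree_add_le _ _).trans (max_le ?_ ?_)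
    · refine (Polynomial.natDegree_C_mul_le _ _).trans ?_
      exact Polynomial.natDegree_X_le
    · rw [Polynomial.natDegree_C]; omega
  nlinarith

theorem natDegree_PU_le (a b r n : ℕ) (T : Finset ℚ) (i : ℕ) :
    (PU a b r n T i).natDegree ≤ b * EE r T.card * n + i := by
  rw [PU]
  refine Polynomial.natDegree_mul_le.trans ?_
  have h1 := natDegree_PP a b r n T
  have h2 := natDegree_UU_pow_le n i
  have h3 : b * (T.card * (2 * (r * n) + n) + 2 * (r * n)) = b * EE r T.card * n := by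
    rw [EE]; ring
  omega

theorem UU_comp (n : ℕ) : (UU n).comp (refl n) = -UU n := by
  rw [UU, refl]
  simp only [Polynomial.add_comp, Polynomial.mul_comp, Polynomial.C_comp, Polynomial.X_comp]
  have : (Polynomial.C (2 : ℚ) : Polynomial ℚ) = 1 + 1 := by
    rw [← Polynomial.C_1, ← Polynomial.C_add]; norm_num
  rw [this]; ring

theorem PU_symm {a b r n : ℕ} (hn : Even n) (F : Finset ℕ) {i : ℕ} (hi : Even i) :
    (PU a b r n (TT F) i).comp (refl n) = PU a b r n (TT F) i := by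
  rw [PU, Polynomial.mul_comp, PP_symm hn, Polynomial.pow_comp, UU_comp, hi.neg_pow]

theorem rho_eq_zero {a b n e : ℕ} (ha : Odd a) (hn : Even n) {P : Polynomial ℚ}
    (hP : P.comp (refl n) = P) (hd : P.natDegree + 1 < a * (n + 1)) (he : e < a)
    (h : ¬ (0 < e ∧ Even e)) : rho a b n P e = 0 := by
  rw [rho]
  have h1 : ∑ j ∈ range (n + 1), cc a n P e j = 0 := by
    rcases Nat.eq_zero_or_pos e with h0 | h0
    · rw [h0]; exact sum_residues ha.pos hd
    · have ho : Odd e := by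
        rw [← Nat.not_even_iff_odd]; exact fun h2 => h ⟨h0, h2⟩
      have h2 := sum_cc_reflect ha hn P he
      have h3 : (-Polynomial.C (n : ℚ) - Polynomial.X) = refl n := by rw [refl]
      rw [h3, hP, ho.neg_one_pow] at h2
      linarith
  rw [h1, mul_zero]

theorem PU_cc_integral {a b r n D : ℕ} (T : Finset ℚ)
    (hD : ∀ e : ℕ, 1 ≤ e → e ≤ n → e ∣ D) (i : ℕ) {e j : ℕ} (hj : j ≤ n) :
    (D : ℚ) ^ (a - 1 - e) * cc a n (PU a b r n T i) e j ∈ ZZ := by
  refine cc_integral hD (P' := num b r n T * UU n ^ i) (fun j _ => ?_) ?_ hj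
  · rw [map_mul, map_pow, atp_UU]
    refine mul_mem (atp_num_mem_RD T hD j) (pow_mem ?_ _)
    refine add_mem (C_mem_RD ?_) (mul_mem (C_mem_RD ?_) X_mem_RD)
    · have := int_mem_ZZ (2 * (-(j : ℤ)) + n)
      push_cast at this; exact this
    · have := int_mem_ZZ 2
      push_cast at this; exact this
  · rw [PU, PP]; ring

/-- elimination weights -/
theorem exists_weights (F I : Finset ℕ) (h : I.card < F.card) :
    ∃ w : ℕ → ℚ, (∃ d ∈ F, w d ≠ 0) ∧ (∀ d, w d ∈ ZZ) ∧
      ∀ i ∈ I, ∑ d ∈ F, w d * (d : ℚ) ^ i = 0 := by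
  classical
  set f : (F → ℚ) →ₗ[ℚ] (I → ℚ) :=
    LinearMap.pi fun i => ∑ d : F, ((d : ℕ) : ℚ) ^ (i : ℕ) • LinearMap.proj d with hf
  have h1 : LinearMap.ker f ≠ ⊥ := by
    apply LinearMap.ker_ne_bot_of_finrank_lt
    rw [Module.finrank_fintype_fun_eq_card, Module.finrank_fintype_fun_eq_card,
      Fintype.card_coe, Fintype.card_coe]
    exact h
  obtain ⟨u, hu, hu0⟩ := Submodule.exists_mem_ne_zero_of_ne_bot h1
  obtain ⟨d0, hd0⟩ := Function.ne_iff.1 hu0
  obtain ⟨N, hN1, hN⟩ := exists_common_den (univ : Finset F) ({()} : Finset Unit) fun d _ => u d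
  refine ⟨fun d => if h : d ∈ F then N * u ⟨d, h⟩ else 0, ⟨d0, d0.2, ?_⟩, ?_, ?_⟩
  · have : (N : ℚ) ≠ 0 := by positivity
    simp only [d0.2, dif_pos]
    exact mul_ne_zero this hd0
  · intro d
    simp only
    split_ifs with hd
    · exact hN ⟨d, hd⟩ (mem_univ _) () (mem_singleton_self _)
    · exact ZZ.zero_mem
  · intro i hi
    have h2 := congrFun (LinearMap.mem_ker.1 hu) ⟨i, hi⟩
    rw [hf] at h2
    simp only [LinearMap.pi_apply, LinearMap.sum_apply, LinearMap.smul_apply, LinearMap.proj_apply,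
      smul_eq_mul, Pi.zero_apply] at h2
    rw [← sum_coe_sort F]
    have h3 : ∀ d : F, (if h : (d : ℕ) ∈ F then (N : ℚ) * u ⟨d, h⟩ else 0) * ((d : ℕ) : ℚ) ^ i =
        N * (((d : ℕ) : ℚ) ^ i * u d) := by
      intro d
      rw [dif_pos d.2]; ring
    rw [sum_congr rfl fun d _ => h3 d, ← mul_sum, h2, mul_zero]

end Pool.Agent.Helper8
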