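import Pool.Agent.Helper8.Core

/-! # The main argument for fixed parameters, second part -/

namespace Pool.Agent.Helper8

open Finset

/-- the combined form -/
theorem sum_forms {a b r n : ℕ} {F : Finset ℕ} (ha : Odd a) (hb : 2 ≤ b) (hn : Even n)
    {i : ℕ} (hi : Even i) (hd : b * EE r (TT F).card * n + i + 1 < a * (n + 1))
    (hF : ∀ d ∈ F, 0 < d) (w : ℕ → ℚ) (W : ℕ → ℚ)
    (hW : ∀ e, W e = ∑ d ∈ F, w d * (d : ℚ) ^ (e + b)) :
    ∑ d ∈ F, (w d : ℝ) * Sd a b n (PU a b r n (TT F) i) d =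
      ((∑ d ∈ F, w d * rho0 a b n (PU a b r n (TT F) i) d : ℚ) : ℝ) +
        ∑ e ∈ (Ev a).filter fun e => W e ≠ 0,
          ((rho a b n (PU a b r n (TT F) i) e * W e : ℚ) : ℝ) * zt (e + b) := by
  have hdeg := natDegree_PU_le a b r n (TT F) i
  have h1 : ∀ d ∈ F, (w d : ℝ) * Sd a b n (PU a b r n (TT F) i) d =
      ∑ e ∈ range a, ((rho a b n (PU a b r n (TT F) i) e : ℚ) : ℝ) *
        ((w d : ℝ) * (d : ℝ) ^ (e + b)) * zt (e + b) +
        (w d : ℝ) * ((rho0 a b n (PU a b r n (TT F) i) d : ℚ) : ℝ) := by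
    intro d hdF
    rw [Sd_eq ha.pos hb (by omega) (hF d hdF), mul_add, mul_sum]
    congr 1
    refine sum_congr rfl fun e _ => ?_
    ring
  rw [sum_congr rfl h1, sum_add_distrib, sum_comm, add_comm]
  congr 1
  · push_cast; rfl
  · have h2 : ∀ e ∈ range a, ∑ d ∈ F, ((rho a b n (PU a b r n (TT F) i) e : ℚ) : ℝ) *
        ((w d : ℝ) * (d : ℝ) ^ (e + b)) * zt (e + b) =
        ((rho a b n (PU a b r n (TT F) i) e * W e : ℚ) : ℝ) * zt (e + b) := by
      intro e _
      rw [← sum_mul, ← mul_sum, hW]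
      push_cast; rfl
    rw [sum_congr rfl h2]
    symm
    apply sum_subset_zero_on_sdiff
    · intro e he
      rw [mem_filter, mem_Ev] at he
      exact mem_range.2 he.1.1
    · intro e he
      rw [mem_sdiff, mem_range, mem_filter, mem_Ev] at he
      by_cases h0 : W e = 0
      · rw [h0]; simp
      · rw [rho_eq_zero ha hn (PU_symm hn F hi) (by omega) he.1 fun h3 => he.2 ⟨⟨he.1, h3⟩, h0⟩]
        simp
    · intro _ _; rfl

theorem core {m r A b κ a : ℕ} (hm : 1 ≤ m) (hr : 1 ≤ r) (hA : 1 ≤ A) (hb : 2 ≤ b) (hbo : Odd b)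
    {F : Finset ℕ} (hF : ∀ d ∈ F, 0 < d ∧ d ≤ m)
    (haA : a = A + b * EE r (TT F).card) (hao : Odd a)
    (hgap : (256 ^ (a + b) * betaC m r a b (TT F).card) ^ κ * betaV m r A b (TT F).card < 1)
    (V : Submodule ℚ ℝ) [FiniteDimensional ℚ V] (hκ : Module.finrank ℚ V ≤ κ) (h1V : (1 : ℝ) ∈ V)
    {I : Finset ℕ} (hI : I.card < F.card) (hV : ∀ e ∈ Ev a, e + b ∉ I → zt (e + b) ∈ V) :
    False := by
  classical
  obtain ⟨w, hw, hwZ, hwI⟩ := exists_weights F I hI
  set T := TT F with hT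
  set t := T.card with ht
  set W : ℕ → ℚ := fun e => ∑ d ∈ F, w d * (d : ℚ) ^ (e + b) with hW
  have hWZ : ∀ e, W e ∈ ZZ := fun e => sum_mem fun d _ => mul_mem (hwZ d) (pow_mem (nat_mem_ZZ d) _)
  set K1 := (a - 1) + (t + 2) * b with hK1
  set S := (range K1).filter Even with hS
  set E1 := (Ev a).filter fun e => W e ≠ 0 with hE1
  have h0E1 : (0 : ℕ) ∉ E1 := by
    intro h
    rw [hE1, mem_filter, mem_Ev] at h
    exact absurd h.1.2.1 (lt_irrefl 0)
  set G : Finset ℕ := insert 0 E1 with hG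
  set g : ℕ → ℝ := fun i => if i = 0 then 1 else zt (i + b) with hg
  set nn : ℕ → ℕ := fun k => 2 * k + 1 + 1 with hnn
  set c : ℕ → ℕ → ℕ → ℚ := fun k s i =>
    if i = 0 then ∑ d ∈ F, w d * rho0 a b (nn k) (PU a b r (nn k) T s) d
    else rho a b (nn k) (PU a b r (nn k) T s) i * W i with hc
  set βC := betaC m r a b t with hβC
  set βV := betaV m r A b t with hβV
  set H : ℕ → ℝ := fun n => ((polyH m (EE r t) a b K1 n : ℕ) : ℝ) with hH
  set Gp : ℕ → ℝ := fun n => ((polyG m (EE r t) a b r K1 n : ℕ) : ℝ) with hGp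
  set w1 : ℝ := ∑ d ∈ F, |(w d : ℝ)| with hw1
  set w2 : ℝ := ∑ e ∈ range a, |(W e : ℝ)| with hw2
  set Q : ℕ → ℝ := fun n => w1 * (((n : ℝ) + 1) * ((m * n) * (a * ((2 * m) ^ (a + b) * H n)))) +
    w2 * (2 ^ (a + b) * (((n : ℝ) + 1) * H n)) with hQ
  have hm1 : (1 : ℝ) ≤ m := by exact_mod_cast hm
  have hr1 : (1 : ℝ) ≤ r := by exact_mod_cast hr
  have hβC1 : 1 ≤ βC := by
    rw [hβC, betaC]
    have e1 : (1 : ℝ) ≤ 2 ^ a := one_le_pow₀ (by norm_num)
    have e2 : (1 : ℝ) ≤ (3 * ((r : ℝ) + 2)) ^ (b * EE r t) := one_le_pow₀ (by linarith)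
    have e3 : (1 : ℝ) ≤ (m : ℝ) ^ (2 * (t * (2 * r + 1)) * b) := one_le_pow₀ hm1
    nlinarith [mul_le_mul e1 e2 zero_le_one (by positivity)]
  have hβV0 : 0 ≤ βV := by rw [hβV, betaV]; positivity
  have hH0 : ∀ n, 0 ≤ H n := fun n => by rw [hH]; positivity
  have hG0 : ∀ n, 0 ≤ Gp n := fun n => by rw [hGp]; positivity
  have hw10 : 0 ≤ w1 := sum_nonneg fun _ _ => abs_nonneg _
  have hw20 : 0 ≤ w2 := sum_nonneg fun _ _ => abs_nonneg _
  have hQ0 : ∀ n, 0 ≤ Q n := fun n => by
    rw [hQ]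
    have := hH0 n
    positivity
  have hnk : ∀ k, Even (nn k) := fun k => ⟨k + 1, by rw [hnn]; ring⟩
  have hnpos : ∀ k, 1 ≤ nn k := fun k => by simp only [hnn]; omega
  have hlarge : ∀ᶠ k in Filter.atTop, K1 + 2 + (t + 2) * b ≤ nn k := by
    filter_upwards [Filter.eventually_ge_atTop (K1 + 2 + (t + 2) * b)] with k hk
    rw [hnn]; simp only; omega
  have hFpos : ∀ d ∈ F, 0 < d := fun d hd => (hF d hd).1
  have hdegs : ∀ k, K1 + 2 + (t + 2) * b ≤ nn k → b * EE r t * nn k + K1 < a * (nn k + 1) := by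
    intro k hk
    rw [haA]
    have h1 : (A + b * EE r t) * (nn k + 1) = b * EE r t * nn k + A * nn k + (A + b * EE r t) := by
      ring
    have h2 : nn k ≤ A * nn k := Nat.le_mul_of_pos_left _ hA
    have h3 : a - 1 < A + b * EE r t := by
      have := hao.pos
      omega
    omega
  refine lin_criterion G g V hκ ?_ ⟨0, mem_insert_self _ _, by rw [hg]; simp⟩ S c
    (fun k => Nat.lcmUpto (nn k) ^ (a + b - 1)) (fun k => (1 + Q (nn k)) * βC ^ (nn k))
    (fun k => w1 * (2 * m ^ 2 * Gp (nn k) * βV ^ (nn k))) ?_ ?_ ?_ ?_ ?_ ?_ ?_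
  · -- generators in V
    intro i hi
    rw [hG, mem_insert] at hi
    rcases hi with rfl | hi
    · rw [hg]; simpa using h1V
    · have hi0 : i ≠ 0 := fun h => h0E1 (h ▸ hi)
      rw [hg]
      simp only [hi0, if_false]
      rw [hE1, mem_filter] at hi
      exact hV i hi.1 fun h => hi.2 (hwI _ h)
  · intro k
    exact Nat.one_le_pow _ _ (Nat.lcmUpto_pos _)
  · intro k
    have h1 := hQ0 (nn k)
    have h2 : 1 ≤ βC ^ (nn k) := one_le_pow₀ hβC1
    nlinarith
  · -- integrality
    filter_upwards [hlarge] with k hk s hs i hi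
    rw [hS, mem_filter, mem_range] at hs
    have hdeg := natDegree_PU_le a b r (nn k) T s
    rw [← ht] at hdeg
    have hdk := hdegs k hk
    have hcc : ∀ e < a, ∀ j ≤ nn k, ((Nat.lcmUpto (nn k) : ℕ) : ℚ) ^ (a - 1 - e) *
        cc a (nn k) (PU a b r (nn k) T s) e j ∈ ZZ := fun e _ j hj =>
      PU_cc_integral T (goodD_lcmUpto (nn k)).dvd s hj
    rw [hc]
    simp only
    rw [Nat.cast_pow]
    by_cases hi0 : i = 0
    · rw [if_pos hi0, mul_sum]
      refine sum_mem fun d hd => ?_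
      have h1 := rho0_integral (b := b) hao.pos (by omega) (goodD_lcmUpto (nn k)) (by omega) hcc
        (hFpos d hd) (P := PU a b r (nn k) T s) (fun j hj q hq0 hq hdq => ?_)
      · have h2 : ((Nat.lcmUpto (nn k) : ℕ) : ℚ) ^ (a + b - 1) *
            (w d * rho0 a b (nn k) (PU a b r (nn k) T s) d) = w d *
            (((Nat.lcmUpto (nn k) : ℕ) : ℚ) ^ (a + b - 1) *
              rho0 a b (nn k) (PU a b r (nn k) T s) d) := by ring
        rw [h2]
        exact mul_mem (hwZ d) h1
      · rw [PU]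
        refine gval_zero_frac (by omega) (zeroPat_PP a b r (nn k) (hnpos k) F) hd (hFpos d hd) hdq
          (hj.trans ((Nat.le_add_left _ _).trans (Nat.le_add_right _ _))) ?_
        have h5 : q / d < j := by
          rw [Nat.div_lt_iff_lt_mul (hFpos d hd), mul_comm]; exact hq
        exact h5.trans_le (Nat.le_add_left _ _)
    · rw [if_neg hi0]
      rw [hG, mem_insert] at hi
      have hi' := hi.resolve_left hi0
      rw [hE1, mem_filter, mem_Ev] at hi'
      have h1 := rho_integral (b := b) hcc hi'.1.1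
      rw [← mul_assoc]
      exact mul_mem h1 (hWZ i)
  · -- size of the coefficients
    filter_upwards [hlarge] with k hk s hs i hi
    rw [hS, mem_filter, mem_range] at hs
    set n := nn k with hn
    have hTT : ∀ θ ∈ T, 0 < θ ∧ θ < 1 := fun θ hθ => TT_pos_lt hθ
    have hTm : ∀ θ ∈ T, θ.den ≤ m := fun θ hθ => den_le_of_mem_TT (fun d hd => (hF d hd).2) hθ
    have hCc0 : 0 ≤ H n * βC ^ n := mul_nonneg (hH0 n) (by positivity)
    have hcc : ∀ e < a, ∀ j ≤ n, |((cc a n (PU a b r n T s) e j : ℚ) : ℝ)| ≤ H n * βC ^ n :=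
      fun e _ j hj => abs_cc_le hTT hTm hm hr (hnpos k) hao.pos hj hs.1.le
    have hβn : 0 ≤ βC ^ n := by positivity
    rw [hc]
    simp only
    by_cases hi0 : i = 0
    · rw [if_pos hi0, Rat.cast_sum]
      refine (abs_sum_le_sum_abs _ _).trans ?_
      have h1 : ∀ d ∈ F, |((w d * rho0 a b n (PU a b r n T s) d : ℚ) : ℝ)| ≤
          |(w d : ℝ)| * ((n + 1) * ((m * n) * (a * ((2 * m) ^ (a + b) * (H n * βC ^ n))))) := by
        intro d hd
        rw [Rat.cast_mul, abs_mul]
        exact mul_le_mul_of_nonneg_left (abs_rho0_le hCc0 (hFpos d hd) (hF d hd).2 hcc)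
          (abs_nonneg _)
      refine (sum_le_sum h1).trans ?_
      rw [← sum_mul, ← hw1]
      have h2 : 0 ≤ w2 * (2 ^ (a + b) * (((n : ℝ) + 1) * H n)) := by
        have := hH0 n; positivity
      have h3 : w1 * ((n + 1) * ((m * n) * (a * ((2 * m) ^ (a + b) * (H n * βC ^ n))))) =
          (w1 * (((n : ℝ) + 1) * ((m * n) * (a * ((2 * m) ^ (a + b) * H n))))) * βC ^ n := by ring
      rw [h3]
      refine mul_le_mul_of_nonneg_right ?_ hβn
      rw [hQ]
      simp only
      linarith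
    · rw [if_neg hi0]
      rw [hG, mem_insert] at hi
      have hi' := hi.resolve_left hi0
      rw [hE1, mem_filter, mem_Ev] at hi'
      rw [Rat.cast_mul, abs_mul]
      have h1 := abs_rho_le (b := b) hCc0 hi'.1.1 fun j hj => hcc i hi'.1.1 j hj
      have h2 : |(W i : ℝ)| ≤ w2 :=
        single_le_sum (f := fun e => |(W e : ℝ)|) (fun _ _ => abs_nonneg _) (mem_range.2 hi'.1.1)
      refine (mul_le_mul h1 h2 (abs_nonneg _) (by positivity)).trans ?_
      have h3 : 2 ^ (a + b) * (((n : ℝ) + 1) * (H n * βC ^ n)) * w2 =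
          (w2 * (2 ^ (a + b) * (((n : ℝ) + 1) * H n))) * βC ^ n := by ring
      rw [h3]
      refine mul_le_mul_of_nonneg_right ?_ hβn
      rw [hQ]
      simp only
      have h2 : 0 ≤ w1 * (((n : ℝ) + 1) * ((m * n) * (a * ((2 * m) ^ (a + b) * H n)))) := by
        have := hH0 n; positivity
      linarith
  · -- size of the forms
    filter_upwards [hlarge] with k hk s hs
    rw [hS, mem_filter, mem_range] at hs
    have hdk := hdegs k hk
    have h1 := sum_forms (r := r) hao hb (hnk k) hs.2 (by rw [← hT, ← ht]; omega) hFpos w W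
      (fun e => rfl)
    rw [← hT] at h1
    have h2 : ∑ i ∈ G, ((c k s i : ℚ) : ℝ) * g i =
        ∑ d ∈ F, (w d : ℝ) * Sd a b (nn k) (PU a b r (nn k) T s) d := by
      rw [h1, hG, sum_insert h0E1]
      congr 1
      · simp only [hc, hg, if_true, mul_one]
      · refine sum_congr rfl fun i hi => ?_
        have hi0 : i ≠ 0 := fun h => h0E1 (h ▸ hi)
        rw [hc, hg]
        simp only [hi0, if_false]
    rw [h2]
    refine (abs_sum_le_sum_abs _ _).trans ?_
    have h3 : ∀ d ∈ F, |(w d : ℝ) * Sd a b (nn k) (PU a b r (nn k) T s) d| ≤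
        |(w d : ℝ)| * (2 * m ^ 2 * Gp (nn k) * βV ^ (nn k)) := by
      intro d hd
      rw [abs_mul]
      refine mul_le_mul_of_nonneg_left ?_ (abs_nonneg _)
      have h4 := abs_Sd_PP_le (m := m) (r := r) (n := nn k) (A := A) (b := b) (i := s) (K := K1)
        (F := F) hF hm hr (hnpos k) (by omega) hs.1.le (by
          have : nn k ≤ A * nn k := Nat.le_mul_of_pos_left _ hA
          omega) hd
      rw [← hT, ← ht, ← haA] at h4
      exact h4
    refine (sum_le_sum h3).trans (le_of_eq ?_)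
    rw [← sum_mul]
  · -- nonvanishing
    filter_upwards [hlarge] with k hk μ hμ
    have hdk := hdegs k hk
    have S0 : Setup a b (2 * k + 1) (r * (2 * k + 1 + 1)) T (PP a b r (2 * k + 1 + 1) T) :=
      { ha := hao
        hb := hbo
        hn := hnk k
        hZ := zeroPat_PP a b r (2 * k + 1 + 1) (by omega) F
        hdeg := by
          have h1 := natDegree_PP a b r (2 * k + 1 + 1) T
          have h3 : b * (T.card * (2 * (r * (2 * k + 1 + 1)) + (2 * k + 1 + 1)) +
              2 * (r * (2 * k + 1 + 1))) = b * EE r t * (2 * k + 1 + 1) := by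
            rw [EE]; ring
          rw [h1, h3]
          exact hdk
        hsym := PP_symm (hnk k) F }
    have h1 := nv_functional S0 (F := F) hFpos
      (fun d hd q hq0 hqd => mem_TT.2 ⟨d, hd, q, hq0, hqd, rfl⟩) hw (μ 0)
      (fun e => if W e ≠ 0 then μ e * (W e * ((-1) ^ (b - 1) * ((e + (b - 1)).choose e : ℚ))) else 0)
      (fun s hs hse => ?_)
    · intro i hi
      rw [hG, mem_insert] at hi
      rcases hi with rfl | hi
      · exact h1.1
      · rw [hE1, mem_filter] at hi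
        have h2 := h1.2 i hi.1
        rw [if_pos hi.2] at h2
        have h3 : (W i * ((-1) ^ (b - 1) * ((i + (b - 1)).choose i : ℚ))) ≠ 0 := by
          refine mul_ne_zero hi.2 (mul_ne_zero (pow_ne_zero _ (by norm_num)) ?_)
          have := Nat.choose_pos (Nat.le_add_right i (b - 1))
          positivity
        exact (mul_eq_zero.1 h2).resolve_right h3
    · have h2 := hμ s (by rw [hS, mem_filter, mem_range]; exact ⟨hs, hse⟩)
      rw [hG, sum_insert h0E1] at h2
      refine Eq.trans ?_ h2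
      congr 1
      rw [hE1, sum_filter]
      refine sum_congr rfl fun e he => ?_
      have he0 : e ≠ 0 := by
        rw [mem_Ev] at he; omega
      by_cases hWe : W e ≠ 0
      · rw [if_pos hWe, if_pos hWe, hc]
        simp only [he0, if_false]
        rw [rho, PU]
        ring
      · rw [if_neg hWe, if_neg hWe, zero_mul]
  · -- the limit
    set θ : ℝ := (256 ^ (a + b) * βC) ^ κ * βV with hθ
    have hθ0 : 0 ≤ θ := by positivity
    have hPBH : PB H := PB_polyH m (EE r t) a b K1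
    have hPBG : PB Gp := PB_polyG m (EE r t) a b r K1
    have hPBQ : PB Q := by
      refine PB.add ((PB.const w1).mul ((PB.id.add (PB.const 1)).mul
        (((PB.const _).mul PB.id).mul ((PB.const _).mul ((PB.const _).mul hPBH))))) ?_
      exact (PB.const w2).mul ((PB.const _).mul ((PB.id.add (PB.const 1)).mul hPBH))
    have hPB : PB fun n => (1 + Q n) ^ κ * (w1 * (2 * m ^ 2 * Gp n)) :=
      (((PB.const 1).add hPBQ).pow κ).mul ((PB.const w1).mul ((PB.const _).mul hPBG))
    have h1 := (hPB.tendsto hθ0 hgap).comp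
      (Filter.tendsto_atTop_mono (fun k => (by simp only [hnn]; omega : k ≤ nn k))
        Filter.tendsto_id)
    refine squeeze_zero (fun k => ?_) (fun k => ?_) h1
    · have h2 := hQ0 (nn k)
      have h3 := hG0 (nn k)
      positivity
    · have h2 := hQ0 (nn k)
      have h3 := hG0 (nn k)
      set n := nn k with hn
      have hD : ((Nat.lcmUpto n ^ (a + b - 1) : ℕ) : ℝ) ≤ (256 ^ n) ^ (a + b) := by
        rw [Nat.cast_pow]
        have h4 := lcmUpto_le n
        have h5 : (1 : ℝ) ≤ 256 ^ n := one_le_pow₀ (by norm_num)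
        exact (pow_le_pow_left₀ (by positivity) h4 _).trans (pow_le_pow_right₀ h5 (by omega))
      have hDκ := pow_le_pow_left₀ (by positivity) hD κ
      simp only [Function.comp]
      calc ((Nat.lcmUpto n ^ (a + b - 1) : ℕ) : ℝ) ^ κ * ((1 + Q n) * βC ^ n) ^ κ *
            (w1 * (2 * m ^ 2 * Gp n * βV ^ n))
          ≤ ((256 ^ n) ^ (a + b)) ^ κ * ((1 + Q n) * βC ^ n) ^ κ *
            (w1 * (2 * m ^ 2 * Gp n * βV ^ n)) := by
            refine mul_le_mul_of_nonneg_right (mul_le_mul_of_nonneg_right hDκ ?_) ?_ <;> positivity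
        _ = (1 + Q n) ^ κ * (w1 * (2 * m ^ 2 * Gp n)) * θ ^ n := by
            rw [hθ]
            have e1 : (((256 : ℝ) ^ n) ^ (a + b)) ^ κ = ((256 ^ (a + b)) ^ κ) ^ n := by
              rw [← pow_mul, ← pow_mul, ← pow_mul, ← pow_mul]; congr 1; ring
            have e2 : ((1 + Q n) * βC ^ n) ^ κ = (1 + Q n) ^ κ * (βC ^ κ) ^ n := by
              rw [mul_pow, ← pow_mul, ← pow_mul, mul_comm n κ]
            rw [e1, e2, mul_pow _ βV, mul_pow _ βC, mul_pow _ (βC ^ κ)]
            ring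

end Pool.Agent.Helper8
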