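import Pool.Agent.Helper8.Par
import Pool.Agent.PNT.Main

/-! # The main argument with a general bound for the common multiples -/

namespace Pool.Agent.Helper8

open Finset

theorem coreG {m r A b κ a : ℕ} {g CG : ℝ} (hg1 : 1 ≤ g) (hCG1 : 1 ≤ CG)
    (hlcm : ∀ n : ℕ, (Nat.lcmUpto n : ℝ) ≤ CG * g ^ n) (hm : 1 ≤ m) (hr : 1 ≤ r) (hA : 1 ≤ A) (hb : 2 ≤ b) (hbo : Odd b)
    {F : Finset ℕ} (hF : ∀ d ∈ F, 0 < d ∧ d ≤ m)
    (haA : a = A + b * EE r (TT F).card) (hao : Odd a)
    (hgap : (g ^ (a + b) * betaC m r a b (TT F).card) ^ κ * betaV m r A b (TT F).card < 1)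
    (V : Submodule ℚ ℝ) [FiniteDimensional ℚ V] (hκ : Module.finrank ℚ V ≤ κ) (h1V : (1 : ℝ) ∈ V)
    {I : Finset ℕ} (hI : I.card < F.card) (hV : ∀ e ∈ Ev a, e + b ∉ I → zt (e + b) ∈ V) :
    False := by
  classical
  obtain ⟨w, hw, hwZ, hwI⟩ := exists_weights F I hI
  set T := TT F with hT
  set t := T.card with ht
  set W : ℕ → ℚ := fun e => ∑ d ∈ F, w d * (d : ℚ) ^ (e + b) with hW
  have hWZ : ∀ e, W e ∈ ZZ := fun e => sum_mem fun d _ => mul_mem (hwZ d) (pow_mem (nat_mem_ZZ d) _)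
  set K1 := (a - 1) + (t + 2) * b with hK1
  set S := (range K1).filter Even with hS
  set E1 := (Ev a).filter fun e => W e ≠ 0 with hE1
  have h0E1 : (0 : ℕ) ∉ E1 := by
    intro h
    rw [hE1, mem_filter, mem_Ev] at h
    exact absurd h.1.2.1 (lt_irrefl 0)
  set G : Finset ℕ := insert 0 E1 with hG
  set gg : ℕ → ℝ := fun i => if i = 0 then 1 else zt (i + b) with hgg
  set nn : ℕ → ℕ := fun k => 2 * k + 1 + 1 with hnn
  set c : ℕ → ℕ → ℕ → ℚ := fun k s i =>
    if i = 0 then ∑ d ∈ F, w d * rho0 a b (nn k) (PU a b r (nn k) T s) d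
    else rho a b (nn k) (PU a b r (nn k) T s) i * W i with hc
  set βC := betaC m r a b t with hβC
  set βV := betaV m r A b t with hβV
  set H : ℕ → ℝ := fun n => ((polyH m (EE r t) a b K1 n : ℕ) : ℝ) with hH
  set Gp : ℕ → ℝ := fun n => ((polyG m (EE r t) a b r K1 n : ℕ) : ℝ) with hGp
  set w1 : ℝ := ∑ d ∈ F, |(w d : ℝ)| with hw1
  set w2 : ℝ := ∑ e ∈ range a, |(W e : ℝ)| with hw2
  set Q : ℕ → ℝ := fun n => w1 * (((n : ℝ) + 1) * ((m * n) * (a * ((2 * m) ^ (a + b) * H n)))) +
    w2 * (2 ^ (a + b) * (((n : ℝ) + 1) * H n)) with hQ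
  have hm1 : (1 : ℝ) ≤ m := by exact_mod_cast hm
  have hr1 : (1 : ℝ) ≤ r := by exact_mod_cast hr
  have hβC1 : 1 ≤ βC := by
    rw [hβC, betaC]
    have e1 : (1 : ℝ) ≤ 2 ^ a := one_le_pow₀ (by norm_num)
    have e2 : (1 : ℝ) ≤ (3 * ((r : ℝ) + 2)) ^ (b * EE r t) := one_le_pow₀ (by linarith)
    have e3 : (1 : ℝ) ≤ (m : ℝ) ^ (2 * (t * (2 * r + 1)) * b) := one_le_pow₀ hm1
    nlinarith [mul_le_mul e1 e2 zero_le_one (by positivity)]
  have hβV0 : 0 ≤ βV := by rw [hβV, betaV]; positivity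
  have hH0 : ∀ n, 0 ≤ H n := fun n => by rw [hH]; positivity
  have hG0 : ∀ n, 0 ≤ Gp n := fun n => by rw [hGp]; positivity
  have hw10 : 0 ≤ w1 := sum_nonneg fun _ _ => abs_nonneg _
  have hw20 : 0 ≤ w2 := sum_nonneg fun _ _ => abs_nonneg _
  have hQ0 : ∀ n, 0 ≤ Q n := fun n => by
    rw [hQ]
    have := hH0 n
    positivity
  have hnk : ∀ k, Even (nn k) := fun k => ⟨k + 1, by rw [hnn]; ring⟩
  have hnpos : ∀ k, 1 ≤ nn k := fun k => by simp only [hnn]; omega
  have hlarge : ∀ᶠ k in Filter.atTop, K1 + 2 + (t + 2) * b ≤ nn k := by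
    filter_upwards [Filter.eventually_ge_atTop (K1 + 2 + (t + 2) * b)] with k hk
    rw [hnn]; simp only; omega
  have hFpos : ∀ d ∈ F, 0 < d := fun d hd => (hF d hd).1
  have hdegs : ∀ k, K1 + 2 + (t + 2) * b ≤ nn k → b * EE r t * nn k + K1 < a * (nn k + 1) := by
    intro k hk
    rw [haA]
    have h1 : (A + b * EE r t) * (nn k + 1) = b * EE r t * nn k + A * nn k + (A + b * EE r t) := by
      ring
    have h2 : nn k ≤ A * nn k := Nat.le_mul_of_pos_left _ hA
    have h3 : a - 1 < A + b * EE r t := by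
      have := hao.pos
      omega
    omega
  refine lin_criterion G gg V hκ ?_ ⟨0, mem_insert_self _ _, by rw [hgg]; simp⟩ S c
    (fun k => Nat.lcmUpto (nn k) ^ (a + b - 1)) (fun k => (1 + Q (nn k)) * βC ^ (nn k))
    (fun k => w1 * (2 * m ^ 2 * Gp (nn k) * βV ^ (nn k))) ?_ ?_ ?_ ?_ ?_ ?_ ?_
  · -- generators in V
    intro i hi
    rw [hG, mem_insert] at hi
    rcases hi with rfl | hi
    · rw [hgg]; simpa using h1V
    · have hi0 : i ≠ 0 := fun h => h0E1 (h ▸ hi)
      rw [hgg]
      simp only [hi0, if_false]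
      rw [hE1, mem_filter] at hi
      exact hV i hi.1 fun h => hi.2 (hwI _ h)
  · intro k
    exact Nat.one_le_pow _ _ (Nat.lcmUpto_pos _)
  · intro k
    have h1 := hQ0 (nn k)
    have h2 : 1 ≤ βC ^ (nn k) := one_le_pow₀ hβC1
    nlinarith
  · -- integrality
    filter_upwards [hlarge] with k hk s hs i hi
    rw [hS, mem_filter, mem_range] at hs
    have hdeg := natDegree_PU_le a b r (nn k) T s
    rw [← ht] at hdeg
    have hdk := hdegs k hk
    have hcc : ∀ e < a, ∀ j ≤ nn k, ((Nat.lcmUpto (nn k) : ℕ) : ℚ) ^ (a - 1 - e) *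
        cc a (nn k) (PU a b r (nn k) T s) e j ∈ ZZ := fun e _ j hj =>
      PU_cc_integral T (goodD_lcmUpto (nn k)).dvd s hj
    rw [hc]
    simp only
    rw [Nat.cast_pow]
    by_cases hi0 : i = 0
    · rw [if_pos hi0, mul_sum]
      refine sum_mem fun d hd => ?_
      have h1 := rho0_integral (b := b) hao.pos (by omega) (goodD_lcmUpto (nn k)) (by omega) hcc
        (hFpos d hd) (P := PU a b r (nn k) T s) (fun j hj q hq0 hq hdq => ?_)
      · have h2 : ((Nat.lcmUpto (nn k) : ℕ) : ℚ) ^ (a + b - 1) *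
            (w d * rho0 a b (nn k) (PU a b r (nn k) T s) d) = w d *
            (((Nat.lcmUpto (nn k) : ℕ) : ℚ) ^ (a + b - 1) *
              rho0 a b (nn k) (PU a b r (nn k) T s) d) := by ring
        rw [h2]
        exact mul_mem (hwZ d) h1
      · rw [PU]
        refine gval_zero_frac (by omega) (zeroPat_PP a b r (nn k) (hnpos k) F) hd (hFpos d hd) hdq
          (hj.trans ((Nat.le_add_left _ _).trans (Nat.le_add_right _ _))) ?_
        have h5 : q / d < j := by
          rw [Nat.div_lt_iff_lt_mul (hFpos d hd), mul_comm]; exact hq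
        exact h5.trans_le (Nat.le_add_left _ _)
    · rw [if_neg hi0]
      rw [hG, mem_insert] at hi
      have hi' := hi.resolve_left hi0
      rw [hE1, mem_filter, mem_Ev] at hi'
      have h1 := rho_integral (b := b) hcc hi'.1.1
      rw [← mul_assoc]
      exact mul_mem h1 (hWZ i)
  · -- size of the coefficients
    filter_upwards [hlarge] with k hk s hs i hi
    rw [hS, mem_filter, mem_range] at hs
    set n := nn k with hn
    have hTT : ∀ θ ∈ T, 0 < θ ∧ θ < 1 := fun θ hθ => TT_pos_lt hθ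
    have hTm : ∀ θ ∈ T, θ.den ≤ m := fun θ hθ => den_le_of_mem_TT (fun d hd => (hF d hd).2) hθ
    have hCc0 : 0 ≤ H n * βC ^ n := mul_nonneg (hH0 n) (by positivity)
    have hcc : ∀ e < a, ∀ j ≤ n, |((cc a n (PU a b r n T s) e j : ℚ) : ℝ)| ≤ H n * βC ^ n :=
      fun e _ j hj => abs_cc_le hTT hTm hm hr (hnpos k) hao.pos hj hs.1.le
    have hβn : 0 ≤ βC ^ n := by positivity
    rw [hc]
    simp only
    by_cases hi0 : i = 0
    · rw [if_pos hi0, Rat.cast_sum]
      refine (abs_sum_le_sum_abs _ _).trans ?_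
      have h1 : ∀ d ∈ F, |((w d * rho0 a b n (PU a b r n T s) d : ℚ) : ℝ)| ≤
          |(w d : ℝ)| * ((n + 1) * ((m * n) * (a * ((2 * m) ^ (a + b) * (H n * βC ^ n))))) := by
        intro d hd
        rw [Rat.cast_mul, abs_mul]
        exact mul_le_mul_of_nonneg_left (abs_rho0_le hCc0 (hFpos d hd) (hF d hd).2 hcc)
          (abs_nonneg _)
      refine (sum_le_sum h1).trans ?_
      rw [← sum_mul, ← hw1]
      have h2 : 0 ≤ w2 * (2 ^ (a + b) * (((n : ℝ) + 1) * H n)) := by
        have := hH0 n; positivity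
      have h3 : w1 * ((n + 1) * ((m * n) * (a * ((2 * m) ^ (a + b) * (H n * βC ^ n))))) =
          (w1 * (((n : ℝ) + 1) * ((m * n) * (a * ((2 * m) ^ (a + b) * H n))))) * βC ^ n := by ring
      rw [h3]
      refine mul_le_mul_of_nonneg_right ?_ hβn
      rw [hQ]
      simp only
      linarith
    · rw [if_neg hi0]
      rw [hG, mem_insert] at hi
      have hi' := hi.resolve_left hi0
      rw [hE1, mem_filter, mem_Ev] at hi'
      rw [Rat.cast_mul, abs_mul]
      have h1 := abs_rho_le (b := b) hCc0 hi'.1.1 fun j hj => hcc i hi'.1.1 j hj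
      have h2 : |(W i : ℝ)| ≤ w2 :=
        single_le_sum (f := fun e => |(W e : ℝ)|) (fun _ _ => abs_nonneg _) (mem_range.2 hi'.1.1)
      refine (mul_le_mul h1 h2 (abs_nonneg _) (by positivity)).trans ?_
      have h3 : 2 ^ (a + b) * (((n : ℝ) + 1) * (H n * βC ^ n)) * w2 =
          (w2 * (2 ^ (a + b) * (((n : ℝ) + 1) * H n))) * βC ^ n := by ring
      rw [h3]
      refine mul_le_mul_of_nonneg_right ?_ hβn
      rw [hQ]
      simp only
      have h2 : 0 ≤ w1 * (((n : ℝ) + 1) * ((m * n) * (a * ((2 * m) ^ (a + b) * H n)))) := by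
        have := hH0 n; positivity
      linarith
  · -- size of the forms
    filter_upwards [hlarge] with k hk s hs
    rw [hS, mem_filter, mem_range] at hs
    have hdk := hdegs k hk
    have h1 := sum_forms (r := r) hao hb (hnk k) hs.2 (by rw [← hT, ← ht]; omega) hFpos w W
      (fun e => rfl)
    rw [← hT] at h1
    have h2 : ∑ i ∈ G, ((c k s i : ℚ) : ℝ) * gg i =
        ∑ d ∈ F, (w d : ℝ) * Sd a b (nn k) (PU a b r (nn k) T s) d := by
      rw [h1, hG, sum_insert h0E1]
      congr 1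
      · simp only [hc, hgg, if_true, mul_one]
      · refine sum_congr rfl fun i hi => ?_
        have hi0 : i ≠ 0 := fun h => h0E1 (h ▸ hi)
        rw [hc, hgg]
        simp only [hi0, if_false]
    rw [h2]
    refine (abs_sum_le_sum_abs _ _).trans ?_
    have h3 : ∀ d ∈ F, |(w d : ℝ) * Sd a b (nn k) (PU a b r (nn k) T s) d| ≤
        |(w d : ℝ)| * (2 * m ^ 2 * Gp (nn k) * βV ^ (nn k)) := by
      intro d hd
      rw [abs_mul]
      refine mul_le_mul_of_nonneg_left ?_ (abs_nonneg _)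
      have h4 := abs_Sd_PP_le (m := m) (r := r) (n := nn k) (A := A) (b := b) (i := s) (K := K1)
        (F := F) hF hm hr (hnpos k) (by omega) hs.1.le (by
          have : nn k ≤ A * nn k := Nat.le_mul_of_pos_left _ hA
          omega) hd
      rw [← hT, ← ht, ← haA] at h4
      exact h4
    refine (sum_le_sum h3).trans (le_of_eq ?_)
    rw [← sum_mul]
  · -- nonvanishing
    filter_upwards [hlarge] with k hk μ hμ
    have hdk := hdegs k hk
    have S0 : Setup a b (2 * k + 1) (r * (2 * k + 1 + 1)) T (PP a b r (2 * k + 1 + 1) T) :=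
      { ha := hao
        hb := hbo
        hn := hnk k
        hZ := zeroPat_PP a b r (2 * k + 1 + 1) (by omega) F
        hdeg := by
          have h1 := natDegree_PP a b r (2 * k + 1 + 1) T
          have h3 : b * (T.card * (2 * (r * (2 * k + 1 + 1)) + (2 * k + 1 + 1)) +
              2 * (r * (2 * k + 1 + 1))) = b * EE r t * (2 * k + 1 + 1) := by
            rw [EE]; ring
          rw [h1, h3]
          exact hdk
        hsym := PP_symm (hnk k) F }
    have h1 := nv_functional S0 (F := F) hFpos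
      (fun d hd q hq0 hqd => mem_TT.2 ⟨d, hd, q, hq0, hqd, rfl⟩) hw (μ 0)
      (fun e => if W e ≠ 0 then μ e * (W e * ((-1) ^ (b - 1) * ((e + (b - 1)).choose e : ℚ))) else 0)
      (fun s hs hse => ?_)
    · intro i hi
      rw [hG, mem_insert] at hi
      rcases hi with rfl | hi
      · exact h1.1
      · rw [hE1, mem_filter] at hi
        have h2 := h1.2 i hi.1
        rw [if_pos hi.2] at h2
        have h3 : (W i * ((-1) ^ (b - 1) * ((i + (b - 1)).choose i : ℚ))) ≠ 0 := by
          refine mul_ne_zero hi.2 (mul_ne_zero (pow_ne_zero _ (by norm_num)) ?_)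
          have := Nat.choose_pos (Nat.le_add_right i (b - 1))
          positivity
        exact (mul_eq_zero.1 h2).resolve_right h3
    · have h2 := hμ s (by rw [hS, mem_filter, mem_range]; exact ⟨hs, hse⟩)
      rw [hG, sum_insert h0E1] at h2
      refine Eq.trans ?_ h2
      congr 1
      rw [hE1, sum_filter]
      refine sum_congr rfl fun e he => ?_
      have he0 : e ≠ 0 := by
        rw [mem_Ev] at he; omega
      by_cases hWe : W e ≠ 0
      · rw [if_pos hWe, if_pos hWe, hc]
        simp only [he0, if_false]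
        rw [rho, PU]
        ring
      · rw [if_neg hWe, if_neg hWe, zero_mul]
  · -- the limit
    set θ : ℝ := (g ^ (a + b) * βC) ^ κ * βV with hθ
    have hθ0 : 0 ≤ θ := by positivity
    have hPBH : PB H := PB_polyH m (EE r t) a b K1
    have hPBG : PB Gp := PB_polyG m (EE r t) a b r K1
    have hPBQ : PB Q := by
      refine PB.add ((PB.const w1).mul ((PB.id.add (PB.const 1)).mul
        (((PB.const _).mul PB.id).mul ((PB.const _).mul ((PB.const _).mul hPBH))))) ?_
      exact (PB.const w2).mul ((PB.const _).mul ((PB.id.add (PB.const 1)).mul hPBH))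
    have hPB : PB fun n => (CG ^ (a + b)) ^ κ * ((1 + Q n) ^ κ * (w1 * (2 * m ^ 2 * Gp n))) :=
      (PB.const _).mul
        ((((PB.const 1).add hPBQ).pow κ).mul ((PB.const w1).mul ((PB.const _).mul hPBG)))
    have h1 := (hPB.tendsto hθ0 hgap).comp
      (Filter.tendsto_atTop_mono (fun k => (by simp only [hnn]; omega : k ≤ nn k))
        Filter.tendsto_id)
    refine squeeze_zero (fun k => ?_) (fun k => ?_) h1
    · have h2 := hQ0 (nn k)
      have h3 := hG0 (nn k)
      positivity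
    · have h2 := hQ0 (nn k)
      have h3 := hG0 (nn k)
      set n := nn k with hn
      have hg0 : 0 ≤ g := by linarith
      have hD : ((Nat.lcmUpto n ^ (a + b - 1) : ℕ) : ℝ) ≤ (CG * g ^ n) ^ (a + b) := by
        rw [Nat.cast_pow]
        have h4 := hlcm n
        have h5 : (1 : ℝ) ≤ CG * g ^ n := by
          have : (1 : ℝ) ≤ g ^ n := one_le_pow₀ hg1
          nlinarith
        exact (pow_le_pow_left₀ (by positivity) h4 _).trans (pow_le_pow_right₀ h5 (by omega))
      have hDκ := pow_le_pow_left₀ (by positivity) hD κ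
      simp only [Function.comp]
      calc ((Nat.lcmUpto n ^ (a + b - 1) : ℕ) : ℝ) ^ κ * ((1 + Q n) * βC ^ n) ^ κ *
            (w1 * (2 * m ^ 2 * Gp n * βV ^ n))
          ≤ ((CG * g ^ n) ^ (a + b)) ^ κ * ((1 + Q n) * βC ^ n) ^ κ *
            (w1 * (2 * m ^ 2 * Gp n * βV ^ n)) := by
            refine mul_le_mul_of_nonneg_right (mul_le_mul_of_nonneg_right hDκ ?_) ?_ <;> positivity
        _ = (CG ^ (a + b)) ^ κ * ((1 + Q n) ^ κ * (w1 * (2 * m ^ 2 * Gp n))) * θ ^ n := by
            rw [hθ]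
            have e1 : ((CG * g ^ n) ^ (a + b)) ^ κ =
                (CG ^ (a + b)) ^ κ * ((g ^ (a + b)) ^ κ) ^ n := by
              rw [mul_pow, mul_pow]
              congr 1
              rw [← pow_mul, ← pow_mul, ← pow_mul, ← pow_mul]; congr 1; ring
            have e2 : ((1 + Q n) * βC ^ n) ^ κ = (1 + Q n) ^ κ * (βC ^ κ) ^ n := by
              rw [mul_pow, ← pow_mul, ← pow_mul, mul_comm n κ]
            rw [e1, e2, mul_pow _ βV, mul_pow _ βC, mul_pow _ (βC ^ κ)]
            ring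

end Pool.Agent.Helper8
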