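import Pool.Agent.Helper8.PowSer

namespace Pool.Agent.Helper8

open Finset PowerSeries

theorem prod_erase_sub {n j : ℕ} (hj : j ≤ n) :
    ∏ j' ∈ (range (n + 1)).erase j, ((j' : ℚ) - j) = (-1) ^ j * j.factorial * (n - j).factorial := by
  have h1 : (range (n + 1)).erase j = range j ∪ Ico (j + 1) (n + 1) := by
    ext x; simp only [mem_erase, mem_range, mem_union, mem_Ico]; omega
  have h2 : Disjoint (range j) (Ico (j + 1) (n + 1)) := by
    rw [disjoint_left]; intro x hx hx'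
    simp only [mem_range, mem_Ico] at hx hx'; omega
  rw [h1, prod_union h2]
  have h3 : ∏ x ∈ range j, ((x : ℚ) - j) = (-1) ^ j * j.factorial := by
    rw [← prod_range_reflect]
    have : ∀ x ∈ range j, (((j - 1 - x : ℕ) : ℚ) - j) = -((x : ℚ) + 1) := by
      intro x hx
      have := mem_range.1 hx
      rw [Nat.cast_sub (by omega), Nat.cast_sub (by omega)]; push_cast; ring
    rw [prod_congr rfl this, prod_neg, card_range, ← prod_range_add_one_eq_factorial]
    push_cast; ring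
  have h4 : ∏ x ∈ Ico (j + 1) (n + 1), ((x : ℚ) - j) = (n - j).factorial := by
    rw [prod_Ico_eq_prod_range, ← prod_range_add_one_eq_factorial]
    push_cast
    refine prod_congr rfl fun x _ => ?_
    push_cast; ring
  rw [h3, h4]

theorem block1_mem_RD {D n j : ℕ} (hj : j ≤ n) (hD : ∀ e : ℕ, 1 ≤ e → e ≤ n → e ∣ D) :
    C (n.factorial : ℚ) * ∏ j' ∈ (range (n + 1)).erase j, iv ((j' : ℚ) - j) ∈ RD D := by
  have h1 : ∏ j' ∈ (range (n + 1)).erase j, (iv ((j' : ℚ) - j) : ℚ⟦X⟧) =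
      C (∏ j' ∈ (range (n + 1)).erase j, (1 / ((j' : ℚ) - j))) *
        ∏ j' ∈ (range (n + 1)).erase j, geo ((j' : ℚ) - j) := by
    rw [map_prod, ← prod_mul_distrib]
    exact prod_congr rfl fun x _ => iv_eq _
  rw [h1, ← mul_assoc, ← map_mul]
  refine mul_mem (C_mem_RD ?_) (prod_mem fun x hx => ?_)
  · rw [prod_div_distrib, prod_erase_sub hj, prod_const_one]
    have : (n.factorial : ℚ) * (1 / ((-1) ^ j * j.factorial * (n - j).factorial))
        = (((-1) ^ j * (n.choose j) : ℤ) : ℚ) := by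
      push_cast
      rw [Nat.cast_choose ℚ hj]
      have h1 : (j.factorial : ℚ) ≠ 0 := by positivity
      have h2 : ((n - j).factorial : ℚ) ≠ 0 := by positivity
      have h3 : ((-1 : ℚ) ^ j) * (-1) ^ j = 1 := by rw [← mul_pow]; norm_num
      have h4 : ((-1 : ℚ) ^ j) ≠ 0 := by positivity
      field_simp
      linear_combination -h3
    rw [this]; exact int_mem_ZZ _
  · rw [mem_erase, mem_range] at hx
    have : ((x : ℚ) - j) = (((x : ℤ) - j : ℤ) : ℚ) := by push_cast; ring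
    rw [this]
    refine geo_mem_RD (by omega) ?_
    rcases lt_or_gt_of_ne hx.1 with h | h
    · have h5 : ((j - x : ℕ) : ℤ) ∣ (D : ℤ) := by exact_mod_cast hD (j - x) (by omega) (by omega)
      rw [show ((x : ℤ) - j) = -((j - x : ℕ) : ℤ) by omega]
      exact (neg_dvd).2 h5
    · have h5 : ((x - j : ℕ) : ℤ) ∣ (D : ℤ) := by exact_mod_cast hD (x - j) (by omega) (by omega)
      rw [show ((x : ℤ) - j) = ((x - j : ℕ) : ℤ) by omega]
      exact h5

/-- `k!` divides `d^k ∏_{i<k} (h - d i)`. -/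
theorem factorial_dvd_prod (d : ℕ) (h : ℤ) (k : ℕ) :
    (k.factorial : ℤ) ∣ (d : ℤ) ^ k * ∏ i ∈ range k, (h - d * i) := by
  rw [Int.natCast_dvd, Nat.dvd_iff_prime_pow_dvd_dvd]
  intro p e hp hpe
  rw [← Int.natCast_dvd]
  haveI : Fact p.Prime := ⟨hp⟩
  have hek : e ≤ k := by
    have h1 : e ≤ padicValNat p k.factorial :=
      (padicValNat_dvd_iff_le (Nat.factorial_ne_zero k)).1 hpe
    exact h1.trans (padicValNat_factorial_le p k)
  by_cases hpd : p ∣ d
  · refine Dvd.dvd.mul_right ?_ _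
    have h2 : ((p ^ e : ℕ) : ℤ) ∣ ((p : ℤ)) ^ k := by
      push_cast; exact pow_dvd_pow _ hek
    refine h2.trans (pow_dvd_pow_of_dvd (by exact_mod_cast hpd) k)
  · refine Dvd.dvd.mul_left ?_ _
    have hcop : IsCoprime (d : ℤ) ((p ^ e : ℕ) : ℤ) := by
      rw [Nat.isCoprime_iff_coprime]
      exact (Nat.Coprime.pow_left e ((Nat.Prime.coprime_iff_not_dvd hp).2 hpd)).symm
    obtain ⟨u, v, huv⟩ := hcop
    have h3 : ((p ^ e : ℕ) : ℤ) ∣ u ^ k * ∏ i ∈ range k, (h - d * i) := by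
      have h4 : u ^ k * ∏ i ∈ range k, (h - d * i) = ∏ i ∈ range k, (u * h - u * d * i) := by
        rw [← card_range k, ← prod_const, card_range, ← prod_mul_distrib]
        exact prod_congr rfl fun i _ => by ring
      rw [h4]
      have h5 : ∏ i ∈ range k, (u * h - u * d * i) ≡ ∏ i ∈ range k, (u * h - i)
          [ZMOD ((p ^ e : ℕ) : ℤ)] := by
        refine Int.ModEq.prod fun i _ => ?_
        refine Int.ModEq.sub_left _ ?_
        have : u * d ≡ 1 [ZMOD ((p ^ e : ℕ) : ℤ)] := by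
          rw [Int.modEq_iff_dvd]; exact ⟨v, by linear_combination -huv⟩
        simpa using this.mul_right (i : ℤ)
      refine (Int.ModEq.dvd_iff h5).2 ?_
      rw [prod_eq_choose]
      refine Dvd.dvd.mul_right ?_ _
      exact_mod_cast hpe
    refine IsCoprime.dvd_of_dvd_mul_left ?_ h3
    exact IsCoprime.pow_right ⟨v, d, by linear_combination huv⟩

theorem bq_frac_mem {d : ℕ} (hd : d ≠ 0) (h : ℤ) {k n : ℕ} (hk : k ≤ n) :
    ((d : ℚ) ^ (2 * n)) * bq ((h : ℚ) / d) k ∈ ZZ := by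
  obtain ⟨c, hc⟩ := factorial_dvd_prod d h k
  have hd' : (d : ℚ) ≠ 0 := by exact_mod_cast hd
  have h1 : ((d : ℚ) ^ (2 * n)) * bq ((h : ℚ) / d) k = (((d : ℤ) ^ (2 * (n - k)) * c : ℤ) : ℚ) := by
    have h2 : ∏ i ∈ range k, ((h : ℚ) / d - i) = (∏ i ∈ range k, ((h : ℚ) - d * i)) / d ^ k := by
      rw [← card_range k, ← prod_const, card_range, ← prod_div_distrib]
      exact prod_congr rfl fun i _ => by field_simp
    have h3 : ((d : ℚ) ^ k * ∏ i ∈ range k, ((h : ℚ) - d * i)) = k.factorial * c := by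
      exact_mod_cast hc
    rw [bq, h2]
    push_cast
    have h4 : (d : ℚ) ^ (2 * n) = d ^ (2 * (n - k)) * (d ^ k * d ^ k) := by
      rw [← pow_add, ← pow_add]; congr 1; omega
    have h5 : (k.factorial : ℚ) ≠ 0 := by positivity
    rw [h4]
    field_simp
    linear_combination h3
  rw [h1]; exact int_mem_ZZ _

/-- A normalised fractional block is `D`-integral. -/
theorem frac_block_mem_RD {D n : ℕ} (hD : ∀ e : ℕ, 1 ≤ e → e ≤ n → e ∣ D) (y : ℚ) :
    C ((y.den : ℚ) ^ (2 * n)) * bin y n ∈ RD D := by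
  refine C_mul_bin_mem_RD hD fun k hk => ?_
  have := bq_frac_mem y.den_nz y.num hk
  rwa [Rat.num_div_den] at this

theorem int_block_mem_RD {D n : ℕ} (hD : ∀ e : ℕ, 1 ≤ e → e ≤ n → e ∣ D) (y : ℤ) :
    bin (y : ℚ) n ∈ RD D := by
  have := C_mul_bin_mem_RD (c := 1) (y := (y : ℚ)) hD fun k _ => by
    simpa using bq_int_mem_ZZ y k
  simpa using this

end Pool.Agent.Helper8
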