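import Pool.Agent.Helper8.Arith

/-! # Telescoping sums of simple fractions -/

namespace Pool.Agent.Helper8

open Finset PowerSeries

/-- A sum of simple fractions with given coefficients, cleared of denominators. -/
noncomputable def pfs (a n : ℕ) (c : ℕ → ℕ → ℚ) : Polynomial ℚ :=
  ∑ j ∈ range (n + 1), ∑ e ∈ range a,
    Polynomial.C (c e j) * (Polynomial.X + Polynomial.C (j : ℚ)) ^ (a - 1 - e) * Mj n j ^ a

theorem pfsum_eq_pfs (a n : ℕ) (P : Polynomial ℚ) :
    pfsum a n P = pfs a n (fun e j => cc a n P e j) := rfl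

theorem degree_pfs_lt {a n : ℕ} (ha : 0 < a) (c : ℕ → ℕ → ℚ) :
    (pfs a n c).natDegree < a * (n + 1) := by
  have h : (pfs a n c).natDegree ≤ a * (n + 1) - 1 := by
    refine Polynomial.natDegree_sum_le_of_forall_le _ _ fun j hj => ?_
    refine Polynomial.natDegree_sum_le_of_forall_le _ _ fun e he => ?_
    have h1 := natDegree_Mj_le hj
    have he' := mem_range.1 he
    refine (Polynomial.natDegree_mul_le).trans ?_
    have h2 : (Mj n j ^ a).natDegree ≤ a * n :=
      (Polynomial.natDegree_pow_le).trans (Nat.mul_le_mul_left a h1)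
    have h3 : (Polynomial.C (c e j) *
        (Polynomial.X + Polynomial.C (j : ℚ)) ^ (a - 1 - e)).natDegree ≤ a - 1 := by
      refine (Polynomial.natDegree_C_mul_le _ _).trans ?_
      refine (Polynomial.natDegree_pow_le).trans ?_
      rw [Polynomial.natDegree_X_add_C]; omega
    have : a * (n + 1) = a * n + a := by ring
    omega
  have : 0 < a * (n + 1) := by positivity
  omega

/-- series of simple fractions at `x` -/
noncomputable def sfs (a n : ℕ) (c : ℕ → ℕ → ℚ) (x : ℚ) : ℚ⟦X⟧ :=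
  ∑ j ∈ range (n + 1), ∑ e ∈ range a, C (c e j) * iv (x + j) ^ (e + 1)

theorem atp_pfs {a n : ℕ} (c : ℕ → ℕ → ℚ) {x : ℚ}
    (hx : ∀ j ∈ range (n + 1), x + (j : ℚ) ≠ 0) :
    atp x (pfs a n c) * (∏ j ∈ range (n + 1), iv (x + j)) ^ a = sfs a n c x := by
  rw [pfs, sfs, map_sum, sum_mul]
  refine sum_congr rfl fun j hj => ?_
  rw [map_sum, sum_mul]
  refine sum_congr rfl fun e he => ?_
  have he' := mem_range.1 he
  rw [map_mul, map_mul, map_pow, map_pow, map_add, atp_C, atp_X, atp_C]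
  rw [← mul_prod_erase _ _ hj, mul_pow]
  have h1 : atp x (Mj n j) * ∏ i ∈ (range (n + 1)).erase j, iv (x + (i : ℚ)) = 1 := by
    rw [Mj, map_prod, ← prod_mul_distrib]
    refine prod_eq_one fun i hi => ?_
    rw [map_add, atp_X, atp_C]
    have : (C x + X + C (i : ℚ) : ℚ⟦X⟧) = C (x + i) + X := by rw [map_add]; ring
    rw [this, lin_mul_iv (hx i (mem_of_mem_erase hi))]
  have h2 : (C x + X + C (j : ℚ) : ℚ⟦X⟧) * iv (x + j) = 1 := by
    have : (C x + X + C (j : ℚ) : ℚ⟦X⟧) = C (x + j) + X := by rw [map_add]; ring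
    rw [this, lin_mul_iv (hx j hj)]
  have h3 : a = (a - 1 - e) + (e + 1) := by omega
  have h4 : (iv (x + (j : ℚ)) : ℚ⟦X⟧) ^ a = iv (x + j) ^ (a - 1 - e) * iv (x + j) ^ (e + 1) := by
    rw [← pow_add, ← h3]
  rw [h4]
  calc C (c e j) * (C x + X + C (j : ℚ)) ^ (a - 1 - e) * atp x (Mj n j) ^ a *
        (iv (x + j) ^ (a - 1 - e) * iv (x + j) ^ (e + 1) *
          (∏ i ∈ (range (n + 1)).erase j, iv (x + (i : ℚ))) ^ a)
      = C (c e j) * ((C x + X + C (j : ℚ)) * iv (x + j)) ^ (a - 1 - e) *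
        (atp x (Mj n j) * ∏ i ∈ (range (n + 1)).erase j, iv (x + (i : ℚ))) ^ a *
          iv (x + j) ^ (e + 1) := by rw [mul_pow, mul_pow]; ring
    _ = _ := by rw [h1, h2, one_pow, one_pow]; ring

theorem prod_lin_mul_prod_iv {n : ℕ} {x : ℚ} (hx : ∀ j ∈ range (n + 1), x + (j : ℚ) ≠ 0) :
    (∏ j ∈ range (n + 1), ((C (x + j) + X : ℚ⟦X⟧))) * (∏ j ∈ range (n + 1), iv (x + j)) = 1 := by
  rw [← prod_mul_distrib]
  exact prod_eq_one fun j hj => lin_mul_iv (hx j hj)

/-- zeros of `pfs` in terms of the series -/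
theorem dvd_pfs_iff {a n b : ℕ} (c : ℕ → ℕ → ℚ) {x : ℚ}
    (hx : ∀ j ∈ range (n + 1), x + (j : ℚ) ≠ 0) :
    (Polynomial.X - Polynomial.C x) ^ b ∣ pfs a n c ↔ ∀ k < b, coeff k (sfs a n c x) = 0 := by
  rw [← PowerSeries.X_pow_dvd_iff]
  constructor
  · intro h
    rw [← atp_pfs c hx]
    exact (X_pow_dvd_atp_of_pow_dvd h).mul_right _
  · intro h
    apply pow_dvd_of_X_pow_dvd_atp
    have h1 : atp x (pfs a n c) = sfs a n c x * (∏ j ∈ range (n + 1), (C (x + j) + X : ℚ⟦X⟧)) ^ a := by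
      rw [← atp_pfs c hx, mul_assoc, ← mul_pow, mul_comm (∏ j ∈ range (n + 1), iv (x + (j : ℚ))),
        prod_lin_mul_prod_iv hx, one_pow, mul_one]
    rw [h1]
    exact h.mul_right _

/-- partial sums of the coefficients -/
def hsum (c : ℕ → ℕ → ℚ) (e j : ℕ) : ℚ := ∑ i ∈ range (j + 1), c e i

theorem abel_sum {R : Type*} [CommRing R] (c T : ℕ → R) (n : ℕ) :
    ∑ j ∈ range n, (∑ i ∈ range (j + 1), c i) * (T j - T (j + 1)) =
      ∑ i ∈ range (n + 1), c i * T i - (∑ i ∈ range (n + 1), c i) * T n := by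
  induction n with
  | zero => simp
  | succ n ih =>
    rw [sum_range_succ, ih, sum_range_succ (fun i => c i * T i) (n + 1),
      sum_range_succ c (n + 1)]
    ring

theorem Mj_mul_last {n j : ℕ} (hj : j < n + 1) :
    Mj n j * (Polynomial.X + Polynomial.C ((n + 1 : ℕ) : ℚ)) = Mj (n + 1) j := by
  have h : (range (n + 1 + 1)).erase j = insert (n + 1) ((range (n + 1)).erase j) := by
    ext x; simp only [mem_erase, mem_range, mem_insert]; omega
  rw [Mj, Mj, h, prod_insert, mul_comm]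
  simp

theorem Mj_comp_mul {n j : ℕ} :
    (Mj n j).comp (Polynomial.X + 1) * Polynomial.X = Mj (n + 1) (j + 1) := by
  have h : (range (n + 1 + 1)).erase (j + 1) =
      insert 0 (((range (n + 1)).erase j).image (fun x => x + 1)) := by
    ext x; simp only [mem_erase, mem_range, mem_insert, mem_image]
    constructor
    · rintro ⟨h1, h2⟩
      rcases x with _ | x
      · left; rfl
      · right; exact ⟨x, ⟨by omega, by omega⟩, rfl⟩
    · rintro (h | ⟨y, ⟨h1, h2⟩, rfl⟩) <;> omega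
  rw [Mj, Mj, h, prod_insert (by simp), prod_image (by intro x _ y _ h; simpa using h)]
  rw [Polynomial.prod_comp, mul_comm]
  congr 1
  · simp
  · refine prod_congr rfl fun i _ => ?_
    simp; ring

/-- The telescoping identity. -/
theorem pfs_telescope {a n : ℕ} (c : ℕ → ℕ → ℚ)
    (hc : ∀ e < a, ∑ j ∈ range (n + 1 + 1), c e j = 0) :
    pfs a n (hsum c) * (Polynomial.X + Polynomial.C ((n + 1 : ℕ) : ℚ)) ^ a -
      (pfs a n (hsum c)).comp (Polynomial.X + 1) * Polynomial.X ^ a = pfs a (n + 1) c := by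
  set T : ℕ → ℕ → Polynomial ℚ := fun e j =>
    (Polynomial.X + Polynomial.C (j : ℚ)) ^ (a - 1 - e) * Mj (n + 1) j ^ a with hT
  have h1 : pfs a n (hsum c) * (Polynomial.X + Polynomial.C ((n + 1 : ℕ) : ℚ)) ^ a =
      ∑ j ∈ range (n + 1), ∑ e ∈ range a, Polynomial.C (hsum c e j) * T e j := by
    rw [pfs, sum_mul]
    refine sum_congr rfl fun j hj => ?_
    rw [sum_mul]
    refine sum_congr rfl fun e _ => ?_
    rw [hT]; simp only
    rw [← Mj_mul_last (mem_range.1 hj), mul_pow]; ring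
  have h2 : (pfs a n (hsum c)).comp (Polynomial.X + 1) * Polynomial.X ^ a =
      ∑ j ∈ range (n + 1), ∑ e ∈ range a, Polynomial.C (hsum c e j) * T e (j + 1) := by
    rw [pfs, Polynomial.sum_comp, sum_mul]
    refine sum_congr rfl fun j hj => ?_
    rw [Polynomial.sum_comp, sum_mul]
    refine sum_congr rfl fun e _ => ?_
    rw [hT]; simp only
    rw [← Mj_comp_mul, mul_pow, Polynomial.mul_comp, Polynomial.mul_comp, Polynomial.pow_comp,
      Polynomial.pow_comp]
    simp only [Polynomial.C_comp, Polynomial.add_comp, Polynomial.X_comp]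
    have : (Polynomial.X + Polynomial.C ((j + 1 : ℕ) : ℚ) : Polynomial ℚ) =
        Polynomial.X + 1 + Polynomial.C (j : ℚ) := by
      push_cast; rw [Polynomial.C_add]; simp; ring
    rw [this]; ring
  rw [h1, h2, ← sum_sub_distrib]
  have h3 : ∀ j ∈ range (n + 1), (∑ e ∈ range a, Polynomial.C (hsum c e j) * T e j -
      ∑ e ∈ range a, Polynomial.C (hsum c e j) * T e (j + 1)) =
      ∑ e ∈ range a, (∑ i ∈ range (j + 1), Polynomial.C (c e i)) * (T e j - T e (j + 1)) := by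
    intro j _
    rw [← sum_sub_distrib]
    refine sum_congr rfl fun e _ => ?_
    rw [hsum, map_sum]; ring
  rw [sum_congr rfl h3, sum_comm]
  have h4 : ∀ e ∈ range a, ∑ j ∈ range (n + 1),
      (∑ i ∈ range (j + 1), Polynomial.C (c e i)) * (T e j - T e (j + 1)) =
      ∑ i ∈ range (n + 1 + 1), Polynomial.C (c e i) * T e i := by
    intro e he
    rw [abel_sum (fun i => Polynomial.C (c e i)) (T e), ← map_sum, hc e (mem_range.1 he)]
    simp
  rw [sum_congr rfl h4, sum_comm, pfs]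
  refine sum_congr rfl fun j _ => sum_congr rfl fun e _ => ?_
  rw [hT]; ring

/-- Telescoping for the series. -/
theorem sfs_telescope {a n : ℕ} (c : ℕ → ℕ → ℚ)
    (hc : ∀ e < a, ∑ j ∈ range (n + 1 + 1), c e j = 0) (x : ℚ) :
    sfs a n (hsum c) x - sfs a n (hsum c) (x + 1) = sfs a (n + 1) c x := by
  set T : ℕ → ℕ → ℚ⟦X⟧ := fun e j => iv (x + j) ^ (e + 1) with hT
  have h1 : sfs a n (hsum c) x = ∑ j ∈ range (n + 1), ∑ e ∈ range a, C (hsum c e j) * T e j := rfl
  have h2 : sfs a n (hsum c) (x + 1) =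
      ∑ j ∈ range (n + 1), ∑ e ∈ range a, C (hsum c e j) * T e (j + 1) := by
    rw [sfs]
    refine sum_congr rfl fun j hj => sum_congr rfl fun e _ => ?_
    rw [hT]; simp only
    rw [show x + 1 + (j : ℚ) = x + ((j + 1 : ℕ) : ℚ) by push_cast; ring]
  rw [h1, h2, ← sum_sub_distrib]
  have h3 : ∀ j ∈ range (n + 1), (∑ e ∈ range a, C (hsum c e j) * T e j -
      ∑ e ∈ range a, C (hsum c e j) * T e (j + 1)) =
      ∑ e ∈ range a, (∑ i ∈ range (j + 1), C (c e i)) * (T e j - T e (j + 1)) := by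
    intro j _
    rw [← sum_sub_distrib]
    refine sum_congr rfl fun e _ => ?_
    rw [hsum, map_sum]; ring
  rw [sum_congr rfl h3, sum_comm]
  have h4 : ∀ e ∈ range a, ∑ j ∈ range (n + 1),
      (∑ i ∈ range (j + 1), (C (c e i) : ℚ⟦X⟧)) * (T e j - T e (j + 1)) =
      ∑ i ∈ range (n + 1 + 1), C (c e i) * T e i := by
    intro e he
    rw [abel_sum (fun i => (C (c e i) : ℚ⟦X⟧)) (T e), ← map_sum, hc e (mem_range.1 he)]
    simp
  rw [sum_congr rfl h4, sum_comm, sfs]

end Pool.Agent.Helper8
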