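import Pool.Agent.Helper8.NV1

/-! # Uniqueness -/

namespace Pool.Agent.Helper8

open Finset

theorem zero_step_up {a b n : ℕ} {P1 : Polynomial ℚ} {z : ℚ} (hz : z ≠ 0)
    (h1 : (Polynomial.X - Polynomial.C z) ^ b ∣ P1)
    (h2 : (Polynomial.X - Polynomial.C z) ^ b ∣
      P1 * (Polynomial.X + Polynomial.C ((n : ℕ) : ℚ)) ^ a -
      P1.comp (Polynomial.X + 1) * Polynomial.X ^ a) :
    (Polynomial.X - Polynomial.C (z + 1)) ^ b ∣ P1 := by
  have h3 : (Polynomial.X - Polynomial.C z) ^ b ∣ P1.comp (Polynomial.X + 1) * Polynomial.X ^ a := by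
    have := dvd_sub (h1.mul_right ((Polynomial.X + Polynomial.C ((n : ℕ) : ℚ)) ^ a)) h2
    rwa [sub_sub_cancel] at this
  have hco : IsCoprime ((Polynomial.X - Polynomial.C z) ^ b) (Polynomial.X ^ a : Polynomial ℚ) := by
    refine IsCoprime.pow ?_
    have := Polynomial.isCoprime_X_sub_C_of_isUnit_sub (R := ℚ) (a := z) (b := 0)
      (by rw [isUnit_iff_ne_zero, sub_zero]; exact hz)
    simpa using this
  have h4 := hco.dvd_of_dvd_mul_right h3
  obtain ⟨R, hR⟩ := h4
  refine ⟨R.comp (Polynomial.X - 1), ?_⟩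
  have h5 : P1 = (P1.comp (Polynomial.X + 1)).comp (Polynomial.X - 1) := by
    rw [Polynomial.comp_assoc]; simp
  rw [h5, hR, Polynomial.mul_comp, Polynomial.pow_comp]
  congr 2
  simp; ring

theorem zero_step_down {a b n : ℕ} {P1 : Polynomial ℚ} {z : ℚ} (hz : z ≠ -(n : ℚ))
    (h1 : (Polynomial.X - Polynomial.C (z + 1)) ^ b ∣ P1)
    (h2 : (Polynomial.X - Polynomial.C z) ^ b ∣
      P1 * (Polynomial.X + Polynomial.C ((n : ℕ) : ℚ)) ^ a -
      P1.comp (Polynomial.X + 1) * Polynomial.X ^ a) :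
    (Polynomial.X - Polynomial.C z) ^ b ∣ P1 := by
  have h3 : (Polynomial.X - Polynomial.C z) ^ b ∣ P1.comp (Polynomial.X + 1) := by
    obtain ⟨R, hR⟩ := h1
    refine ⟨R.comp (Polynomial.X + 1), ?_⟩
    rw [hR, Polynomial.mul_comp, Polynomial.pow_comp]
    congr 2
    simp
  have h4 : (Polynomial.X - Polynomial.C z) ^ b ∣
      P1 * (Polynomial.X + Polynomial.C ((n : ℕ) : ℚ)) ^ a := by
    have := dvd_add h2 (h3.mul_right (Polynomial.X ^ a))
    rwa [sub_add_cancel] at this
  have hco : IsCoprime ((Polynomial.X - Polynomial.C z) ^ b)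
      ((Polynomial.X + Polynomial.C ((n : ℕ) : ℚ)) ^ a : Polynomial ℚ) := by
    refine IsCoprime.pow ?_
    have := Polynomial.isCoprime_X_sub_C_of_isUnit_sub (R := ℚ) (a := z) (b := -(n : ℚ))
      (by rw [isUnit_iff_ne_zero]; exact sub_ne_zero.2 hz)
    simpa using this
  exact hco.dvd_of_dvd_mul_right h4

theorem nextCoeff_comp_X_add_one {p : Polynomial ℚ} (hp : p.Monic) :
    (p.comp (Polynomial.X + 1)).nextCoeff = p.nextCoeff + p.natDegree := by
  have h0 : p.comp (Polynomial.X + 1) = Polynomial.taylor 1 p := by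
    rw [Polynomial.taylor_apply]; simp
  rw [h0]
  by_cases hd : p.natDegree = 0
  · rw [Polynomial.nextCoeff_eq_zero.2 (Or.inl (by rw [Polynomial.natDegree_taylor]; exact hd)),
      Polynomial.nextCoeff_eq_zero.2 (Or.inl hd), hd]; simp
  · rw [Polynomial.nextCoeff_of_natDegree_pos (by rw [Polynomial.natDegree_taylor]; omega),
      Polynomial.nextCoeff_of_natDegree_pos (by omega), Polynomial.natDegree_taylor,
      Polynomial.taylor_coeff]
    have h1 : (Polynomial.hasseDeriv (p.natDegree - 1) p).natDegree < 2 := by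
      have := Polynomial.natDegree_hasseDeriv_le p (p.natDegree - 1)
      omega
    rw [Polynomial.eval_eq_sum_range' h1]
    rw [sum_range_succ, sum_range_one, Polynomial.hasseDeriv_coeff, Polynomial.hasseDeriv_coeff]
    rw [show 1 + (p.natDegree - 1) = p.natDegree by omega, Polynomial.coeff_natDegree, hp]
    have h2 : p.natDegree.choose (p.natDegree - 1) = p.natDegree := by
      rw [Nat.choose_symm_of_eq_add (show p.natDegree = (p.natDegree - 1) + 1 by omega)]
      simp
    rw [h2]; simp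

/-- degree of the difference -/
theorem natDegree_diff_ge {a n : ℕ} (ha : 0 < a) {P1 : Polynomial ℚ} (hP : P1 ≠ 0)
    (hdeg : P1.natDegree < a * n) :
    P1.natDegree + a - 1 ≤ (P1 * (Polynomial.X + Polynomial.C ((n : ℕ) : ℚ)) ^ a -
      P1.comp (Polynomial.X + 1) * Polynomial.X ^ a).natDegree := by
  apply Polynomial.le_natDegree_of_ne_zero
  -- normalise
  set c := P1.leadingCoeff with hc
  have hc0 : c ≠ 0 := by rw [hc]; exact Polynomial.leadingCoeff_ne_zero.2 hP
  set p := Polynomial.C c⁻¹ * P1 with hp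
  have hmonic : p.Monic := by
    rw [Polynomial.Monic, hp, Polynomial.leadingCoeff_mul, Polynomial.leadingCoeff_C, ← hc]
    field_simp
  have hP1 : P1 = Polynomial.C c * p := by
    rw [hp, ← mul_assoc, ← Polynomial.C_mul, mul_inv_cancel₀ hc0]; simp
  have hdegp : p.natDegree = P1.natDegree := by
    rw [hp, Polynomial.natDegree_C_mul (inv_ne_zero hc0)]
  have hfac : P1 * (Polynomial.X + Polynomial.C ((n : ℕ) : ℚ)) ^ a -
      P1.comp (Polynomial.X + 1) * Polynomial.X ^ a = Polynomial.C c *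
      (p * (Polynomial.X + Polynomial.C ((n : ℕ) : ℚ)) ^ a -
      p.comp (Polynomial.X + 1) * Polynomial.X ^ a) := by
    rw [hP1, Polynomial.mul_comp, Polynomial.C_comp]; ring
  rw [hfac, Polynomial.coeff_C_mul, Polynomial.coeff_sub]
  have hm1 : (p * (Polynomial.X + Polynomial.C ((n : ℕ) : ℚ)) ^ a).Monic :=
    hmonic.mul ((Polynomial.monic_X_add_C _).pow _)
  have hcm : (p.comp (Polynomial.X + 1)).Monic := by
    have := hmonic.comp_X_add_C (1 : ℚ)
    simpa using this
  have hm2 : (p.comp (Polynomial.X + 1) * Polynomial.X ^ a).Monic :=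
    hcm.mul (Polynomial.monic_X_pow _)
  have hd1 : (p * (Polynomial.X + Polynomial.C ((n : ℕ) : ℚ)) ^ a).natDegree = P1.natDegree + a := by
    rw [hmonic.natDegree_mul ((Polynomial.monic_X_add_C _).pow _), Polynomial.natDegree_pow,
      Polynomial.natDegree_X_add_C, hdegp]; ring
  have hd2 : (p.comp (Polynomial.X + 1) * Polynomial.X ^ a).natDegree = P1.natDegree + a := by
    rw [hcm.natDegree_mul (Polynomial.monic_X_pow _), Polynomial.natDegree_X_pow,
      Polynomial.natDegree_comp]
    have : (Polynomial.X + 1 : Polynomial ℚ).natDegree = 1 := by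
      have := Polynomial.natDegree_X_add_C (1 : ℚ)
      simpa using this
    rw [this, hdegp, mul_one]
  have hn1 : (p * (Polynomial.X + Polynomial.C ((n : ℕ) : ℚ)) ^ a).coeff (P1.natDegree + a - 1) =
      p.nextCoeff + a * n := by
    rw [← hd1, ← Polynomial.nextCoeff_of_natDegree_pos (by rw [hd1]; omega),
      hmonic.nextCoeff_mul ((Polynomial.monic_X_add_C _).pow _),
      (Polynomial.monic_X_add_C _).nextCoeff_pow, Polynomial.nextCoeff_X_add_C]
    simp
  have hn2 : (p.comp (Polynomial.X + 1) * Polynomial.X ^ a).coeff (P1.natDegree + a - 1) =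
      p.nextCoeff + P1.natDegree := by
    rw [← hd2, ← Polynomial.nextCoeff_of_natDegree_pos (by rw [hd2]; omega),
      hcm.nextCoeff_mul (Polynomial.monic_X_pow _), nextCoeff_comp_X_add_one hmonic,
      Polynomial.monic_X.nextCoeff_pow, hdegp]
    have : (Polynomial.X : Polynomial ℚ).nextCoeff = 0 := by
      have := Polynomial.nextCoeff_X_add_C (0 : ℚ)
      simpa using this
    rw [this]; simp
  rw [hn1, hn2]
  refine mul_ne_zero hc0 ?_
  have : (P1.natDegree : ℚ) < a * n := by exact_mod_cast hdeg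
  intro h0
  linarith

end Pool.Agent.Helper8
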