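import Pool.Agent.Helper8.NV2

/-! # Zero patterns -/

namespace Pool.Agent.Helper8

open Finset

/-- zero pattern of the numerator -/
structure ZeroPat (b n h : ℕ) (T : Finset ℚ) (P0 : Polynomial ℚ) : Prop where
  ne : P0 ≠ 0
  hT : ∀ θ ∈ T, 0 < θ ∧ θ < 1
  frac : ∀ θ ∈ T, ∀ k : ℤ, -((n : ℤ) + h) ≤ k → k < h →
    (Polynomial.X - Polynomial.C (θ + (k : ℚ))) ^ b ∣ P0
  pos : ∀ z : ℤ, 1 ≤ z → z ≤ h → (Polynomial.X - Polynomial.C (z : ℚ)) ^ b ∣ P0
  neg : ∀ z : ℤ, -((n : ℤ) + h) ≤ z → z ≤ -((n : ℤ) + 1) →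
    (Polynomial.X - Polynomial.C (z : ℚ)) ^ b ∣ P0
  deg : P0.natDegree = b * (T.card * (2 * h + n) + 2 * h)

/-- the extended zero set -/
noncomputable def Zp (n h : ℕ) (T : Finset ℚ) : Finset ℚ :=
  ((T ×ˢ Icc (-((n : ℤ) + h)) (h : ℤ)).image (fun p => p.1 + (p.2 : ℚ)) ∪
    (Icc (1 : ℤ) (h + 1)).image (fun z : ℤ => (z : ℚ))) ∪
    (Icc (-((n : ℤ) + h)) (-(n : ℤ))).image (fun z : ℤ => (z : ℚ))

theorem add_int_inj {θ θ' : ℚ} (h : 0 < θ ∧ θ < 1) (h' : 0 < θ' ∧ θ' < 1) {k k' : ℤ}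
    (he : θ + (k : ℚ) = θ' + (k' : ℚ)) : θ = θ' ∧ k = k' := by
  have h1 : (k : ℚ) - k' < 1 := by linarith [h.1, h'.2]
  have h2 : (k' : ℚ) - k < 1 := by linarith [h'.1, h.2]
  have h3 : k - k' < 1 := by exact_mod_cast h1
  have h4 : k' - k < 1 := by exact_mod_cast h2
  have h5 : k = k' := by omega
  refine ⟨?_, h5⟩
  rw [h5] at he; linarith

theorem frac_ne_int {θ : ℚ} (h : 0 < θ ∧ θ < 1) (k z : ℤ) : θ + (k : ℚ) ≠ (z : ℚ) := by
  intro he
  have h1 : (0 : ℚ) < (z : ℚ) - k := by linarith [h.1]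
  have h2 : (z : ℚ) - k < 1 := by linarith [h.2]
  have h3 : 0 < z - k := by exact_mod_cast h1
  have h4 : z - k < 1 := by exact_mod_cast h2
  omega

theorem card_Zp {n h : ℕ} {T : Finset ℚ} (hT : ∀ θ ∈ T, 0 < θ ∧ θ < 1) :
    (Zp n h T).card = T.card * (2 * h + n + 1) + 2 * (h + 1) := by
  have c1 : ((T ×ˢ Icc (-((n : ℤ) + h)) (h : ℤ)).image (fun p => p.1 + (p.2 : ℚ))).card =
      T.card * (2 * h + n + 1) := by
    rw [card_image_of_injOn, card_product, Int.card_Icc]
    · congr 1; omega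
    · intro p hp q hq he
      simp only [coe_product, Set.mem_prod, mem_coe] at hp hq
      have := add_int_inj (hT _ hp.1) (hT _ hq.1) he
      exact Prod.ext this.1 this.2
  have c2 : ((Icc (1 : ℤ) (h + 1)).image (fun z : ℤ => (z : ℚ))).card = h + 1 := by
    rw [card_image_of_injective _ Int.cast_injective, Int.card_Icc]; omega
  have c3 : ((Icc (-((n : ℤ) + h)) (-(n : ℤ))).image (fun z : ℤ => (z : ℚ))).card = h + 1 := by
    rw [card_image_of_injective _ Int.cast_injective, Int.card_Icc]; omega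
  rw [Zp, card_union_of_disjoint, card_union_of_disjoint, c1, c2, c3]
  · ring
  · rw [disjoint_left]
    intro x hx hx'
    simp only [mem_image, mem_product] at hx hx'
    obtain ⟨p, hp, rfl⟩ := hx
    obtain ⟨z, _, hz⟩ := hx'
    exact frac_ne_int (hT _ hp.1) _ _ hz.symm
  · rw [disjoint_left]
    intro x hx hx'
    rw [mem_union] at hx
    simp only [mem_image, mem_product, mem_Icc] at hx hx'
    obtain ⟨z, hz1, hz⟩ := hx'
    rcases hx with ⟨p, hp, hpx⟩ | ⟨z', hz', hzx⟩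
    · exact frac_ne_int (hT _ hp.1) p.2 z (by rw [hpx, hz])
    · have : z = z' := by
        have : (z : ℚ) = z' := by rw [hz, hzx]
        exact_mod_cast this
      omega

theorem card_le_of_dvd {b : ℕ} {P1 : Polynomial ℚ} (hP : P1 ≠ 0) (S : Finset ℚ)
    (hS : ∀ x ∈ S, (Polynomial.X - Polynomial.C x) ^ b ∣ P1) : b * S.card ≤ P1.natDegree := by
  have h1 : ∏ x ∈ S, (Polynomial.X - Polynomial.C x) ^ b ∣ P1 := by
    refine prod_dvd_of_coprime ?_ hS
    intro x _ y _ hxy
    refine IsCoprime.pow ?_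
    exact Polynomial.isCoprime_X_sub_C_of_isUnit_sub
      (by rw [isUnit_iff_ne_zero]; exact sub_ne_zero.2 hxy)
  have h2 := Polynomial.natDegree_le_of_dvd h1 hP
  rw [Polynomial.natDegree_prod_of_monic _ _ fun i _ => (Polynomial.monic_X_sub_C _).pow _] at h2
  rw [sum_congr rfl (fun i _ => show ((Polynomial.X - Polynomial.C (i : ℚ)) ^ b).natDegree = b by
    rw [Polynomial.natDegree_pow, Polynomial.natDegree_X_sub_C, mul_one]), sum_const,
    smul_eq_mul, mul_comm] at h2
  exact h2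

/-- propagation of the zeros -/
theorem dvd_of_mem_Zp {a b n h : ℕ} {T : Finset ℚ} {P0 Q P1 : Polynomial ℚ}
    (hZ : ZeroPat b n h T P0)
    (hid : P1 * (Polynomial.X + Polynomial.C ((n : ℕ) : ℚ)) ^ a -
      P1.comp (Polynomial.X + 1) * Polynomial.X ^ a = P0 * Q)
    (hfr : ∀ θ ∈ T, (Polynomial.X - Polynomial.C θ) ^ b ∣ P1)
    (h1 : (Polynomial.X - Polynomial.C 1) ^ b ∣ P1)
    (hn : (Polynomial.X - Polynomial.C (-(n : ℚ))) ^ b ∣ P1) :
    ∀ x ∈ Zp n h T, (Polynomial.X - Polynomial.C x) ^ b ∣ P1 := by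
  have up : ∀ (x : ℚ) (K : ℕ), (∀ i : ℕ, i < K → x + i ≠ 0) →
      (∀ i : ℕ, i < K → (Polynomial.X - Polynomial.C (x + i)) ^ b ∣ P0) →
      (Polynomial.X - Polynomial.C x) ^ b ∣ P1 →
      ∀ i : ℕ, i ≤ K → (Polynomial.X - Polynomial.C (x + i)) ^ b ∣ P1 := by
    intro x K hne hdv h0 i
    induction i with
    | zero => intro _; simpa using h0
    | succ i ih =>
      intro hi
      have := zero_step_up (a := a) (n := n) (hne i (by omega)) (ih (by omega))
        (by rw [hid]; exact (hdv i (by omega)).mul_right _)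
      rw [show x + ((i + 1 : ℕ) : ℚ) = x + i + 1 by push_cast; ring]
      exact this
  have down : ∀ (x : ℚ) (K : ℕ), (∀ i : ℕ, i < K → x - (i + 1) ≠ -(n : ℚ)) →
      (∀ i : ℕ, i < K → (Polynomial.X - Polynomial.C (x - (i + 1))) ^ b ∣ P0) →
      (Polynomial.X - Polynomial.C x) ^ b ∣ P1 →
      ∀ i : ℕ, i ≤ K → (Polynomial.X - Polynomial.C (x - i)) ^ b ∣ P1 := by
    intro x K hne hdv h0 i
    induction i with
    | zero => intro _; simpa using h0
    | succ i ih =>
      intro hi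
      have h3 := ih (by omega)
      rw [show x - (i : ℚ) = (x - (i + 1)) + 1 by ring] at h3
      have := zero_step_down (a := a) (n := n) (hne i (by omega)) h3
        (by rw [hid]; exact (hdv i (by omega)).mul_right _)
      rw [show x - ((i + 1 : ℕ) : ℚ) = x - (i + 1) by push_cast; ring]
      exact this
  intro x hx
  rw [Zp, mem_union, mem_union] at hx
  simp only [mem_image, mem_product, mem_Icc] at hx
  rcases hx with (⟨⟨θ, k⟩, ⟨hθ, hk1, hk2⟩, rfl⟩ | ⟨z, ⟨hz1, hz2⟩, rfl⟩) | ⟨z, ⟨hz1, hz2⟩, rfl⟩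
  · have hθ1 := hZ.hT θ hθ
    simp only
    rcases le_or_gt 0 k with hk | hk
    · obtain ⟨i, rfl⟩ := Int.eq_ofNat_of_zero_le hk
      have := up θ h (fun i hi => ?_) (fun i hi => ?_) (hfr θ hθ) i (by omega)
      · simpa using this
      · have := frac_ne_int hθ1 (i : ℤ) 0
        simpa using this
      · have := hZ.frac θ hθ (i : ℤ) (by omega) (by omega)
        simpa using this
    · obtain ⟨i, hi⟩ := Int.eq_ofNat_of_zero_le (show 0 ≤ -k by omega)
      have hki : k = -(i : ℤ) := by omega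
      have := down θ (n + h) (fun i hi => ?_) (fun i hi => ?_) (hfr θ hθ) i (by omega)
      · rw [hki]; push_cast; rw [← sub_eq_add_neg]; exact this
      · have := frac_ne_int hθ1 (-((i : ℤ) + 1)) (-(n : ℤ))
        push_cast at this
        rwa [← sub_eq_add_neg] at this
      · have := hZ.frac θ hθ (-((i : ℤ) + 1)) (by omega) (by omega)
        push_cast at this
        rwa [← sub_eq_add_neg] at this
  · obtain ⟨i, hi⟩ := Int.eq_ofNat_of_zero_le (show 0 ≤ z - 1 by omega)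
    have hzi : z = (i : ℤ) + 1 := by omega
    have := up 1 h (fun i hi => ?_) (fun i hi => ?_) h1 i (by omega)
    · rw [hzi]; push_cast; rw [add_comm]; exact this
    · positivity
    · have := hZ.pos ((i : ℤ) + 1) (by omega) (by omega)
      push_cast at this
      rwa [add_comm]
  · obtain ⟨i, hi⟩ := Int.eq_ofNat_of_zero_le (show 0 ≤ -(n : ℤ) - z by omega)
    have hzi : z = -(n : ℤ) - i := by omega
    have := down (-(n : ℚ)) h (fun i hi => ?_) (fun i hi => ?_) hn i (by omega)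
    · rw [hzi]; push_cast; exact this
    · have : (0 : ℚ) < (i : ℚ) + 1 := by positivity
      linarith
    · have := hZ.neg (-(n : ℤ) - ((i : ℤ) + 1)) (by omega) (by omega)
      push_cast at this
      exact this

/-- The sum of the residues vanishes. -/
theorem sum_residues {a n : ℕ} (ha : 0 < a) {P : Polynomial ℚ}
    (hP : P.natDegree + 1 < a * (n + 1)) : ∑ j ∈ range (n + 1), cc a n P 0 j = 0 := by
  have h1 : P.coeff (a * (n + 1) - 1) = 0 :=
    Polynomial.coeff_eq_zero_of_natDegree_lt (by omega)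
  rw [eq_pfsum ha (show P.natDegree < a * (n + 1) by omega), pfsum,
    Polynomial.finsetSum_coeff] at h1
  rw [← h1]
  refine sum_congr rfl fun j hj => ?_
  rw [Polynomial.finsetSum_coeff]
  have hMjm : (Mj n j).Monic := Polynomial.monic_prod_of_monic _ _ fun i _ => Polynomial.monic_X_add_C _
  have hMjd : (Mj n j).natDegree = n := by
    rw [Mj, Polynomial.natDegree_prod_of_monic _ _ fun i _ => Polynomial.monic_X_add_C _]
    simp only [Polynomial.natDegree_X_add_C]
    rw [sum_const, card_erase_of_mem hj, card_range]; simp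
  have h2 : ∀ e ∈ range a, (Polynomial.C (cc a n P e j) *
      (Polynomial.X + Polynomial.C (j : ℚ)) ^ (a - 1 - e) * Mj n j ^ a).coeff (a * (n + 1) - 1) =
      if e = 0 then cc a n P e j else 0 := by
    intro e he
    have he' := mem_range.1 he
    have hm : ((Polynomial.X + Polynomial.C (j : ℚ)) ^ (a - 1 - e) * Mj n j ^ a).Monic :=
      ((Polynomial.monic_X_add_C _).pow _).mul (hMjm.pow _)
    have hd : ((Polynomial.X + Polynomial.C (j : ℚ)) ^ (a - 1 - e) * Mj n j ^ a).natDegree =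
        a * (n + 1) - 1 - e := by
      rw [((Polynomial.monic_X_add_C _).pow _).natDegree_mul (hMjm.pow _), Polynomial.natDegree_pow,
        Polynomial.natDegree_X_add_C, Polynomial.natDegree_pow, hMjd]
      have : a * (n + 1) = a * n + a := by ring
      omega
    rw [mul_assoc, Polynomial.coeff_C_mul]
    split_ifs with h0
    · subst h0
      have : ((Polynomial.X + Polynomial.C (j : ℚ)) ^ (a - 1 - 0) * Mj n j ^ a).coeff
          (a * (n + 1) - 1) = 1 := by
        have := hm.coeff_natDegree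
        rwa [hd, Nat.sub_zero] at this
      rw [this, mul_one]
    · rw [Polynomial.coeff_eq_zero_of_natDegree_lt, mul_zero]
      rw [hd]
      have : a ≤ a * (n + 1) := Nat.le_mul_of_pos_right _ (by omega)
      omega
  rw [sum_congr rfl h2, sum_ite_eq', if_pos (mem_range.2 ha)]

/-- Uniqueness: the heart of the non-vanishing argument. -/
theorem uniqueness {a b ν h : ℕ} (ha : 0 < a) {T : Finset ℚ} {P0 Q : Polynomial ℚ}
    (hZ : ZeroPat b (ν + 1) h T P0)
    (hQ : Q.natDegree < (a - 1) + (T.card + 2) * b)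
    (hdeg : P0.natDegree + ((a - 1) + (T.card + 2) * b) < a * (ν + 1 + 1))
    (hsum0 : ∀ e, 0 < e → e < a → ∑ j ∈ range (ν + 1 + 1), cc a (ν + 1) (P0 * Q) e j = 0)
    (hfr : ∀ θ ∈ T, ∀ k < b, PowerSeries.coeff k
      (sfs a ν (hsum fun e j => cc a (ν + 1) (P0 * Q) e j) θ) = 0)
    (h1 : ∀ k < b, PowerSeries.coeff k
      (sfs a ν (hsum fun e j => cc a (ν + 1) (P0 * Q) e j) 1) = 0)
    (hn : ∀ k < b, PowerSeries.coeff k
      (sfs a ν (hsum fun e j => cc a (ν + 1) (P0 * Q) e j) (-((ν + 1 : ℕ) : ℚ))) = 0) :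
    Q = 0 := by
  by_contra hQ0
  set c : ℕ → ℕ → ℚ := fun e j => cc a (ν + 1) (P0 * Q) e j with hc
  set P1 := pfs a ν (hsum c) with hP1
  have hPd : (P0 * Q).natDegree = P0.natDegree + Q.natDegree :=
    Polynomial.natDegree_mul hZ.ne hQ0
  have hall : ∀ e < a, ∑ j ∈ range (ν + 1 + 1), c e j = 0 := by
    intro e he
    rcases Nat.eq_zero_or_pos e with h0 | h0
    · rw [h0, hc]; exact sum_residues ha (by rw [hPd]; omega)
    · exact hsum0 e h0 he
  have hid : P1 * (Polynomial.X + Polynomial.C ((ν + 1 : ℕ) : ℚ)) ^ a -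
      P1.comp (Polynomial.X + 1) * Polynomial.X ^ a = P0 * Q := by
    rw [hP1, pfs_telescope c hall, hc, ← pfsum_eq_pfs, ← eq_pfsum ha (by rw [hPd]; omega)]
  have hreg : ∀ x : ℚ, (∀ j : ℤ, 0 ≤ j → j < (ν : ℤ) + 1 → x ≠ ((-j : ℤ) : ℚ)) →
      ∀ j ∈ range (ν + 1), x + (j : ℚ) ≠ 0 := by
    intro x hx j hj h0
    have := mem_range.1 hj
    exact hx j (by omega) (by omega) (by push_cast; linarith)
  have hP1ne : P1 ≠ 0 := by
    intro h0
    rw [h0] at hid
    simp only [zero_mul, Polynomial.zero_comp, sub_zero] at hid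
    exact (mul_ne_zero hZ.ne hQ0) hid.symm
  have hdv := dvd_of_mem_Zp hZ hid
    (fun θ hθ => (dvd_pfs_iff _ (hreg θ fun j _ _ => by
      have := frac_ne_int (hZ.hT θ hθ) 0 (-j); simpa using this)).2 (hfr θ hθ))
    ((dvd_pfs_iff _ (hreg 1 fun j hj _ => by
      intro h0
      have : (1 : ℤ) = -j := by exact_mod_cast h0
      omega)).2 h1)
    ((dvd_pfs_iff _ (hreg (-((ν + 1 : ℕ) : ℚ)) fun j hj hj' => by
      intro h0
      have : -((ν + 1 : ℕ) : ℤ) = -j := by exact_mod_cast h0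
      omega)).2 hn)
  have hcard := card_le_of_dvd hP1ne _ hdv
  rw [card_Zp hZ.hT] at hcard
  have hlt : P1.natDegree < a * (ν + 1) := degree_pfs_lt ha _
  have hge := natDegree_diff_ge ha hP1ne (n := ν + 1) hlt
  rw [hid, hPd, hZ.deg] at hge
  have e1 : b * (T.card * (2 * h + (ν + 1) + 1) + 2 * (h + 1)) =
      b * (T.card * (2 * h + (ν + 1)) + 2 * h) + (T.card + 2) * b := by ring
  omega

end Pool.Agent.Helper8
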