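import Pool.Agent.Helper8.NV3

/-! # Surjectivity -/

namespace Pool.Agent.Helper8

open Finset PowerSeries

theorem cc_add (a n : ℕ) (P Q : Polynomial ℚ) (e j : ℕ) :
    cc a n (P + Q) e j = cc a n P e j + cc a n Q e j := by
  rw [cc, cc, cc, cser, cser, cser, map_add, add_mul, map_add]

theorem cc_C_mul (a n : ℕ) (c : ℚ) (P : Polynomial ℚ) (e j : ℕ) :
    cc a n (Polynomial.C c * P) e j = c * cc a n P e j := by
  rw [cc, cc, cser, cser, map_mul (atp _), atp_C, mul_assoc, coeff_C_mul]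

theorem natDegree_lt_of_mem {Q : Polynomial ℚ} {K : ℕ} (hK : 0 < K)
    (hQ : Q ∈ Polynomial.degreeLT ℚ K) : Q.natDegree < K := by
  rw [Polynomial.mem_degreeLT] at hQ
  by_cases h : Q = 0
  · rw [h]; simpa using hK
  · exact (Polynomial.natDegree_lt_iff_degree_lt h).2 hQ

theorem cc_zero (a n : ℕ) (e j : ℕ) : cc a n 0 e j = 0 := by
  rw [cc, cser, map_zero, zero_mul, map_zero]

/-- `cc` as a linear map -/
noncomputable def ccL (a n e j : ℕ) : Polynomial ℚ →ₗ[ℚ] ℚ where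
  toFun P := cc a n P e j
  map_add' P Q := cc_add a n P Q e j
  map_smul' c P := by
    rw [Polynomial.smul_eq_C_mul, cc_C_mul]; simp

theorem ccL_apply (a n e j : ℕ) (P : Polynomial ℚ) : ccL a n e j P = cc a n P e j := rfl

/-- the coefficients of the series `sfs`, as an explicit finite sum -/
theorem coeff_sfs (a n : ℕ) (c : ℕ → ℕ → ℚ) (x : ℚ) (k : ℕ) :
    coeff k (sfs a n c x) = ∑ j ∈ range (n + 1), ∑ e ∈ range a, c e j *
      ((-1) ^ k * ((e + k).choose e : ℚ) / (x + j) ^ (e + 1 + k)) := by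
  rw [sfs, map_sum]
  refine sum_congr rfl fun j _ => ?_
  rw [map_sum]
  refine sum_congr rfl fun e _ => ?_
  rw [coeff_C_mul, coeff_iv_pow]

/-- jets as linear maps -/
noncomputable def jetL (a ν : ℕ) (x : ℚ) (k : ℕ) : Polynomial ℚ →ₗ[ℚ] ℚ :=
  ∑ j ∈ range (ν + 1), ∑ e ∈ range a,
    ((-1) ^ k * ((e + k).choose e : ℚ) / (x + j) ^ (e + 1 + k)) •
      ∑ i ∈ range (j + 1), ccL a (ν + 1) e i

theorem jetL_apply (a ν : ℕ) (x : ℚ) (k : ℕ) (P : Polynomial ℚ) :
    jetL a ν x k P = coeff k (sfs a ν (hsum fun e j => cc a (ν + 1) P e j) x) := by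
  rw [coeff_sfs, jetL]
  simp only [LinearMap.sum_apply, LinearMap.smul_apply, ccL_apply, smul_eq_mul, hsum]
  refine sum_congr rfl fun j _ => sum_congr rfl fun e _ => ?_
  ring

/-- sums of the coefficients as linear maps -/
noncomputable def sumL (a n e : ℕ) : Polynomial ℚ →ₗ[ℚ] ℚ := ∑ j ∈ range (n + 1), ccL a n e j

theorem sumL_apply (a n e : ℕ) (P : Polynomial ℚ) :
    sumL a n e P = ∑ j ∈ range (n + 1), cc a n P e j := by
  rw [sumL]; simp only [LinearMap.sum_apply, ccL_apply]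

/-- the evaluation points of the jets -/
def Pts (n : ℕ) (T : Finset ℚ) : Finset ℚ := insert 1 (insert (-(n : ℚ)) T)

theorem card_Pts {n : ℕ} {T : Finset ℚ} (hT : ∀ θ ∈ T, 0 < θ ∧ θ < 1) :
    (Pts n T).card = T.card + 2 := by
  rw [Pts, card_insert_of_notMem, card_insert_of_notMem]
  · intro h
    have h1 := (hT _ h).1
    have h2 : (0 : ℚ) ≤ n := by positivity
    linarith
  · rw [mem_insert, not_or]
    refine ⟨?_, fun h => ?_⟩
    · have h2 : (0 : ℚ) ≤ n := by positivity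
      intro h; linarith
    · exact lt_irrefl _ (hT _ h).2

/-- The full evaluation map. -/
noncomputable def Xi (a b ν : ℕ) (T : Finset ℚ) (P0 : Polynomial ℚ) (K : ℕ) :
    Polynomial.degreeLT ℚ K →ₗ[ℚ] (Fin (a - 1) ⊕ (↥(Pts (ν + 1) T) × Fin b) → ℚ) :=
  LinearMap.pi fun i =>
    (Sum.elim (fun e : Fin (a - 1) => sumL a (ν + 1) (e + 1))
      (fun xk : ↥(Pts (ν + 1) T) × Fin b => jetL a ν (xk.1 : ℚ) xk.2) i).comp
      ((LinearMap.mulLeft ℚ P0).comp (Submodule.subtype _))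

theorem Xi_injective {a b ν h : ℕ} (ha : 0 < a) (hb : 0 < b) {T : Finset ℚ} {P0 : Polynomial ℚ}
    (hZ : ZeroPat b (ν + 1) h T P0)
    (hdeg : P0.natDegree + ((a - 1) + (T.card + 2) * b) < a * (ν + 1 + 1)) :
    Function.Injective (Xi a b ν T P0 ((a - 1) + (T.card + 2) * b)) := by
  rw [injective_iff_map_eq_zero]
  rintro ⟨Q, hQ⟩ h0
  have hK : 0 < (a - 1) + (T.card + 2) * b := by positivity
  have hQd : Q.natDegree < (a - 1) + (T.card + 2) * b := natDegree_lt_of_mem hK hQ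
  have key := fun i => congrFun h0 i
  have hs : ∀ e : Fin (a - 1), ∑ j ∈ range (ν + 1 + 1), cc a (ν + 1) (P0 * Q) (e + 1) j = 0 := by
    intro e
    have := key (Sum.inl e)
    simp only [Xi, LinearMap.pi_apply, Sum.elim_inl, LinearMap.comp_apply, sumL_apply,
      LinearMap.mulLeft_apply, Submodule.subtype_apply, Pi.zero_apply] at this
    exact this
  have hj : ∀ x ∈ Pts (ν + 1) T, ∀ k < b, PowerSeries.coeff k
      (sfs a ν (hsum fun e j => cc a (ν + 1) (P0 * Q) e j) x) = 0 := by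
    intro x hx k hk
    have := key (Sum.inr (⟨x, hx⟩, ⟨k, hk⟩))
    simp only [Xi, LinearMap.pi_apply, Sum.elim_inr, LinearMap.comp_apply, jetL_apply,
      LinearMap.mulLeft_apply, Submodule.subtype_apply, Pi.zero_apply] at this
    exact this
  have := uniqueness (Q := Q) ha hZ hQd hdeg
    (fun e he1 he2 => by
      have := hs ⟨e - 1, by omega⟩
      simpa [show e - 1 + 1 = e by omega] using this)
    (fun θ hθ => hj θ (by simp [Pts, hθ]))
    (hj 1 (by simp [Pts]))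
    (hj _ (by simp [Pts]))
  exact Subtype.ext this

theorem Xi_surjective {a b ν h : ℕ} (ha : 0 < a) (hb : 0 < b) {T : Finset ℚ} {P0 : Polynomial ℚ}
    (hZ : ZeroPat b (ν + 1) h T P0)
    (hdeg : P0.natDegree + ((a - 1) + (T.card + 2) * b) < a * (ν + 1 + 1)) :
    Function.Surjective (Xi a b ν T P0 ((a - 1) + (T.card + 2) * b)) := by
  rw [← LinearMap.injective_iff_surjective_of_finrank_eq_finrank]
  · exact Xi_injective ha hb hZ hdeg
  · rw [(Polynomial.degreeLTEquiv ℚ _).finrank_eq, Module.finrank_fin_fun, Module.finrank_pi]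
    rw [Fintype.card_sum, Fintype.card_prod, Fintype.card_fin, Fintype.card_fin,
      Fintype.card_coe, card_Pts hZ.hT]

theorem exists_Q {a b ν h : ℕ} (ha : 0 < a) (hb : 0 < b) {T : Finset ℚ} {P0 : Polynomial ℚ}
    (hZ : ZeroPat b (ν + 1) h T P0)
    (hdeg : P0.natDegree + ((a - 1) + (T.card + 2) * b) < a * (ν + 1 + 1))
    (th : ℕ → ℚ) (jet : ℚ → ℕ → ℚ) :
    ∃ Q : Polynomial ℚ, Q.natDegree < (a - 1) + (T.card + 2) * b ∧
      (∀ e, 0 < e → e < a → ∑ j ∈ range (ν + 1 + 1), cc a (ν + 1) (P0 * Q) e j = th e) ∧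
      (∀ x ∈ Pts (ν + 1) T, ∀ k < b, PowerSeries.coeff k
        (sfs a ν (hsum fun e j => cc a (ν + 1) (P0 * Q) e j) x) = jet x k) := by
  obtain ⟨⟨Q, hQ⟩, h0⟩ := Xi_surjective ha hb hZ hdeg
    (Sum.elim (fun e : Fin (a - 1) => th (e + 1))
      (fun xk : ↥(Pts (ν + 1) T) × Fin b => jet (xk.1 : ℚ) xk.2))
  have hK : 0 < (a - 1) + (T.card + 2) * b := by positivity
  refine ⟨Q, ?_, ?_, ?_⟩
  · exact natDegree_lt_of_mem hK hQ
  · intro e he1 he2
    have := congrFun h0 (Sum.inl ⟨e - 1, by omega⟩)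
    simp only [Xi, LinearMap.pi_apply, Sum.elim_inl, LinearMap.comp_apply, sumL_apply,
      LinearMap.mulLeft_apply, Submodule.subtype_apply] at this
    simpa [show e - 1 + 1 = e by omega] using this
  · intro x hx k hk
    have := congrFun h0 (Sum.inr (⟨x, hx⟩, ⟨k, hk⟩))
    simp only [Xi, LinearMap.pi_apply, Sum.elim_inr, LinearMap.comp_apply, jetL_apply,
      LinearMap.mulLeft_apply, Submodule.subtype_apply] at this
    exact this

end Pool.Agent.Helper8
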