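import Pool.Agent.Helper8.NV4

/-! # The constant term of a telescoping sum, and reflection -/

namespace Pool.Agent.Helper8

open Finset PowerSeries

theorem rho0_telescope {a b ν : ℕ} {P : Polynomial ℚ} {d : ℕ} (hd : 0 < d)
    (hc : ∀ e < a, ∑ j ∈ range (ν + 1 + 1), cc a (ν + 1) P e j = 0) :
    rho0 a b (ν + 1) P d = ∑ q ∈ range d, PowerSeries.coeff (b - 1)
      (sfs a ν (hsum fun e j => cc a (ν + 1) P e j) (((q + 1 : ℕ) : ℚ) / d)) := by
  set c : ℕ → ℕ → ℚ := fun e j => cc a (ν + 1) P e j with hcdef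
  set F : ℕ → ℕ → ℚ := fun e q =>
    (-1) ^ (b - 1) * ((e + (b - 1)).choose e : ℚ) / (((q + 1 : ℕ) : ℚ) / d) ^ (e + 1 + (b - 1)) with hF
  have h1 : rho0 a b (ν + 1) P d = - ∑ e ∈ range a, ∑ j ∈ range (ν + 1 + 1),
      c e j * ∑ q ∈ range (d * j), F e q := by
    rw [rho0, sum_comm (s := range a)]
    congr 1
    refine sum_congr rfl fun j _ => ?_
    simp only [gj]
    rw [sum_comm]
    refine sum_congr rfl fun e _ => ?_
    rw [mul_sum]
    refine sum_congr rfl fun q _ => ?_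
    rw [hF]; simp only [sub_add_cancel]; rfl
  have h2 : ∀ e ∈ range a, ∑ j ∈ range (ν + 1 + 1), c e j * ∑ q ∈ range (d * j), F e q =
      ∑ j ∈ range (ν + 1), hsum c e j * (∑ q ∈ range (d * j), F e q -
        ∑ q ∈ range (d * (j + 1)), F e q) := by
    intro e he
    have := abel_sum (fun i => c e i) (fun j => ∑ q ∈ range (d * j), F e q) (ν + 1)
    rw [hc e (mem_range.1 he)] at this
    simp only [zero_mul, sub_zero] at this
    rw [← this]; rfl
  rw [h1, sum_congr rfl h2, ← sum_neg_distrib]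
  have h3 : ∀ q ∈ range d, PowerSeries.coeff (b - 1) (sfs a ν (hsum c) (((q + 1 : ℕ) : ℚ) / d)) =
      ∑ e ∈ range a, ∑ j ∈ range (ν + 1), hsum c e j * F e (d * j + q) := by
    intro q _
    rw [coeff_sfs, sum_comm]
    refine sum_congr rfl fun e _ => sum_congr rfl fun j _ => ?_
    rw [hF]; simp only
    have hd' : (d : ℚ) ≠ 0 := by exact_mod_cast hd.ne'
    have : ((q + 1 : ℕ) : ℚ) / d + j = ((d * j + q + 1 : ℕ) : ℚ) / d := by
      push_cast; field_simp; ring
    rw [this]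
  rw [sum_congr rfl h3, sum_comm]
  refine sum_congr rfl fun e _ => ?_
  rw [← sum_neg_distrib, sum_comm]
  refine sum_congr rfl fun j _ => ?_
  rw [← mul_sum, ← mul_neg]
  congr 1
  rw [mul_add, mul_one, sum_range_add, sub_add_cancel_left, neg_neg]

/-! ### Reflection -/

theorem rescale_neg_iv (y : ℚ) : rescale (-1 : ℚ) (iv y) = - iv (-y) := by
  ext k
  rw [coeff_rescale, map_neg, coeff_iv, coeff_iv, neg_pow y, pow_succ (-1 : ℚ) k]
  rcases Nat.even_or_odd k with h | h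
  · rw [h.neg_one_pow]; ring
  · rw [h.neg_one_pow]; ring

theorem rescale_C' (r x : ℚ) : rescale r (C x : ℚ⟦X⟧) = C x := by
  ext k
  rw [coeff_rescale, coeff_C]
  split_ifs with h
  · simp [h]
  · simp

theorem atp_reflect (n : ℕ) (P : Polynomial ℚ) (x : ℚ) :
    atp x (P.comp (-Polynomial.C (n : ℚ) - Polynomial.X)) = rescale (-1 : ℚ) (atp (-(n : ℚ) - x) P) := by
  have h : (atp x).comp (Polynomial.compRingHom (-Polynomial.C (n : ℚ) - Polynomial.X)) =
      (rescale (-1 : ℚ)).comp (atp (-(n : ℚ) - x)) := by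
    apply Polynomial.ringHom_ext
    · intro a
      simp [rescale_C']
    · simp [rescale_C']
      ring
  have := congrArg (fun f => f P) h
  simpa using this

theorem ivp_reflect {n j : ℕ} (hn : Even n) (hj : j ≤ n) :
    rescale (-1 : ℚ) (ivp n (n - j)) = ivp n j := by
  rw [ivp, map_prod, ivp]
  have h1 : ∀ i ∈ (range (n + 1)).erase (n - j), rescale (-1 : ℚ) (iv ((i : ℚ) - (n - j : ℕ))) =
      -1 * iv (((n - i : ℕ) : ℚ) - j) := by
    intro i hi
    rw [mem_erase, mem_range] at hi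
    rw [rescale_neg_iv, neg_one_mul]
    congr 2
    rw [Nat.cast_sub (by omega), Nat.cast_sub (by omega)]; ring
  rw [prod_congr rfl h1, prod_mul_distrib, prod_const, card_erase_of_mem (mem_range.2 (by omega)),
    card_range, Nat.add_sub_cancel, hn.neg_one_pow, one_mul]
  refine prod_bij (fun i _ => n - i) ?_ ?_ ?_ ?_
  · intro i hi; rw [mem_erase, mem_range] at *; omega
  · intro i hi i' hi' h; rw [mem_erase, mem_range] at *; omega
  · intro i hi; rw [mem_erase, mem_range] at *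
    exact ⟨n - i, by rw [mem_erase, mem_range]; omega, by omega⟩
  · intro i hi; rfl

theorem cc_reflect {a n : ℕ} (ha : Odd a) (hn : Even n) (P : Polynomial ℚ) {e j : ℕ} (he : e < a)
    (hj : j ≤ n) : cc a n (P.comp (-Polynomial.C (n : ℚ) - Polynomial.X)) e j =
      (-1) ^ e * cc a n P e (n - j) := by
  rw [cc, cc, cser, atp_reflect]
  have h1 : (-(n : ℚ) - -(j : ℚ)) = -((n - j : ℕ) : ℚ) := by
    rw [Nat.cast_sub hj]; ring
  rw [h1, ← ivp_reflect hn hj, ← map_pow, ← map_mul, coeff_rescale, ← cser]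
  congr 1
  have h2 : (-1 : ℚ) ^ (a - 1 - e) * (-1) ^ e = 1 := by
    rw [← pow_add, Nat.sub_add_cancel (by omega)]
    obtain ⟨k, hk⟩ := ha
    rw [hk, Nat.add_sub_cancel, pow_mul]; norm_num
  have h3 : (-1 : ℚ) ^ e * (-1) ^ e = 1 := by rw [← mul_pow]; norm_num
  have h4 : ((-1 : ℚ) ^ e) ≠ 0 := pow_ne_zero _ (by norm_num)
  exact mul_right_cancel₀ h4 (h2.trans h3.symm)

theorem sum_cc_reflect {a n : ℕ} (ha : Odd a) (hn : Even n) (P : Polynomial ℚ) {e : ℕ} (he : e < a) :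
    ∑ j ∈ range (n + 1), cc a n (P.comp (-Polynomial.C (n : ℚ) - Polynomial.X)) e j =
      (-1) ^ e * ∑ j ∈ range (n + 1), cc a n P e j := by
  rw [mul_sum, ← sum_range_reflect]
  refine sum_congr rfl fun j hj => ?_
  have := mem_range.1 hj
  rw [cc_reflect ha hn P he (by omega)]
  congr 2; omega

theorem hsum_reflect {c : ℕ → ℚ} {n j : ℕ} (hj : j ≤ n) (hc : ∑ i ∈ range (n + 1), c i = 0) :
    ∑ i ∈ range (j + 1), c (n - i) = - ∑ i ∈ range (n - j), c i := by
  have h1 : ∑ i ∈ range (j + 1), c (n - i) = ∑ i ∈ Ico (n - j) (n + 1), c i := by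
    rw [sum_Ico_eq_sum_range, ← sum_range_reflect]
    have : n + 1 - (n - j) = j + 1 := by omega
    rw [this]
    refine sum_congr rfl fun i hi => ?_
    have := mem_range.1 hi
    congr 1; omega
  have h2 := sum_range_add_sum_Ico c (show n - j ≤ n + 1 by omega)
  rw [h1]; linarith

theorem jet_reflect {a b ν : ℕ} (ha : Odd a) (hb : Odd b) (hn : Even (ν + 1)) {P : Polynomial ℚ}
    (hc : ∀ e < a, ∑ j ∈ range (ν + 1 + 1), cc a (ν + 1) P e j = 0) (x : ℚ) :
    PowerSeries.coeff (b - 1) (sfs a ν (hsum fun e j => cc a (ν + 1)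
      (P.comp (-Polynomial.C ((ν + 1 : ℕ) : ℚ) - Polynomial.X)) e j) x) =
    PowerSeries.coeff (b - 1) (sfs a ν (hsum fun e j => cc a (ν + 1) P e j) (-(ν : ℚ) - x)) := by
  rw [coeff_sfs, coeff_sfs, ← sum_range_reflect]
  refine sum_congr rfl fun j hj => sum_congr rfl fun e he => ?_
  have hj' := mem_range.1 hj
  have he' := mem_range.1 he
  have h1 : hsum (fun e j => cc a (ν + 1)
      (P.comp (-Polynomial.C ((ν + 1 : ℕ) : ℚ) - Polynomial.X)) e j) e (ν + 1 - 1 - j) =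
      -((-1) ^ e * hsum (fun e j => cc a (ν + 1) P e j) e j) := by
    rw [hsum, hsum]
    have h2 : ∀ i ∈ range (ν + 1 - 1 - j + 1), cc a (ν + 1)
        (P.comp (-Polynomial.C ((ν + 1 : ℕ) : ℚ) - Polynomial.X)) e i =
        (-1) ^ e * cc a (ν + 1) P e (ν + 1 - i) := by
      intro i hi
      have := mem_range.1 hi
      exact cc_reflect ha hn P he' (by omega)
    rw [sum_congr rfl h2, ← mul_sum, hsum_reflect (by omega) (hc e he')]
    rw [show ν + 1 - (ν + 1 - 1 - j) = j + 1 by omega]; ring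
  rw [h1]
  have h3 : (x + ((ν + 1 - 1 - j : ℕ) : ℚ)) = -((-(ν : ℚ) - x) + j) := by
    rw [Nat.cast_sub (by omega), Nat.add_sub_cancel]; ring
  rw [h3]
  obtain ⟨k, hk⟩ := hb
  rw [show b - 1 = 2 * k by omega, neg_pow (-(ν : ℚ) - x + j)]
  have h4 : ((-1 : ℚ)) ^ (e + 1 + 2 * k) = -((-1) ^ e) := by
    rw [pow_add, pow_succ, pow_mul]; norm_num
  rw [h4]
  have h5 : ((-1 : ℚ) ^ e) * (-1) ^ e = 1 := by rw [← mul_pow]; norm_num
  have h6 : ((-1 : ℚ) ^ e) ≠ 0 := pow_ne_zero _ (by norm_num)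
  by_cases h0 : (-(ν : ℚ) - x + j) = 0
  · rw [h0]; simp
  · have h7 : (-(ν : ℚ) - x + j) ^ (e + 1 + 2 * k) ≠ 0 := pow_ne_zero _ h0
    field_simp

end Pool.Agent.Helper8
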