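import Pool.Agent.Helper8.NV5

/-! # The non-vanishing statement -/

namespace Pool.Agent.Helper8

open Finset PowerSeries

theorem gser_eq_sfs {a n : ℕ} (ha : 0 < a) {P : Polynomial ℚ} (hP : P.natDegree < a * (n + 1)) {x : ℚ}
    (hx : ∀ j ∈ range (n + 1), x + (j : ℚ) ≠ 0) :
    gser a n P x = sfs a n (fun e j => cc a n P e j) x := gser_eq ha hP hx

theorem mem_Pts_of_mem {n : ℕ} {T : Finset ℚ} {x : ℚ} (h : x ∈ T) : x ∈ Pts n T :=
  mem_insert_of_mem (mem_insert_of_mem h)

theorem one_mem_Pts {n : ℕ} {T : Finset ℚ} : (1 : ℚ) ∈ Pts n T := mem_insert_self _ _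

theorem neg_mem_Pts {n : ℕ} {T : Finset ℚ} : (-(n : ℚ)) ∈ Pts n T :=
  mem_insert_of_mem (mem_insert_self _ _)

/-- jets are constant along runs of zeros -/
theorem jet_step {a b ν : ℕ} (ha : 0 < a) {P : Polynomial ℚ}
    (hP : P.natDegree < a * (ν + 1 + 1))
    (hc : ∀ e < a, ∑ j ∈ range (ν + 1 + 1), cc a (ν + 1) P e j = 0) {x : ℚ}
    (hx : ∀ j ∈ range (ν + 1 + 1), x + (j : ℚ) ≠ 0)
    (hz : (Polynomial.X - Polynomial.C x) ^ b ∣ P) {k : ℕ} (hk : k < b) :
    PowerSeries.coeff k (sfs a ν (hsum fun e j => cc a (ν + 1) P e j) x) =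
    PowerSeries.coeff k (sfs a ν (hsum fun e j => cc a (ν + 1) P e j) (x + 1)) := by
  have h1 := sfs_telescope (a := a) (n := ν) (fun e j => cc a (ν + 1) P e j) hc x
  rw [← gser_eq_sfs ha hP hx] at h1
  have h2 := congrArg (PowerSeries.coeff k) h1
  rw [map_sub] at h2
  obtain ⟨f, hf⟩ := X_pow_dvd_atp_of_pow_dvd hz
  have h3 : PowerSeries.coeff k (gser a (ν + 1) P x) = 0 := by
    rw [gser, hf, mul_assoc]
    exact PowerSeries.X_pow_dvd_iff.1 (dvd_mul_right _ _) _ hk
  rw [h3] at h2
  linarith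

theorem jet_run {a b ν h : ℕ} (ha : 0 < a) {T : Finset ℚ} {P0 Q : Polynomial ℚ}
    (hZ : ZeroPat b (ν + 1) h T P0)
    (hP : (P0 * Q).natDegree < a * (ν + 1 + 1))
    (hc : ∀ e < a, ∑ j ∈ range (ν + 1 + 1), cc a (ν + 1) (P0 * Q) e j = 0) {θ : ℚ} (hθ : θ ∈ T)
    {k : ℕ} (hk : k < b) (i : ℕ) (hi : i ≤ ν + 1) :
    PowerSeries.coeff k (sfs a ν (hsum fun e j => cc a (ν + 1) (P0 * Q) e j) (θ - i)) =
    PowerSeries.coeff k (sfs a ν (hsum fun e j => cc a (ν + 1) (P0 * Q) e j) θ) := by
  induction i with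
  | zero => simp
  | succ i ih =>
    rw [← ih (by omega)]
    have h1 : (θ - (i : ℚ)) = (θ - ((i + 1 : ℕ) : ℚ)) + 1 := by push_cast; ring
    rw [h1]
    refine jet_step ha hP hc ?_ ?_ hk
    · intro j _
      have := frac_ne_int (hZ.hT θ hθ) (-((i + 1 : ℕ) : ℤ) + j) 0
      intro h0
      apply this
      push_cast at h0 ⊢
      linarith
    · have := hZ.frac θ hθ (-((i + 1 : ℕ) : ℤ)) (by omega) (by omega)
      push_cast at this ⊢
      rw [← sub_eq_add_neg] at this
      exact this.mul_right _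

theorem rho0_add (a b n : ℕ) (P Q : Polynomial ℚ) (d : ℕ) :
    rho0 a b n (P + Q) d = rho0 a b n P d + rho0 a b n Q d := by
  rw [rho0, rho0, rho0, ← neg_add, ← sum_add_distrib]
  congr 1
  refine sum_congr rfl fun j _ => ?_
  rw [← sum_add_distrib]
  refine sum_congr rfl fun q _ => ?_
  rw [gj, gj, gj, ← sum_add_distrib]
  refine sum_congr rfl fun e _ => ?_
  rw [cc_add, add_mul]

theorem rho0_C_mul (a b n : ℕ) (c : ℚ) (P : Polynomial ℚ) (d : ℕ) :
    rho0 a b n (Polynomial.C c * P) d = c * rho0 a b n P d := by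
  rw [rho0, rho0, mul_neg, mul_sum]
  congr 1
  refine sum_congr rfl fun j _ => ?_
  rw [mul_sum]
  refine sum_congr rfl fun q _ => ?_
  rw [gj, gj, mul_sum]
  refine sum_congr rfl fun e _ => ?_
  rw [cc_C_mul, mul_assoc]

/-- the reflection polynomial -/
noncomputable def refl (n : ℕ) : Polynomial ℚ := -Polynomial.C (n : ℚ) - Polynomial.X

theorem comp_refl_refl (n : ℕ) (Q : Polynomial ℚ) : (Q.comp (refl n)).comp (refl n) = Q := by
  rw [Polynomial.comp_assoc]
  have : (refl n).comp (refl n) = Polynomial.X := by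
    rw [refl]; simp
  rw [this]; simp

theorem natDegree_comp_refl (n : ℕ) (Q : Polynomial ℚ) :
    (Q.comp (refl n)).natDegree = Q.natDegree := by
  rw [Polynomial.natDegree_comp]
  have : (refl n).natDegree = 1 := by
    have h : refl n = Polynomial.C (-1) * Polynomial.X + Polynomial.C (-(n : ℚ)) := by
      rw [refl]; simp; ring
    rw [h, Polynomial.natDegree_linear (by norm_num)]
  rw [this, mul_one]

/-- hypotheses collected -/
structure Setup (a b ν h : ℕ) (T : Finset ℚ) (P0 : Polynomial ℚ) : Prop where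
  ha : Odd a
  hb : Odd b
  hn : Even (ν + 1)
  hZ : ZeroPat b (ν + 1) h T P0
  hdeg : P0.natDegree + ((a - 1) + (T.card + 2) * b) < a * (ν + 1 + 1)
  hsym : P0.comp (refl (ν + 1)) = P0

theorem exists_const {a b ν h : ℕ} {T : Finset ℚ} {P0 : Polynomial ℚ} (S : Setup a b ν h T P0)
    {F : Finset ℕ} (hF : ∀ d ∈ F, 0 < d)
    (hTF : ∀ d ∈ F, ∀ q : ℕ, 0 < q → q < d → ((q : ℚ) / d) ∈ T) {w : ℕ → ℚ}
    (hw : ∃ d ∈ F, w d ≠ 0) :
    ∃ Q : Polynomial ℚ, Q.comp (refl (ν + 1)) = Q ∧ Q.natDegree < (a - 1) + (T.card + 2) * b ∧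
      (∀ e < a, ∑ j ∈ range (ν + 1 + 1), cc a (ν + 1) (P0 * Q) e j = 0) ∧
      ∑ d ∈ F, w d * rho0 a b (ν + 1) (P0 * Q) d ≠ 0 := by
  have ha : 0 < a := S.ha.pos
  have hb : 0 < b := S.hb.pos
  -- the largest denominator with nonzero weight
  obtain ⟨d0, hd0, hmax⟩ := exists_max_image (F.filter fun d => w d ≠ 0) id
    (by obtain ⟨d, hd, hwd⟩ := hw; exact ⟨d, mem_filter.2 ⟨hd, hwd⟩⟩)
  rw [mem_filter] at hd0
  have hd0pos := hF d0 hd0.1
  set jet : ℚ → ℕ → ℚ := fun x k => if x = 1 / (d0 : ℚ) ∧ k = b - 1 then 1 else 0 with hjet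
  obtain ⟨Q, hQd, hQs, hQj⟩ := exists_Q ha hb S.hZ S.hdeg (fun _ => 0) jet
  have hQd' : (P0 * Q).natDegree + 1 < a * (ν + 1 + 1) := by
    have := Polynomial.natDegree_mul_le (p := P0) (q := Q)
    have := S.hdeg
    omega
  have hall : ∀ e < a, ∑ j ∈ range (ν + 1 + 1), cc a (ν + 1) (P0 * Q) e j = 0 := by
    intro e he
    rcases Nat.eq_zero_or_pos e with h0 | h0
    · rw [h0]; exact sum_residues ha hQd'
    · exact hQs e h0 he
  have hcomp : P0 * (Q + Q.comp (refl (ν + 1))) = P0 * Q + (P0 * Q).comp (refl (ν + 1)) := by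
    rw [Polynomial.mul_comp, S.hsym, mul_add]
  have hall' : ∀ e < a, ∑ j ∈ range (ν + 1 + 1), cc a (ν + 1) ((P0 * Q).comp (refl (ν + 1))) e j = 0 := by
    intro e he
    rw [refl, sum_cc_reflect S.ha S.hn _ he, hall e he, mul_zero]
  refine ⟨Q + Q.comp (refl (ν + 1)), ?_, ?_, ?_, ?_⟩
  · rw [Polynomial.add_comp, comp_refl_refl, add_comm]
  · refine (Polynomial.natDegree_add_le _ _).trans_lt ?_
    rw [natDegree_comp_refl]; exact max_lt hQd hQd
  · intro e he
    rw [hcomp]
    simp only [cc_add]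
    rw [sum_add_distrib, hall e he, hall' e he, add_zero]
  · -- the value
    have hval : ∀ d ∈ F, w d * rho0 a b (ν + 1) (P0 * (Q + Q.comp (refl (ν + 1)))) d =
        if d = d0 then w d0 * (rho0 a b (ν + 1) (P0 * (Q + Q.comp (refl (ν + 1)))) d0) else 0 := by
      intro d hd
      split_ifs with h
      · rw [h]
      · by_cases hwd : w d = 0
        · rw [hwd, zero_mul]
        · have hle : d ≤ d0 := hmax d (mem_filter.2 ⟨hd, hwd⟩)
          have hlt : d < d0 := lt_of_le_of_ne hle h
          have hdpos := hF d hd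
          -- no point of denominator `d` equals `1/d0`
          have hno : ∀ q : ℕ, 0 < q → ((q : ℚ) / d) ≠ 1 / (d0 : ℚ) := by
            intro q hq he
            have h1 : (q : ℚ) * d0 = d := by
              have hd' : (d : ℚ) ≠ 0 := by positivity
              have hd0' : (d0 : ℚ) ≠ 0 := by positivity
              field_simp at he
              linarith
            have h2 : q * d0 = d := by exact_mod_cast h1
            have h3 : d0 ≤ q * d0 := Nat.le_mul_of_pos_left _ hq
            omega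
          have hz : rho0 a b (ν + 1) (P0 * (Q + Q.comp (refl (ν + 1)))) d = 0 := by
            rw [hcomp, rho0_add, rho0_telescope hdpos hall, rho0_telescope hdpos hall']
            have e1 : ∀ q ∈ range d, PowerSeries.coeff (b - 1)
                (sfs a ν (hsum fun e j => cc a (ν + 1) (P0 * Q) e j) (((q + 1 : ℕ) : ℚ) / d)) = 0 := by
              intro q hq
              have hq' := mem_range.1 hq
              have hmem : (((q + 1 : ℕ) : ℚ) / d) ∈ Pts (ν + 1) T := by
                rcases Nat.lt_or_ge (q + 1) d with h5 | h5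
                · exact mem_Pts_of_mem (hTF d hd (q + 1) (by omega) h5)
                · have : q + 1 = d := by omega
                  rw [this, div_self (by positivity)]; exact one_mem_Pts
              rw [hQj _ hmem (b - 1) (by omega), hjet]; simp only
              rw [if_neg]; rintro ⟨h5, _⟩; exact hno (q + 1) (by omega) h5
            have e2 : ∀ q ∈ range d, PowerSeries.coeff (b - 1)
                (sfs a ν (hsum fun e j => cc a (ν + 1) ((P0 * Q).comp (refl (ν + 1))) e j)
                  (((q + 1 : ℕ) : ℚ) / d)) = 0 := by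
              intro q hq
              have hq' := mem_range.1 hq
              rw [refl, jet_reflect S.ha S.hb S.hn hall]
              rcases Nat.lt_or_ge (q + 1) d with h5 | h5
              · have hmem := hTF d hd (d - (q + 1)) (by omega) (by omega)
                have h6 : (-(ν : ℚ) - ((q + 1 : ℕ) : ℚ) / d) =
                    (((d - (q + 1) : ℕ) : ℚ) / d) - ((ν + 1 : ℕ) : ℚ) := by
                  rw [Nat.cast_sub (by omega)]
                  have : (d : ℚ) ≠ 0 := by positivity
                  push_cast; field_simp; ring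
                rw [h6, jet_run ha S.hZ (by omega) hall hmem (by omega) _ le_rfl,
                  hQj _ (mem_Pts_of_mem hmem) (b - 1) (by omega), hjet]; simp only
                rw [if_neg]; rintro ⟨h7, _⟩; exact hno (d - (q + 1)) (by omega) h7
              · have h6 : q + 1 = d := by omega
                have h7 : (-(ν : ℚ) - ((q + 1 : ℕ) : ℚ) / d) = -((ν + 1 : ℕ) : ℚ) := by
                  rw [h6, div_self (by positivity)]; push_cast; ring
                rw [h7, hQj _ neg_mem_Pts (b - 1) (by omega), hjet]; simp only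
                rw [if_neg]; rintro ⟨h8, _⟩
                have h9 : (0 : ℚ) < 1 / d0 := by positivity
                have h10 : -((ν + 1 : ℕ) : ℚ) ≤ 0 := by
                  rw [neg_nonpos]; positivity
                linarith
            rw [sum_eq_zero e1, sum_eq_zero e2, add_zero]
          rw [hz, mul_zero]
    rw [sum_congr rfl hval, sum_ite_eq', if_pos hd0.1]
    refine mul_ne_zero hd0.2 ?_
    rw [hcomp, rho0_add, rho0_telescope hd0pos hall, rho0_telescope hd0pos hall']
    have e1 : ∑ q ∈ range d0, PowerSeries.coeff (b - 1)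
        (sfs a ν (hsum fun e j => cc a (ν + 1) (P0 * Q) e j) (((q + 1 : ℕ) : ℚ) / d0)) ≥ 1 := by
      have h1 : ∀ q ∈ range d0, 0 ≤ PowerSeries.coeff (b - 1)
          (sfs a ν (hsum fun e j => cc a (ν + 1) (P0 * Q) e j) (((q + 1 : ℕ) : ℚ) / d0)) := by
        intro q hq
        have hq' := mem_range.1 hq
        have hmem : (((q + 1 : ℕ) : ℚ) / d0) ∈ Pts (ν + 1) T := by
          rcases Nat.lt_or_ge (q + 1) d0 with h5 | h5
          · exact mem_Pts_of_mem (hTF d0 hd0.1 (q + 1) (by omega) h5)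
          · have : q + 1 = d0 := by omega
            rw [this, div_self (by positivity)]; exact one_mem_Pts
        rw [hQj _ hmem (b - 1) (by omega), hjet]; simp only
        split_ifs <;> norm_num
      refine le_trans ?_ (single_le_sum h1 (mem_range.2 hd0pos))
      have hmem : (((0 + 1 : ℕ) : ℚ) / d0) ∈ Pts (ν + 1) T := by
        rcases Nat.lt_or_ge 1 d0 with h5 | h5
        · exact mem_Pts_of_mem (hTF d0 hd0.1 1 (by omega) h5)
        · have : 1 = d0 := by omega
          have h6 : (((0 + 1 : ℕ) : ℚ) / d0) = 1 := by rw [← this]; simp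
          rw [h6]; exact one_mem_Pts
      rw [hQj _ hmem (b - 1) (by omega), hjet]; simp
    have e2 : ∑ q ∈ range d0, PowerSeries.coeff (b - 1)
        (sfs a ν (hsum fun e j => cc a (ν + 1) ((P0 * Q).comp (refl (ν + 1))) e j)
          (((q + 1 : ℕ) : ℚ) / d0)) ≥ 0 := by
      refine sum_nonneg fun q hq => ?_
      have hq' := mem_range.1 hq
      rw [refl, jet_reflect S.ha S.hb S.hn hall]
      rcases Nat.lt_or_ge (q + 1) d0 with h5 | h5
      · have hmem := hTF d0 hd0.1 (d0 - (q + 1)) (by omega) (by omega)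
        have h6 : (-(ν : ℚ) - ((q + 1 : ℕ) : ℚ) / d0) =
            (((d0 - (q + 1) : ℕ) : ℚ) / d0) - ((ν + 1 : ℕ) : ℚ) := by
          rw [Nat.cast_sub (by omega)]
          have : (d0 : ℚ) ≠ 0 := by positivity
          push_cast; field_simp; ring
        rw [h6, jet_run ha S.hZ (by omega) hall hmem (by omega) _ le_rfl,
          hQj _ (mem_Pts_of_mem hmem) (b - 1) (by omega), hjet]; simp only
        split_ifs <;> norm_num
      · have h6 : q + 1 = d0 := by omega
        have h7 : (-(ν : ℚ) - ((q + 1 : ℕ) : ℚ) / d0) = -((ν + 1 : ℕ) : ℚ) := by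
          rw [h6, div_self (by positivity)]; push_cast; ring
        rw [h7, hQj _ neg_mem_Pts (b - 1) (by omega), hjet]; simp only
        split_ifs <;> norm_num
    linarith

/-- prescribed sums of coefficients -/
theorem exists_sums {a b ν h : ℕ} {T : Finset ℚ} {P0 : Polynomial ℚ} (S : Setup a b ν h T P0)
    (th : ℕ → ℚ) :
    ∃ Q : Polynomial ℚ, Q.comp (refl (ν + 1)) = Q ∧ Q.natDegree < (a - 1) + (T.card + 2) * b ∧
      (∀ e < a, 0 < e → Even e → ∑ j ∈ range (ν + 1 + 1), cc a (ν + 1) (P0 * Q) e j = th e) := by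
  have ha : 0 < a := S.ha.pos
  have hb : 0 < b := S.hb.pos
  obtain ⟨Q, hQd, hQs, -⟩ := exists_Q ha hb S.hZ S.hdeg (fun e => th e / 2) (fun _ _ => 0)
  have hcomp : P0 * (Q + Q.comp (refl (ν + 1))) = P0 * Q + (P0 * Q).comp (refl (ν + 1)) := by
    rw [Polynomial.mul_comp, S.hsym, mul_add]
  refine ⟨Q + Q.comp (refl (ν + 1)), ?_, ?_, ?_⟩
  · rw [Polynomial.add_comp, comp_refl_refl, add_comm]
  · refine (Polynomial.natDegree_add_le _ _).trans_lt ?_
    rw [natDegree_comp_refl]; exact max_lt hQd hQd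
  · intro e he he0 hev
    rw [hcomp]
    simp only [cc_add]
    rw [sum_add_distrib, refl, sum_cc_reflect S.ha S.hn _ he, hev.neg_one_pow, hQs e he0 he]
    ring

end Pool.Agent.Helper8
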