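import Pool.Agent.Helper8.Constr

/-! # Functional form of the non-vanishing statement -/

namespace Pool.Agent.Helper8

open Finset

/-- `2X + n` -/
noncomputable def UU (n : ℕ) : Polynomial ℚ := Polynomial.C 2 * Polynomial.X + Polynomial.C (n : ℚ)

theorem symm_expand {n K : ℕ} {Q : Polynomial ℚ} (hQ : Q.comp (refl n) = Q)
    (hd : Q.natDegree < K) :
    ∃ c : ℕ → ℚ, (∀ i, ¬ Even i → c i = 0) ∧ Q = ∑ i ∈ range K, Polynomial.C (c i) * UU n ^ i := by
  set V : Polynomial ℚ := Polynomial.C (1 / 2) * (Polynomial.X - Polynomial.C (n : ℚ)) with hV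
  have hVU : V.comp (UU n) = Polynomial.X := by
    rw [hV, UU]
    simp only [Polynomial.mul_comp, Polynomial.C_comp, Polynomial.sub_comp, Polynomial.X_comp]
    rw [add_sub_cancel_right, ← mul_assoc, ← Polynomial.C_mul]; norm_num
  have hrV : (refl n).comp V = V.comp (-Polynomial.X) := by
    rw [hV, refl]
    simp only [Polynomial.mul_comp, Polynomial.C_comp, Polynomial.sub_comp, Polynomial.X_comp,
      Polynomial.neg_comp]
    have : (Polynomial.C (n : ℚ) : Polynomial ℚ) = Polynomial.C (1 / 2) * (Polynomial.C (n : ℚ) + Polynomial.C (n : ℚ)) := by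
      rw [← Polynomial.C_add, ← Polynomial.C_mul]; congr 1; ring
    linear_combination (-1 : Polynomial ℚ) * this
  set S := Q.comp V with hS
  have hSsymm : S.comp (-Polynomial.X) = S := by
    rw [hS, Polynomial.comp_assoc, ← hrV, ← Polynomial.comp_assoc, hQ]
  have hSdeg : S.natDegree < K := by
    rw [hS, Polynomial.natDegree_comp]
    have : V.natDegree = 1 := by
      rw [hV, Polynomial.natDegree_C_mul (by norm_num), Polynomial.natDegree_X_sub_C]
    rw [this, mul_one]; exact hd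
  refine ⟨fun i => S.coeff i, ?_, ?_⟩
  · intro i hi
    have h1 := congrArg (fun p => Polynomial.coeff p i) hSsymm
    have h2 : (-Polynomial.X : Polynomial ℚ) = Polynomial.C (-1) * Polynomial.X := by simp
    rw [h2, Polynomial.comp_C_mul_X_coeff] at h1
    rw [Nat.not_even_iff_odd] at hi
    rw [hi.neg_one_pow] at h1
    linarith
  · have h2 : Q = S.comp (UU n) := by
      rw [hS, Polynomial.comp_assoc, hVU, Polynomial.comp_X]
    conv_lhs => rw [h2, Polynomial.as_sum_range_C_mul_X_pow' S hSdeg]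
    rw [Polynomial.sum_comp]
    refine sum_congr rfl fun i _ => ?_
    simp

/-- the even indices -/
def Ev (a : ℕ) : Finset ℕ := (range a).filter fun e => 0 < e ∧ Even e

theorem mem_Ev {a e : ℕ} : e ∈ Ev a ↔ e < a ∧ 0 < e ∧ Even e := by
  simp [Ev]

/-- `rho0` as a linear map -/
noncomputable def rho0L (a b n d : ℕ) : Polynomial ℚ →ₗ[ℚ] ℚ where
  toFun P := rho0 a b n P d
  map_add' P Q := rho0_add a b n P Q d
  map_smul' c P := by
    rw [Polynomial.smul_eq_C_mul, rho0_C_mul]; simp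

theorem rho0L_apply (a b n d : ℕ) (P : Polynomial ℚ) : rho0L a b n d P = rho0 a b n P d := rfl

theorem nv_functional {a b ν h : ℕ} {T : Finset ℚ} {P0 : Polynomial ℚ} (S : Setup a b ν h T P0)
    {F : Finset ℕ} (hF : ∀ d ∈ F, 0 < d)
    (hTF : ∀ d ∈ F, ∀ q : ℕ, 0 < q → q < d → ((q : ℚ) / d) ∈ T) {w : ℕ → ℚ}
    (hw : ∃ d ∈ F, w d ≠ 0) (μ0 : ℚ) (μ : ℕ → ℚ)
    (hL : ∀ i < (a - 1) + (T.card + 2) * b, Even i →
      μ0 * ∑ d ∈ F, w d * rho0 a b (ν + 1) (P0 * UU (ν + 1) ^ i) d +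
        ∑ e ∈ Ev a, μ e * ∑ j ∈ range (ν + 1 + 1), cc a (ν + 1) (P0 * UU (ν + 1) ^ i) e j = 0) :
    μ0 = 0 ∧ ∀ e ∈ Ev a, μ e = 0 := by
  set L : Polynomial ℚ →ₗ[ℚ] ℚ := (μ0 • ∑ d ∈ F, w d • rho0L a b (ν + 1) d +
    ∑ e ∈ Ev a, μ e • sumL a (ν + 1) e) ∘ₗ LinearMap.mulLeft ℚ P0 with hLdef
  have hLa : ∀ Q, L Q = μ0 * ∑ d ∈ F, w d * rho0 a b (ν + 1) (P0 * Q) d +
        ∑ e ∈ Ev a, μ e * ∑ j ∈ range (ν + 1 + 1), cc a (ν + 1) (P0 * Q) e j := by
    intro Q
    rw [hLdef]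
    simp only [LinearMap.comp_apply, LinearMap.add_apply, LinearMap.smul_apply,
      LinearMap.sum_apply, smul_eq_mul, rho0L_apply, sumL_apply, LinearMap.mulLeft_apply]
  have hsymm : ∀ Q : Polynomial ℚ, Q.comp (refl (ν + 1)) = Q →
      Q.natDegree < (a - 1) + (T.card + 2) * b → L Q = 0 := by
    intro Q hQ hd
    obtain ⟨c, hc, hQc⟩ := symm_expand hQ hd
    rw [hQc, map_sum]
    refine sum_eq_zero fun i hi => ?_
    rw [← Polynomial.smul_eq_C_mul, map_smul, smul_eq_mul]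
    by_cases h : Even i
    · rw [hLa, hL i (mem_range.1 hi) h, mul_zero]
    · rw [hc i h, zero_mul]
  have h0 : μ0 = 0 := by
    obtain ⟨Q, hQ1, hQ2, hQ3, hQ4⟩ := exists_const S hF hTF hw
    have h1 := hsymm Q hQ1 hQ2
    rw [hLa] at h1
    have h2 : ∑ e ∈ Ev a, μ e * ∑ j ∈ range (ν + 1 + 1), cc a (ν + 1) (P0 * Q) e j = 0 := by
      refine sum_eq_zero fun e he => ?_
      rw [hQ3 e (mem_Ev.1 he).1, mul_zero]
    rw [h2, add_zero] at h1
    exact (mul_eq_zero.1 h1).resolve_right hQ4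
  refine ⟨h0, fun e0 he0 => ?_⟩
  obtain ⟨Q, hQ1, hQ2, hQ3⟩ := exists_sums S (fun e => if e = e0 then 1 else 0)
  have h1 := hsymm Q hQ1 hQ2
  rw [hLa, h0, zero_mul, zero_add] at h1
  have h2 : ∀ e ∈ Ev a, μ e * ∑ j ∈ range (ν + 1 + 1), cc a (ν + 1) (P0 * Q) e j =
      if e = e0 then μ e0 else 0 := by
    intro e he
    have he' := mem_Ev.1 he
    rw [hQ3 e he'.1 he'.2.1 he'.2.2]
    split_ifs with h
    · rw [h, mul_one]
    · rw [mul_zero]
  rw [sum_congr rfl h2, sum_ite_eq', if_pos he0] at h1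
  exact h1

end Pool.Agent.Helper8
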