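import Pool.Agent.Helper8.Core2

/-! # Choice of the parameters -/

namespace Pool.Agent.Helper8

open Finset

theorem gap_aux {r E t lam κ A0 m b : ℕ} (hκ : 1 ≤ κ) (hm : m ≤ 2 ^ lam) (hm1 : 1 ≤ m)
    (hb : 1 ≤ b)
    (hr : r = 2 ^ (10 * κ)) (hE : EE r t = E)
    (hA0 : 8 + (16 + 10 * κ) * E + 4 * (t * (2 * r + 1)) * lam < A0) :
    (256 ^ (b * A0 + b) * betaC m r (b * A0) b t) ^ κ * betaV m r (b * (A0 - E)) b t < 1 := by
  have hr1 : 1 ≤ r := by rw [hr]; exact Nat.one_le_two_pow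
  set u := t * (2 * r + 1) with hu
  have hEA : E ≤ A0 := by nlinarith
  have e1 : (256 : ℝ) ^ (b * A0 + b) = (256 ^ (A0 + 1)) ^ b := by
    rw [← pow_mul]; congr 1; ring
  have e2 : betaC m r (b * A0) b t = (2 ^ A0 * (3 * ((r : ℝ) + 2)) ^ E * (m : ℝ) ^ (2 * u)) ^ b := by
    rw [betaC, hE, ← hu]
    generalize (3 * ((r : ℝ) + 2)) = X
    rw [mul_pow, mul_pow, ← pow_mul, ← pow_mul, ← pow_mul, mul_comm A0 b, mul_comm E b]
  have e3 : betaV m r (b * (A0 - E)) b t = (3 ^ E * (m : ℝ) ^ (2 * u) / (r : ℝ) ^ (A0 - E)) ^ b := by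
    rw [betaV, hE, div_pow, mul_pow, ← pow_mul, ← pow_mul, ← pow_mul, ← hu, mul_comm (A0 - E) b,
      mul_comm E b]
  rw [e1, e2, e3, ← mul_pow, ← pow_mul, mul_comm b κ, pow_mul, ← mul_pow]
  refine pow_lt_one₀ (by positivity) ?_ (by omega)
  rw [← mul_div_assoc, div_lt_one (by positivity)]
  have hmR : (m : ℝ) ≤ 2 ^ lam := by exact_mod_cast hm
  have hrR : (r : ℝ) = 2 ^ (10 * κ) := by exact_mod_cast hr
  have hr1R : (1 : ℝ) ≤ r := by exact_mod_cast hr1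
  have f1 : (m : ℝ) ^ (2 * u) ≤ 2 ^ (2 * u * lam) := by
    calc (m : ℝ) ^ (2 * u) ≤ (2 ^ lam) ^ (2 * u) := pow_le_pow_left₀ (by positivity) hmR _
      _ = _ := by rw [← pow_mul]; congr 1; ring
  have f2 : (3 * ((r : ℝ) + 2)) ^ E ≤ 2 ^ ((4 + 10 * κ) * E) := by
    calc (3 * ((r : ℝ) + 2)) ^ E ≤ (2 ^ (4 + 10 * κ)) ^ E := by
          refine pow_le_pow_left₀ (by positivity) ?_ _
          rw [pow_add, ← hrR]; linarith
      _ = _ := by rw [← pow_mul]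
  have f3 : (3 : ℝ) ^ E ≤ 2 ^ (2 * E) := by
    rw [pow_mul]; exact pow_le_pow_left₀ (by norm_num) (by norm_num) _
  have f4 : (256 : ℝ) ^ (A0 + 1) = 2 ^ (8 * (A0 + 1)) := by
    rw [pow_mul]; norm_num
  have f5 : (r : ℝ) ^ (A0 - E) = 2 ^ (10 * κ * (A0 - E)) := by rw [hrR, ← pow_mul]
  rw [f4, f5]
  calc ((2 : ℝ) ^ (8 * (A0 + 1)) * (2 ^ A0 * (3 * ((r : ℝ) + 2)) ^ E * (m : ℝ) ^ (2 * u))) ^ κ *
        (3 ^ E * (m : ℝ) ^ (2 * u))
      ≤ ((2 : ℝ) ^ (8 * (A0 + 1)) * (2 ^ A0 * 2 ^ ((4 + 10 * κ) * E) * 2 ^ (2 * u * lam))) ^ κ *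
        (2 ^ (2 * E) * 2 ^ (2 * u * lam)) := by gcongr
    _ = 2 ^ ((8 * (A0 + 1) + (A0 + (4 + 10 * κ) * E + 2 * u * lam)) * κ + (2 * E + 2 * u * lam)) := by
        simp only [← pow_add, ← pow_mul]
    _ < 2 ^ (10 * κ * (A0 - E)) := by
        refine pow_lt_pow_right₀ (by norm_num) ?_
        obtain ⟨A1, rfl⟩ := Nat.exists_eq_add_of_le hEA
        rw [Nat.add_sub_cancel_left]
        have h1 : (2 * E + 2 * u * lam) ≤ κ * (2 * E + 2 * u * lam) := Nat.le_mul_of_pos_left _ hκ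
        have h2 : κ * (8 + (16 + 10 * κ) * E + 4 * u * lam) < κ * (E + A1) :=
          Nat.mul_lt_mul_of_pos_left hA0 hκ
        nlinarith

theorem card_TT_Icc_le (m : ℕ) : (TT (Icc 1 m)).card ≤ m ^ 2 := by
  refine (card_TT_le _).trans ?_
  have h : ∀ d ∈ Icc 1 m, d ≤ m := fun d hd => (mem_Icc.1 hd).2
  refine (sum_le_sum h).trans ?_
  rw [sum_const, Nat.card_Icc, smul_eq_mul, Nat.add_sub_cancel, pow_two]

theorem zt_eq_zeta {i : ℕ} (hi : 1 < i) : ((zt i : ℝ) : ℂ) = riemannZeta (i : ℂ) := by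
  rw [zeta_nat_eq_tsum_of_gt_one hi, zt, Complex.ofReal_tsum]
  have h1 : Summable fun n : ℕ => 1 / (n : ℂ) ^ i := by
    have h2 : Summable fun n : ℕ => 1 / (n : ℝ) ^ i := Real.summable_one_div_nat_pow.2 hi
    have h3 : Summable fun n : ℕ => ‖1 / (n : ℂ) ^ i‖ := by
      refine h2.congr fun n => ?_
      rw [norm_div, norm_pow, Complex.norm_natCast, norm_one]
    exact h3.of_norm
  rw [h1.tsum_eq_zero_add]
  have h0 : (1 : ℂ) / ((0 : ℕ) : ℂ) ^ i = 0 := by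
    rw [Nat.cast_zero, zero_pow (by omega), div_zero]
  rw [h0, zero_add]
  refine tsum_congr fun n => ?_
  push_cast
  rfl

theorem lam_le {m : ℕ} (hm : 1 ≤ m) :
    ((Nat.log 2 m + 1 : ℕ) : ℝ) ≤ 3 * Real.log ((m : ℝ) + 1) := by
  have hl2 := Real.log_two_gt_d9
  have h1 : (2 : ℝ) ^ (Nat.log 2 m) ≤ m := by exact_mod_cast Nat.pow_log_le_self 2 (by omega)
  have hm' : (1 : ℝ) ≤ m := by exact_mod_cast hm
  have h2 : (Nat.log 2 m : ℝ) * Real.log 2 ≤ Real.log ((m : ℝ) + 1) := by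
    rw [← Real.log_pow]
    exact Real.log_le_log (by positivity) (by linarith)
  have h3 : Real.log 2 ≤ Real.log ((m : ℝ) + 1) := Real.log_le_log (by norm_num) (by linarith)
  push_cast
  have h4 : ((Nat.log 2 m : ℝ) + 1) * Real.log 2 ≤ 2 * Real.log ((m : ℝ) + 1) := by linarith
  have h5 : (0 : ℝ) ≤ (Nat.log 2 m : ℝ) + 1 := by positivity
  nlinarith

theorem one_le_log {m : ℕ} (hm : 1 ≤ m) : 1 ≤ 3 / 2 * Real.log ((m : ℝ) + 1) := by
  have hl2 := Real.log_two_gt_d9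
  have hm' : (1 : ℝ) ≤ m := by exact_mod_cast hm
  have h3 : Real.log 2 ≤ Real.log ((m : ℝ) + 1) := Real.log_le_log (by norm_num) (by linarith)
  linarith

/-- the size of the final interval -/
theorem size_final {κ m l r t E lam A0 b i : ℕ} (hκ : 1 ≤ κ) (hm : 1 ≤ m) (hl : 1 ≤ l)
    (hr : r = 2 ^ (10 * (κ + 1))) (ht : t ≤ m ^ 2) (hE : E = 2 * r + t * (2 * r + 1))
    (hlam : lam = Nat.log 2 m + 1)
    (hA0 : A0 = 2 * (9 + (16 + 10 * (κ + 1)) * E + 4 * (t * (2 * r + 1)) * lam) + 1)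
    (hb : b ≤ l + 3) (hi : i ≤ b * (A0 + 1)) :
    (i : ℝ) ≤ 2 ^ (32 * κ) * m ^ 2 * Real.log ((m : ℝ) + 1) * l := by
  have hr1 : 1 ≤ r := by rw [hr]; exact Nat.one_le_two_pow
  have hm2 : 1 ≤ m ^ 2 := Nat.one_le_pow _ _ hm
  have h1 : t * (2 * r + 1) ≤ 3 * r * m ^ 2 := by
    calc t * (2 * r + 1) ≤ m ^ 2 * (3 * r) := Nat.mul_le_mul ht (by omega)
      _ = _ := by ring
  have hrm : r ≤ r * m ^ 2 := Nat.le_mul_of_pos_right _ hm2
  have h2 : E ≤ 5 * (r * m ^ 2) := by rw [hE]; nlinarith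
  have h3 : A0 + 1 ≤ 2 * (r * m ^ 2) * (10 + 130 * (κ + 1) + 12 * lam) := by
    rw [hA0]
    have h4 : (16 + 10 * (κ + 1)) * E ≤ (26 * (κ + 1)) * (5 * (r * m ^ 2)) :=
      Nat.mul_le_mul (by omega) h2
    have h5 : 4 * (t * (2 * r + 1)) * lam ≤ 4 * (3 * r * m ^ 2) * lam :=
      Nat.mul_le_mul_right _ (Nat.mul_le_mul_left _ h1)
    have h6 : 1 ≤ r * m ^ 2 := Nat.mul_pos hr1 hm2
    nlinarith
  have h4 : i ≤ 4 * l * (2 * (r * m ^ 2) * (10 + 130 * (κ + 1) + 12 * lam)) := by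
    refine hi.trans (Nat.mul_le_mul (by omega) h3)
  have h5 : (i : ℝ) ≤ 4 * l * (2 * ((r : ℝ) * m ^ 2) * (10 + 130 * ((κ : ℝ) + 1) + 12 * lam)) := by
    exact_mod_cast h4
  refine h5.trans ?_
  have hlog := one_le_log hm
  have hlam' := lam_le hm
  rw [← hlam] at hlam'
  set Lg := Real.log ((m : ℝ) + 1) with hLg
  have hk1 : (1 : ℝ) ≤ (κ : ℝ) + 1 := by
    have : (0 : ℝ) ≤ κ := by positivity
    linarith
  have hLg0 : 0 < Lg := by linarith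
  have h6 : 10 + 130 * ((κ : ℝ) + 1) + 12 * lam ≤ 256 * ((κ : ℝ) + 1) * Lg := by
    have a1 : 10 + 130 * ((κ : ℝ) + 1) ≤ 140 * ((κ : ℝ) + 1) := by linarith
    have a2 : 140 * ((κ : ℝ) + 1) ≤ 140 * ((κ : ℝ) + 1) * (3 / 2 * Lg) :=
      le_mul_of_one_le_right (by positivity) hlog
    have a3 : 12 * (lam : ℝ) ≤ 36 * Lg := by linarith
    have a4 : 36 * Lg ≤ 36 * Lg * ((κ : ℝ) + 1) := le_mul_of_one_le_right (by positivity) hk1
    nlinarith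
  have h7 : ((κ : ℝ) + 1) ≤ 2 ^ κ := by
    have : κ + 1 ≤ 2 ^ κ := Nat.lt_two_pow_self
    exact_mod_cast this
  have hrR : (r : ℝ) = 2 ^ (10 * (κ + 1)) := by exact_mod_cast hr
  calc 4 * (l : ℝ) * (2 * ((r : ℝ) * m ^ 2) * (10 + 130 * ((κ : ℝ) + 1) + 12 * lam))
      ≤ 4 * (l : ℝ) * (2 * ((r : ℝ) * m ^ 2) * (256 * 2 ^ κ * Lg)) := by
        have : 256 * ((κ : ℝ) + 1) * Lg ≤ 256 * 2 ^ κ * Lg := by
          refine mul_le_mul_of_nonneg_right ?_ hLg0.le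
          linarith
        refine mul_le_mul_of_nonneg_left (mul_le_mul_of_nonneg_left (h6.trans this) ?_) ?_ <;>
          positivity
    _ = (2 ^ 11 * 2 ^ κ * 2 ^ (10 * (κ + 1))) * (m ^ 2 * Lg * l) := by rw [hrR]; ring
    _ ≤ 2 ^ (32 * κ) * (m ^ 2 * Lg * l) := by
        refine mul_le_mul_of_nonneg_right ?_ (by positivity)
        rw [← pow_add, ← pow_add]
        exact pow_le_pow_right₀ (by norm_num) (by omega)
    _ = _ := by ring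

end Pool.Agent.Helper8
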