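import Pool.Agent.Helper8.Core3

/-! # Choice of the parameters, sharp version -/

namespace Pool.Agent.Helper8

open Finset

/-- consequence of the prime number theorem -/
theorem lcmUpto_le_exp {δ : ℝ} (hδ : 0 < δ) :
    ∃ CG : ℝ, 1 ≤ CG ∧ ∀ n : ℕ, (Nat.lcmUpto n : ℝ) ≤ CG * Real.exp (1 + δ) ^ n := by
  have h1 := Pool.Agent.PNT.tendsto_log_lcmUpto_div
  have h2 : ∀ᶠ n : ℕ in Filter.atTop, Real.log (Nat.lcmUpto n) / n < 1 + δ :=
    h1.eventually_lt_const (by linarith)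
  obtain ⟨N, hN⟩ := Filter.eventually_atTop.1 h2
  have hN1 : (1 : ℝ) ≤ 256 ^ N := one_le_pow₀ (by norm_num)
  refine ⟨256 ^ N, hN1, fun n => ?_⟩
  have hexp : (1 : ℝ) ≤ Real.exp (1 + δ) ^ n := one_le_pow₀ (Real.one_le_exp (by linarith))
  rcases Nat.lt_or_ge n (N + 1) with hn | hn
  · have h3 := lcmUpto_le n
    have h4 : (256 : ℝ) ^ n ≤ 256 ^ N := pow_le_pow_right₀ (by norm_num) (by omega)
    nlinarith
  · have hn0 : (0 : ℝ) < n := by
      have : 0 < n := by omega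
      exact_mod_cast this
    have h3 := hN n (by omega)
    rw [div_lt_iff₀ hn0] at h3
    have h4 : (0 : ℝ) < Nat.lcmUpto n := by exact_mod_cast Nat.lcmUpto_pos n
    have h5 : (Nat.lcmUpto n : ℝ) ≤ Real.exp ((1 + δ) * n) := by
      rw [← Real.log_le_iff_le_exp h4]; exact h3.le
    have h6 : Real.exp ((1 + δ) * n) = Real.exp (1 + δ) ^ n := by
      rw [mul_comm, Real.exp_nat_mul]
    rw [h6] at h5
    nlinarith

theorem log_expr {E u A0 κ : ℕ} {δ Y z : ℝ} (hY : 0 < Y) (hz : 0 < z) :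
    Real.log ((Real.exp (1 + δ) ^ (A0 + 1) * (2 ^ A0 * Y ^ E * z ^ (2 * u))) ^ κ *
      (3 ^ E * z ^ (2 * u))) =
      κ * (((A0 : ℝ) + 1) * (1 + δ) + (A0 * Real.log 2 + E * Real.log Y +
        2 * u * Real.log z)) + (E * Real.log 3 + 2 * u * Real.log z) := by
  rw [Real.log_mul (by positivity) (by positivity), Real.log_pow,
    Real.log_mul (by positivity) (by positivity), Real.log_pow, Real.log_exp,
    Real.log_mul (by positivity) (by positivity), Real.log_mul (by positivity) (by positivity),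
    Real.log_pow, Real.log_pow, Real.log_pow, Real.log_mul (by positivity) (by positivity),
    Real.log_pow, Real.log_pow]
  push_cast
  ring

theorem gap_aux2 {r E t lam κ A0 m b : ℕ} {δ : ℝ} (hδ1 : δ ≤ 1) (hκ : 1 ≤ κ)
    (hm : Real.log m ≤ lam) (hm1 : 1 ≤ m) (hb : 1 ≤ b) (hr1 : 1 ≤ r)
    (hr : (κ : ℝ) * (1 + Real.log 2 + 2 * δ) ≤ Real.log r)
    (hr2 : Real.log r ≤ Real.log 2 + κ * (1 + Real.log 2 + 2 * δ)) (hE : EE r t = E)
    (hEA : E ≤ A0)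
    (hA0 : 2 + 16 * (E : ℝ) * κ + 4 * ((t * (2 * r + 1) : ℕ) : ℝ) * lam < δ * A0) :
    (Real.exp (1 + δ) ^ (b * A0 + b) * betaC m r (b * A0) b t) ^ κ *
      betaV m r (b * (A0 - E)) b t < 1 := by
  set u := t * (2 * r + 1) with hu
  have e1 : Real.exp (1 + δ) ^ (b * A0 + b) = (Real.exp (1 + δ) ^ (A0 + 1)) ^ b := by
    rw [← pow_mul]; congr 1; ring
  have e2 : betaC m r (b * A0) b t = (2 ^ A0 * (3 * ((r : ℝ) + 2)) ^ E * (m : ℝ) ^ (2 * u)) ^ b := by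
    rw [betaC, hE, ← hu]
    generalize (3 * ((r : ℝ) + 2)) = X
    rw [mul_pow, mul_pow, ← pow_mul, ← pow_mul, ← pow_mul, mul_comm A0 b, mul_comm E b]
  have e3 : betaV m r (b * (A0 - E)) b t = (3 ^ E * (m : ℝ) ^ (2 * u) / (r : ℝ) ^ (A0 - E)) ^ b := by
    rw [betaV, hE, div_pow, mul_pow, ← pow_mul, ← pow_mul, ← pow_mul, ← hu, mul_comm (A0 - E) b,
      mul_comm E b]
  rw [e1, e2, e3, ← mul_pow, ← pow_mul, mul_comm b κ, pow_mul, ← mul_pow]
  have hmR : (1 : ℝ) ≤ m := by exact_mod_cast hm1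
  have hrR : (1 : ℝ) ≤ r := by exact_mod_cast hr1
  have hr0 : (0 : ℝ) < r := by linarith
  refine pow_lt_one₀ (by positivity) ?_ (by omega)
  rw [← mul_div_assoc, div_lt_one (by positivity)]
  rw [← Real.log_lt_log_iff (by positivity) (by positivity)]
  have hl2 := Real.log_two_gt_d9
  have hl2' := Real.log_two_lt_d9
  have hl3 : Real.log 3 ≤ 2 * Real.log 2 := by
    have : Real.log 3 ≤ Real.log 4 := Real.log_le_log (by norm_num) (by norm_num)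
    have h4 : Real.log 4 = 2 * Real.log 2 := by
      rw [show (4 : ℝ) = 2 ^ 2 by norm_num, Real.log_pow]; norm_num
    linarith
  have hlr2 : Real.log (3 * ((r : ℝ) + 2)) ≤ 4 * Real.log 2 + Real.log r := by
    have h5 : 3 * ((r : ℝ) + 2) ≤ 2 ^ 4 * r := by linarith
    refine (Real.log_le_log (by positivity) h5).trans (le_of_eq ?_)
    rw [Real.log_mul (by norm_num) (by positivity), Real.log_pow]; norm_num
  have hκR : (1 : ℝ) ≤ κ := by exact_mod_cast hκ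
  have hE0 : (0 : ℝ) ≤ E := by positivity
  have hu0 : (0 : ℝ) ≤ (u : ℝ) := by positivity
  have hlam0 : (0 : ℝ) ≤ lam := by positivity
  have hlm : 0 ≤ Real.log m := Real.log_nonneg hmR
  have hX : (0 : ℝ) < 3 * ((r : ℝ) + 2) := by positivity
  have L1 := log_expr (E := E) (u := u) (A0 := A0) (κ := κ) (δ := δ) hX
    (show (0 : ℝ) < m by linarith)
  have L2 : Real.log ((r : ℝ) ^ (A0 - E)) = ((A0 : ℝ) - E) * Real.log r := by
    rw [Real.log_pow, Nat.cast_sub hEA]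
  rw [L1, L2]
  have hA0E : (0 : ℝ) ≤ (A0 : ℝ) - E := by
    have : (E : ℝ) ≤ A0 := by exact_mod_cast hEA
    linarith
  -- abbreviations
  set x := Real.log 2 with hx
  set R := Real.log (r : ℝ) with hR
  set w := Real.log (m : ℝ) with hw
  have hA00 : (0 : ℝ) ≤ A0 := by positivity
  -- upper bound of the left side
  have U1 : (κ : ℝ) * (((A0 : ℝ) + 1) * (1 + δ) + (A0 * x + E * Real.log (3 * ((r : ℝ) + 2)) +
        2 * u * w)) + (E * Real.log 3 + 2 * u * w) ≤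
      κ * (((A0 : ℝ) + 1) * (1 + δ) + (A0 * x + E * (4 * x + R) + 2 * u * lam)) +
        κ * (E * (2 * x) + 2 * u * lam) := by
    have a1 : E * Real.log (3 * ((r : ℝ) + 2)) ≤ E * (4 * x + R) :=
      mul_le_mul_of_nonneg_left hlr2 hE0
    have a2 : 2 * (u : ℝ) * w ≤ 2 * u * lam := mul_le_mul_of_nonneg_left hm (by positivity)
    have a3 : E * Real.log 3 ≤ E * (2 * x) := mul_le_mul_of_nonneg_left hl3 hE0
    have a4 : 0 ≤ E * (2 * x) + 2 * (u : ℝ) * lam := by positivity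
    have a5 : E * Real.log 3 + 2 * u * w ≤ κ * (E * (2 * x) + 2 * u * lam) := by
      calc E * Real.log 3 + 2 * u * w ≤ E * (2 * x) + 2 * u * lam := by linarith
        _ ≤ κ * (E * (2 * x) + 2 * u * lam) := le_mul_of_one_le_left a4 hκR
    have a6 : (κ : ℝ) * (((A0 : ℝ) + 1) * (1 + δ) + (A0 * x + E * Real.log (3 * ((r : ℝ) + 2)) +
        2 * u * w)) ≤ κ * (((A0 : ℝ) + 1) * (1 + δ) + (A0 * x + E * (4 * x + R) + 2 * u * lam)) :=
      mul_le_mul_of_nonneg_left (by linarith) (by linarith)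
    linarith
  refine U1.trans_lt ?_
  have hRup : R ≤ κ * (2.4 + 2 * δ) := by nlinarith
  have hRE : (E : ℝ) * R ≤ E * (κ * (2.4 + 2 * δ)) := mul_le_mul_of_nonneg_left hRup hE0
  have hAR : (A0 : ℝ) * (κ * (1 + x + 2 * δ)) ≤ A0 * R := mul_le_mul_of_nonneg_left hr hA00
  have hEκ : (E : ℝ) ≤ E * κ := le_mul_of_one_le_right hE0 hκR
  have hEκ0 : (0 : ℝ) ≤ E * κ := by positivity
  have hEκδ : (E : ℝ) * κ * δ ≤ E * κ := mul_le_of_le_one_right hEκ0 hδ1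
  have hκ0 : (0 : ℝ) < κ := by linarith
  have main : (κ : ℝ) * (2 + 16 * (E : ℝ) * κ + 4 * (u : ℝ) * lam) < κ * (δ * A0) :=
    mul_lt_mul_of_pos_left hA0 hκ0
  have hκE : (κ : ℝ) * (E * R) ≤ κ * (E * (κ * (2.4 + 2 * δ))) :=
    mul_le_mul_of_nonneg_left hRE hκ0.le
  have hκκ : (E : ℝ) * κ ≤ E * κ * κ := le_mul_of_one_le_right hEκ0 hκR
  have hκκδ : (E : ℝ) * κ * κ * δ ≤ E * κ * κ := mul_le_of_le_one_right (by positivity) hδ1
  have hxE : (E : ℝ) * κ * x ≤ E * κ := by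
    have : x ≤ 1 := by linarith
    exact mul_le_of_le_one_right hEκ0 this
  have hδκ : (κ : ℝ) * δ ≤ κ := mul_le_of_le_one_right hκ0.le hδ1
  nlinarith

theorem size_final2 {κ m l r t E lam A0 b i N : ℕ} {δ ε : ℝ} (hδε : 3 * δ ≤ ε)
    (hδ1 : δ ≤ 1) (hN : 1 ≤ δ * N) (hm : 1 ≤ m) (hl : 1 ≤ l)
    (hr1 : 1 ≤ r) (hr : (r : ℝ) ≤ 2 * Real.exp (((κ : ℝ) + 1) * (1 + Real.log 2 + 2 * δ)))
    (ht : t ≤ m ^ 2) (hE : E = 2 * r + t * (2 * r + 1)) (hlam : lam = Nat.log 2 m + 1)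
    (hA0 : A0 = 2 * (N * (2 + 16 * E * (κ + 1) + 4 * (t * (2 * r + 1)) * lam)) + 1)
    (hb : b ≤ l + 3) (hi : i ≤ b * (A0 + 1)) :
    (i : ℝ) ≤ (2576 * (N : ℝ) ^ 2 * Real.exp 5) * Real.exp ((1 + Real.log 2 + ε) * κ) *
      (m : ℝ) ^ 2 * Real.log ((m : ℝ) + 1) * l := by
  have hN0 : 1 ≤ N := by
    rcases Nat.eq_zero_or_pos N with h | h
    · rw [h] at hN; norm_num at hN
    · exact h
  have hm2 : 1 ≤ m ^ 2 := Nat.one_le_pow _ _ hm
  have h1 : t * (2 * r + 1) ≤ 3 * r * m ^ 2 := by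
    calc t * (2 * r + 1) ≤ m ^ 2 * (3 * r) := Nat.mul_le_mul ht (by omega)
      _ = _ := by ring
  have hrm : r ≤ r * m ^ 2 := Nat.le_mul_of_pos_right _ hm2
  have h2 : E ≤ 5 * (r * m ^ 2) := by rw [hE]; nlinarith
  have h6 : 1 ≤ r * m ^ 2 := Nat.mul_pos hr1 hm2
  have h3 : A0 + 1 ≤ 2 * N * (r * m ^ 2) * (3 + 80 * (κ + 1) + 12 * lam) := by
    rw [hA0]
    have h4 : 16 * E * (κ + 1) ≤ 16 * (5 * (r * m ^ 2)) * (κ + 1) :=
      Nat.mul_le_mul_right _ (Nat.mul_le_mul_left _ h2)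
    have h5 : 4 * (t * (2 * r + 1)) * lam ≤ 4 * (3 * r * m ^ 2) * lam :=
      Nat.mul_le_mul_right _ (Nat.mul_le_mul_left _ h1)
    have h7 : 2 + 16 * E * (κ + 1) + 4 * (t * (2 * r + 1)) * lam + 1 ≤
        (r * m ^ 2) * (3 + 80 * (κ + 1) + 12 * lam) := by nlinarith
    have h8 := Nat.mul_le_mul_left (2 * N) h7
    nlinarith
  have h4 : i ≤ 4 * l * (2 * N * (r * m ^ 2) * (3 + 80 * (κ + 1) + 12 * lam)) :=
    hi.trans (Nat.mul_le_mul (by omega) h3)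
  have h5 : (i : ℝ) ≤ 4 * l * (2 * N * ((r : ℝ) * m ^ 2) * (3 + 80 * ((κ : ℝ) + 1) + 12 * lam)) := by
    exact_mod_cast h4
  refine h5.trans ?_
  have hlog := one_le_log hm
  have hlam' := lam_le hm
  rw [← hlam] at hlam'
  set Lg := Real.log ((m : ℝ) + 1) with hLg
  have hk0 : (0 : ℝ) ≤ κ := by positivity
  have hk1 : (1 : ℝ) ≤ (κ : ℝ) + 1 := by linarith
  have hLg0 : 0 < Lg := by linarith
  have h7 : 3 + 80 * ((κ : ℝ) + 1) + 12 * lam ≤ 161 * ((κ : ℝ) + 1) * Lg := by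
    have a2 : 80 * ((κ : ℝ) + 1) ≤ 80 * ((κ : ℝ) + 1) * (3 / 2 * Lg) :=
      le_mul_of_one_le_right (by positivity) hlog
    have a3 : 12 * (lam : ℝ) ≤ 36 * Lg := by linarith
    have a4 : 41 * Lg ≤ 41 * Lg * ((κ : ℝ) + 1) := le_mul_of_one_le_right (by positivity) hk1
    nlinarith
  have h8 : ((κ : ℝ) + 1) ≤ N * Real.exp (δ * ((κ : ℝ) + 1)) := by
    have a1 : δ * ((κ : ℝ) + 1) ≤ Real.exp (δ * ((κ : ℝ) + 1)) := by
      have := Real.add_one_le_exp (δ * ((κ : ℝ) + 1)); linarith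
    have hNR : (1 : ℝ) ≤ N := by exact_mod_cast hN0
    calc ((κ : ℝ) + 1) ≤ (δ * N) * ((κ : ℝ) + 1) := le_mul_of_one_le_left (by linarith) hN
      _ = N * (δ * ((κ : ℝ) + 1)) := by ring
      _ ≤ _ := mul_le_mul_of_nonneg_left a1 (by positivity)
  have h9 : Real.exp (((κ : ℝ) + 1) * (1 + Real.log 2 + 2 * δ)) * Real.exp (δ * ((κ : ℝ) + 1)) ≤
      Real.exp 5 * Real.exp ((1 + Real.log 2 + ε) * κ) := by
    rw [← Real.exp_add, ← Real.exp_add]
    apply Real.exp_le_exp.2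
    have := Real.log_two_lt_d9
    have a1 : (κ : ℝ) * (3 * δ) ≤ κ * ε := mul_le_mul_of_nonneg_left hδε hk0
    nlinarith
  set P := Real.exp (((κ : ℝ) + 1) * (1 + Real.log 2 + 2 * δ)) with hP
  have hP0 : 0 < P := Real.exp_pos _
  have hNn : (0 : ℝ) ≤ N := by positivity
  calc 4 * (l : ℝ) * (2 * N * ((r : ℝ) * m ^ 2) * (3 + 80 * ((κ : ℝ) + 1) + 12 * lam))
      ≤ 4 * (l : ℝ) * (2 * N * ((2 * P) * m ^ 2) * (161 * (N * Real.exp (δ * ((κ : ℝ) + 1))) * Lg)) := by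
        have a1 : 161 * ((κ : ℝ) + 1) * Lg ≤ 161 * (N * Real.exp (δ * ((κ : ℝ) + 1))) * Lg := by
          refine mul_le_mul_of_nonneg_right ?_ hLg0.le
          linarith
        have a2 : 2 * (N : ℝ) * ((r : ℝ) * m ^ 2) ≤ 2 * N * ((2 * P) * m ^ 2) := by
          refine mul_le_mul_of_nonneg_left ?_ (by positivity)
          exact mul_le_mul_of_nonneg_right hr (by positivity)
        refine mul_le_mul_of_nonneg_left (mul_le_mul a2 (h7.trans a1) ?_ ?_) ?_ <;> positivity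
    _ = (2576 * (N : ℝ) ^ 2 * (P * Real.exp (δ * ((κ : ℝ) + 1)))) * (m ^ 2 * Lg * l) := by ring
    _ ≤ (2576 * (N : ℝ) ^ 2 * (Real.exp 5 * Real.exp ((1 + Real.log 2 + ε) * κ))) *
          (m ^ 2 * Lg * l) := by
        refine mul_le_mul_of_nonneg_right (mul_le_mul_of_nonneg_left h9 ?_) ?_ <;> positivity
    _ = _ := by ring

end Pool.Agent.Helper8
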