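import Mathlib

/-!
# D-integral power series

A power series `f` over `ℚ` is `D`-integral if `D^k * coeff k f` is an integer for every `k`.
These series form a subring.
-/

namespace Pool.Agent.Helper8

open Finset PowerSeries

/-- The subring of integers inside `ℚ`. -/
def ZZ : Subring ℚ := (Int.castRingHom ℚ).range

theorem mem_ZZ {q : ℚ} : q ∈ ZZ ↔ ∃ z : ℤ, (z : ℚ) = q := by
  simp [ZZ]

theorem int_mem_ZZ (z : ℤ) : (z : ℚ) ∈ ZZ := mem_ZZ.2 ⟨z, rfl⟩

theorem nat_mem_ZZ (z : ℕ) : (z : ℚ) ∈ ZZ := mem_ZZ.2 ⟨z, by simp⟩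

/-- The subring of `D`-integral power series. -/
def RD (D : ℕ) : Subring ℚ⟦X⟧ where
  carrier := {f | ∀ k, (D : ℚ) ^ k * coeff k f ∈ ZZ}
  mul_mem' := by
    intro f g hf hg k
    rw [coeff_mul, mul_sum]
    refine sum_mem fun p hp => ?_
    have h : (D : ℚ) ^ k * (coeff p.1 f * coeff p.2 g)
        = ((D : ℚ) ^ p.1 * coeff p.1 f) * ((D : ℚ) ^ p.2 * coeff p.2 g) := by
      rw [← mem_antidiagonal.1 hp, pow_add]; ring
    rw [h]
    exact mul_mem (hf _) (hg _)
  one_mem' := by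
    intro k
    rw [coeff_one]
    split_ifs with h
    · simpa [h] using ZZ.one_mem
    · simpa using ZZ.zero_mem
  add_mem' := by
    intro f g hf hg k
    rw [map_add, mul_add]
    exact add_mem (hf _) (hg _)
  zero_mem' := by
    intro k
    simpa using ZZ.zero_mem
  neg_mem' := by
    intro f hf k
    rw [map_neg, mul_neg]
    exact neg_mem (hf _)

theorem mem_RD {D : ℕ} {f : ℚ⟦X⟧} : f ∈ RD D ↔ ∀ k, (D : ℚ) ^ k * coeff k f ∈ ZZ := Iff.rfl

theorem C_mem_RD {D : ℕ} {q : ℚ} (hq : q ∈ ZZ) : (C q : ℚ⟦X⟧) ∈ RD D := by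
  intro k
  rw [coeff_C]
  split_ifs with h
  · simpa [h] using hq
  · simpa using ZZ.zero_mem

theorem X_mem_RD {D : ℕ} : (X : ℚ⟦X⟧) ∈ RD D := by
  intro k
  rw [coeff_X]
  split_ifs with h
  · simpa [h] using nat_mem_ZZ D
  · simpa using ZZ.zero_mem

/-- inverse of the linear series `e + X` -/
noncomputable def iv {K : Type*} [Field K] (e : K) : K⟦X⟧ := PowerSeries.mk fun k => (-1) ^ k / e ^ (k + 1)

theorem coeff_iv {K : Type*} [Field K] (e : K) (k : ℕ) : coeff k (iv e) = (-1) ^ k / e ^ (k + 1) := by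
  simp [iv]

theorem lin_mul_iv {K : Type*} [Field K] {e : K} (he : e ≠ 0) : (C e + X) * iv e = 1 := by
  ext k
  rw [add_mul, map_add, coeff_C_mul, coeff_iv, coeff_one]
  rcases k with _ | k
  · simp [he]
  · rw [coeff_succ_X_mul, coeff_iv]
    simp only [Nat.add_eq_zero_iff, one_ne_zero, and_false, if_false]
    field_simp
    ring

theorem iv_mul_lin {K : Type*} [Field K] {e : K} (he : e ≠ 0) : iv e * (C e + X) = 1 := by
  rw [mul_comm, lin_mul_iv he]

/-- geometric series `1/(1+X/e)` -/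
noncomputable def geo (e : ℚ) : ℚ⟦X⟧ := PowerSeries.mk fun k => (-1) ^ k / e ^ k

theorem iv_eq (e : ℚ) : iv e = C (1 / e) * geo e := by
  ext k
  rw [coeff_iv, coeff_C_mul, geo, coeff_mk, pow_succ]
  rw [div_mul_div_comm, one_mul, mul_comm (e ^ k) e]

theorem geo_mem_RD {D : ℕ} {e : ℤ} (he : e ≠ 0) (hd : e ∣ D) : geo (e : ℚ) ∈ RD D := by
  intro k
  obtain ⟨c, hc⟩ := hd
  rw [geo, coeff_mk]
  have hD : (D : ℚ) = e * c := by exact_mod_cast hc
  have he' : (e : ℚ) ≠ 0 := by exact_mod_cast he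
  have : (D : ℚ) ^ k * ((-1) ^ k / (e : ℚ) ^ k) = (((-1) ^ k * c ^ k : ℤ) : ℚ) := by
    rw [hD, mul_pow]; push_cast; field_simp
  rw [this]
  exact int_mem_ZZ _

/-! ### Falling factorial blocks -/

/-- `(1/n!) ∏_{k<n} (y - k + X)`, the series of `binom (y+X) n`. -/
noncomputable def bin (y : ℚ) (n : ℕ) : ℚ⟦X⟧ :=
  C (1 / (n.factorial : ℚ)) * ∏ k ∈ range n, (C (y - k) + X)

/-- `binom y n` as a rational number -/
noncomputable def bq (y : ℚ) (n : ℕ) : ℚ := (1 / (n.factorial : ℚ)) * ∏ k ∈ range n, (y - k)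

theorem prod_eq_choose {R : Type*} [CommRing R] [BinomialRing R] (r : R) (n : ℕ) :
    ∏ k ∈ range n, (r - (k : R)) = (n.factorial : R) * Ring.choose r n := by
  have h := Ring.descPochhammer_eq_factorial_smul_choose r n
  rw [nsmul_eq_mul] at h
  rw [← h]
  rw [← descPochhammer_eval_eq_prod_range]
  rw [← descPochhammer_map (Int.castRingHom R), Polynomial.eval_map,
    ← Polynomial.aeval_eq_smeval, Polynomial.aeval_def, algebraMap_int_eq]

theorem bq_eq_choose (y : ℚ) (n : ℕ) : bq y n = Ring.choose y n := by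
  rw [bq, prod_eq_choose]
  field_simp

theorem bin_eq_choose (y : ℚ) (n : ℕ) : bin y n = Ring.choose ((C y : ℚ⟦X⟧) + X) n := by
  have h : ∏ k ∈ range n, ((C (y - k) : ℚ⟦X⟧) + X)
      = ∏ k ∈ range n, ((C y + X : ℚ⟦X⟧) - (k : ℚ⟦X⟧)) := by
    refine prod_congr rfl fun k _ => ?_
    rw [map_sub, map_natCast]; ring
  rw [bin, h, prod_eq_choose, ← map_natCast (C : ℚ →+* ℚ⟦X⟧) n.factorial, ← mul_assoc, ← map_mul]
  rw [one_div_mul_cancel (by positivity), map_one, one_mul]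

/-- Vandermonde for the series `bin` -/
theorem bin_vandermonde (y : ℚ) (n : ℕ) :
    bin y n = ∑ ij ∈ antidiagonal n, bin 0 ij.1 * C (bq y ij.2) := by
  rw [bin_eq_choose, add_comm (C y), Ring.add_choose_eq n (Commute.all _ _)]
  refine sum_congr rfl fun ij _ => ?_
  rw [bin_eq_choose, map_zero, zero_add, bq_eq_choose]
  congr 1
  rw [Ring.map_choose]

theorem bin_zero_mem_RD {D n : ℕ} (hD : ∀ e : ℕ, 1 ≤ e → e ≤ n → e ∣ D) :
    bin 0 n ∈ RD D := by
  rcases n with _ | n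
  · simp [bin, (RD D).one_mem]
  · have h1 : bin 0 (n + 1) = (C (1 / ((n : ℚ) + 1)) * X) *
        (C ((-1) ^ n) * ∏ k ∈ range n, (1 - C (1 / ((k : ℚ) + 1)) * X)) := by
      rw [bin, prod_range_succ']
      have h2 : ∀ k ∈ range n, (C ((0 : ℚ) - ((k + 1 : ℕ) : ℚ)) + X : ℚ⟦X⟧) =
          C (-((k : ℚ) + 1)) * (1 - C (1 / ((k : ℚ) + 1)) * X) := by
        intro k _
        have hk : ((k : ℚ) + 1) ≠ 0 := by positivity
        rw [mul_sub, mul_one, ← mul_assoc, ← map_mul]
        have : -((k : ℚ) + 1) * (1 / ((k : ℚ) + 1)) = -1 := by field_simp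
        rw [this]; simp
      rw [prod_congr rfl h2, prod_mul_distrib, ← map_prod]
      have h3 : ∏ k ∈ range n, (-((k : ℚ) + 1)) = (-1) ^ n * (n.factorial : ℚ) := by
        rw [prod_neg, card_range, ← prod_range_add_one_eq_factorial]; push_cast; ring
      rw [h3]
      have h4 : (C (1 / ((n + 1).factorial : ℚ)) : ℚ⟦X⟧) * C ((-1) ^ n * (n.factorial : ℚ))
          = C (1 / ((n : ℚ) + 1)) * C ((-1) ^ n) := by
        rw [← map_mul, ← map_mul]; congr 1
        rw [Nat.factorial_succ]; push_cast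
        have : (n.factorial : ℚ) ≠ 0 := by positivity
        field_simp
      simp only [Nat.cast_zero, sub_zero, map_zero, zero_add]
      linear_combination (∏ k ∈ range n, (1 - C (1 / ((k : ℚ) + 1)) * X)) * X * h4
    rw [h1]
    have key : ∀ e : ℕ, 1 ≤ e → e ≤ n + 1 → (C (1 / (e : ℚ)) * X : ℚ⟦X⟧) ∈ RD D := by
      intro e he1 he2 k
      obtain ⟨c, hc⟩ := hD e he1 he2
      rw [coeff_C_mul, coeff_X]
      split_ifs with h
      · have he0 : (e : ℚ) ≠ 0 := by positivity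
        have : (D : ℚ) ^ k * (1 / (e : ℚ) * 1) = ((c : ℕ) : ℚ) := by
          rw [h, hc]; push_cast; field_simp
        rw [this]; exact nat_mem_ZZ _
      · simp
    refine mul_mem ?_ (mul_mem (C_mem_RD ?_) (prod_mem fun k hk => sub_mem (one_mem _) ?_))
    · have := key (n + 1) (by omega) le_rfl
      push_cast at this; exact this
    · have := int_mem_ZZ ((-1) ^ n); push_cast at this; exact this
    · have := key (k + 1) (by omega) (by have := mem_range.1 hk; omega)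
      push_cast at this; exact this

/-- `D`-integrality of `c * bin y n` when `c * binom y k` is an integer for all `k ≤ n`. -/
theorem C_mul_bin_mem_RD {D n : ℕ} (hD : ∀ e : ℕ, 1 ≤ e → e ≤ n → e ∣ D) {c y : ℚ}
    (hc : ∀ k ≤ n, c * bq y k ∈ ZZ) : C c * bin y n ∈ RD D := by
  rw [bin_vandermonde, mul_sum]
  refine sum_mem fun ij hij => ?_
  have hle := mem_antidiagonal.1 hij
  have : (C c * (bin 0 ij.1 * C (bq y ij.2)) : ℚ⟦X⟧) = bin 0 ij.1 * C (c * bq y ij.2) := by
    rw [map_mul]; ring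
  rw [this]
  refine mul_mem (bin_zero_mem_RD fun e h1 h2 => hD e h1 (by omega)) (C_mem_RD (hc _ (by omega)))

theorem bq_int_mem_ZZ (z : ℤ) (n : ℕ) : bq (z : ℚ) n ∈ ZZ := by
  rw [bq_eq_choose]
  have : Ring.choose (z : ℚ) n = ((Ring.choose z n : ℤ) : ℚ) := by
    have := Ring.map_choose (Int.castRingHom ℚ) z n
    simpa using this.symm
  rw [this]; exact int_mem_ZZ _

end Pool.Agent.Helper8
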